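import Mathlib
import Pool.Agent.Lib.MP_d57abb_nt.All.Defs

/-!
# Definitions
-/

namespace Pool.Agent.Lib.MP_d57abb_nt.Ev

open Finset Pool.Agent.Lib.MP_d57abb_nt Pool.Agent.Lib.MP_d57abb_nt.All

/-- the Ramsey property on the two lines `x = 1`, `x = 2`, with a given bound -/
def PropV {m : ℕ} (h : ℕ → ZMod m) (c : ZMod m) (X : ℕ) : Prop :=
  ∀ b : ℕ → ℕ → ZMod m, ∃ x y x' y' d : ℕ, (x = 1 ∨ x = 2) ∧ (x' = 1 ∨ x' = 2) ∧ Spl d ∧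
    d ∣ y ∧ d ∣ y' ∧ y ≤ X ∧ y' ≤ X ∧ x * y' = x' * y + d ∧ b x y + b x' y' = c + 2 * h d

/-- the vector with coordinates `x, y` in the frame `z₀, v` -/
def fv (z₀ v : ℤ × ℤ) (x y : ℕ) : ℤ × ℤ := (x : ℤ) • z₀ + (y : ℤ) • v

/-- an edge between two residue types: `W = D W₁`, the difference is `Δ = D n`, and `D` divides
the residue `t` on the line `x = 1` -/
def Cn {m : ℕ} (h : ℕ → ZMod m) (Q w W : ℕ) (γ c : ZMod m) (t Δ : ℕ) (g : ZMod m) (D W₁ n : ℕ) : Prop :=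
  W = D * W₁ ∧ (∀ p : ℕ, p.Prime → p ≤ w → p ∣ W₁) ∧ Spl D ∧ D ∣ t ∧ Δ = D * n ∧
    Nat.Coprime n W₁ ∧ 5 * Q ∣ W₁ ∧ n % (5 * Q) = 1 ∧ c + (h D + γ) = g

/-- the first set of types -/
abbrev TA (m : ℕ) : Type := Fin (2 * m + 1)

/-- the second set of types -/
abbrev TB (m : ℕ) : Type := TA m → ZMod m

/-- the third set of types -/
abbrev TC (m : ℕ) : Type := (TA m → ZMod m) × (TB m → ZMod m)

/-- the outcome of the window theorem: many primes `p`, and many positions `j` for each of them -/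
def WOut {m : ℕ} (h : ℕ → ZMod m) (c : ZMod m) (W ℓ : ℕ) (c₁ : ℝ) (x₁ x₂ : ℕ → ZMod m) : Prop :=
  ∃ (D ρ s : ℕ) (R : ℕ → Finset ℕ), D ∣ W ∧ D ∣ ρ ∧ Spl D ∧ (∀ p, R p ⊆ Ico s (s + ℓ)) ∧
    (∀ p, ∀ j ∈ R p, p.Prime ∧ p % 5 = 1 ∧ ℓ < p ∧ p ≤ 6 * W * ℓ ∧ W * j + ρ < 5 * W * ℓ ∧
      ((W * j + ρ + D * p < 5 * W * ℓ ∧
          x₁ (W * j + ρ) + x₁ (W * j + ρ + D * p) = 2 * c + 2 * h (D * p)) ∨
       (2 * (W * j + ρ) + D * p < 10 * W * ℓ ∧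
          x₁ (W * j + ρ) + x₂ (2 * (W * j + ρ) + D * p) = 2 * c + 2 * h (D * p)) ∨
       (D * p ≤ 2 * (W * j + ρ) ∧
          x₁ (W * j + ρ) + x₂ (2 * (W * j + ρ) - D * p) = 2 * c + 2 * h (D * p)))) ∧
    c₁ * ℓ / Real.log ℓ ≤ ∑ p ∈ (Ioc ℓ (6 * W * ℓ)).filter Nat.Prime, ((R p).card : ℝ) / p

end Pool.Agent.Lib.MP_d57abb_nt.Ev
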