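import Mathlib
import Pool.Agent.Lib.MP_d57abb_nt.Ev.Defs
import Pool.Agent.Lib.MP_d57abb_nt.AP.Defs

/-!
# Definitions for the counting
-/

namespace Pool.Agent.Lib.MP_d57abb_nt.Ev

open Finset Pool.Agent.Lib.MP_d57abb_nt Pool.Agent.Lib.MP_d57abb_nt.All Pool.Agent.Lib.MP_d57abb_nt.AP

/-- the indices of the vectors used -/
def idx (X : ℕ) : Finset (ℕ × ℕ) :=
  (({1, 2} : Finset ℕ) ×ˢ range (X + 1)).filter (fun s => Nat.Coprime s.1 s.2)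

/-- the vector with index `(x, y)` of the frame `(a, b), (c, (1 + b c) / a)` -/
def zv (a b c x y : ℕ) : ℤ × ℤ := fv ((a : ℤ), (b : ℤ)) ((c : ℤ), (((1 + b * c) / a : ℕ) : ℤ)) x y

/-- the bad residues modulo `q` -/
def badV (a X q : ℕ) : Finset (ℕ × ℕ) :=
  (range q ×ˢ range q).filter (fun s => ∃ i ∈ idx X, (q : ℤ) ∣
    nm ((i.1 : ℤ) * (a : ℤ) ^ 2 + i.2 * a * s.2, (i.1 : ℤ) * a * s.1 + i.2 * (1 + s.1 * s.2)))

open Classical in
/-- the sifted family -/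
noncomputable def SiftV (a G B X w z : ℕ) : Finset (ℕ × ℕ) :=
  (Fam a G B).filter (fun x => ∀ q ∈ Pz z, w < q → ∀ i ∈ idx X,
    ¬ (q : ℤ) ∣ nm (zv a x.1 x.2 i.1 i.2))

/-- the sifted family for all primes `a ≡ 1 (mod G)` in `(A / 2, A]` -/
noncomputable def SSV (A G B X w z : ℕ) : Finset (Σ _ : ℕ, ℕ × ℕ) :=
  ((Ioc (A / 2) A).filter (fun a => a.Prime ∧ a ≡ 1 [MOD G])).sigma (fun a => SiftV a G B X w z)

/-- the parameters -/
structure ParV {m : ℕ} (h : ℕ → ZMod m) (X : ℕ) (δ₀ u₀ : ℤ × ℤ) (dl co : ℕ → ℤ × ℤ) (B w E : ℕ) : Prop where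
  add : Add h
  prop : ∀ c, PropV h (2 * c) X
  tp : TP δ₀
  sys : Sys X δ₀ dl co
  base : ml δ₀ u₀ = (1, (B : ℤ))
  hw : 8 * (X + 1) ≤ w
  hM : nm δ₀ ∣ ((w.factorial : ℕ) : ℤ)
  E1 : 1 ≤ E
  hE : nm (2, ((2 * B + X : ℕ) : ℤ)) < 2 ^ E

/-- the primitive vectors of the box -/
def Pc (Q : ℕ) : Finset (ℕ × ℕ) := (Icc 1 Q ×ˢ Icc 1 Q).filter (fun z => Nat.Coprime z.1 z.2)

/-- the norm form on natural numbers -/
def nmN (z : ℕ × ℕ) : ℕ := z.1 ^ 2 + 3 * z.1 * z.2 + z.2 ^ 2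

/-- the quadratic character modulo `5` -/
def chi5 (n : ℕ) : ℤ := if n % 5 = 1 ∨ n % 5 = 4 then 1 else if n % 5 = 0 then 0 else -1

/-- the number of ideals of norm `d` -/
def rr (d : ℕ) : ℤ := ∑ e ∈ d.divisors, chi5 e

/-- the number of roots modulo `d` -/
def rts (d : ℕ) : ℕ := ((range d).filter (fun k => d ∣ k ^ 2 + 3 * k + 1)).card

open Classical in
/-- a solution `c < a` of `a ∣ 1 + b c` -/
noncomputable def cz (a b : ℕ) : ℕ := if h : ∃ c, c < a ∧ a ∣ 1 + b * c then h.choose else 0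

/-- the good starting vectors: in the residue class `(1, B)` modulo `G`, all the norms of the frame
with at most `T` divisors -/
noncomputable def Good (A G B X T : ℕ) : Finset (ℕ × ℕ) :=
  (Pc A).filter (fun z => (z.1 ≡ 1 [MOD G] ∧ z.2 ≡ B [MOD G]) ∧
    ∀ i ∈ idx X, (nm (zv z.1 z.2 (cz z.1 z.2) i.1 i.2)).natAbs.divisors.card ≤ T)

end Pool.Agent.Lib.MP_d57abb_nt.Ev
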