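import Mathlib
import Pool.Agent.Lib.MP_d57abb_nt.Ev.Defs2
import Pool.Agent.Lib.MP_d57abb_nt.Plus

/-!
# JOB SzV: sizes, local conditions, the number `cz`

PROOF of `small_valV` (as `small_val` in `AP/Om.lean`): `nm z ≡ nm (x, s) (mod (w!)^E)`, `q^E ∣ (w!)^E` for a prime `q ≤ w`; if `q^E ∣ nm z` then `q^E ∣ nm (x, s)`, but `0 < nm (x, s) < 2^E ≤ q^E`.
PROOF of `sizeV`.  Let `e = (1 + b c) / a`, `M = max a b`; `c < a ≤ M` and `e ≤ M`: `1 + b c ≤ 1 + b (a - 1) ≤ a b` (as `b ≥ 1`), so `e ≤ b`.  The coordinates `x a + y c`, `x b + y e` of `zv a b c x y` are in `[0, (X + 2) M]`, the first is `≥ a ≥ 1`, the second `≥ b`; `nm (p, q) ≤ 5 max(p, q)²`, `nm (p, q) ≥ p²`.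
PROOF of `cz_spec`: `b` is a unit modulo `a`: there is `c` with `b c ≡ -1 (mod a)` (`Nat.exists_mul_emod_eq_one_of_coprime` or Bezout in `ZMod a`; for `a = 1` take `c = 0`), and `c % a < a`; then `Exists.choose_spec` (`unfold cz`, `rw [dif_pos]`).
PROOF of `zv_frame`: `a e = 1 + b c`, `dt (a, b) (c, e) = a e - b c = 1`; `TP (a, b)`, `TP (c, e)`: `TP_of_nonneg` in `Plus` (`e > 0` since `a e = 1 + b c > 0`).
PROOF of `card_idx`: a subset of `{1, 2} × range (X + 1)`.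
-/

open Finset

namespace Pool.Agent.Lib.MP_d57abb_nt.Ev

open Pool.Agent.Lib.MP_d57abb_nt Pool.Agent.Lib.MP_d57abb_nt.All

theorem small_valV (w E x s q : ℕ) (hq : q.Prime) (hqw : q ≤ w) (hxs : 0 < x + s)
    (hE : nm ((x : ℤ), (s : ℤ)) < 2 ^ E) (z : ℤ × ℤ) (h1 : (((w.factorial) ^ E : ℕ) : ℤ) ∣ z.1 - x)
    (h2 : (((w.factorial) ^ E : ℕ) : ℤ) ∣ z.2 - s) : ¬ ((q ^ E : ℕ) : ℤ) ∣ nm z := by
  intro hd
  have hqG : ((q ^ E : ℕ) : ℤ) ∣ (((w.factorial) ^ E : ℕ) : ℤ) := by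
    rw [Int.natCast_dvd_natCast]
    exact pow_dvd_pow_of_dvd ((Nat.Prime.dvd_factorial hq).2 hqw) E
  obtain ⟨u, hu⟩ := hqG.trans h1
  obtain ⟨v, hv⟩ := hqG.trans h2
  obtain ⟨t, ht⟩ := hd
  obtain ⟨Q, hQ⟩ : ∃ Q : ℤ, Q = ((q ^ E : ℕ) : ℤ) := ⟨_, rfl⟩
  rw [← hQ] at hu hv ht
  have hz1 : z.1 = x + Q * u := by linarith
  have hz2 : z.2 = s + Q * v := by linarith
  have hval : nm z = z.1 ^ 2 + 3 * z.1 * z.2 + z.2 ^ 2 := rfl
  have hval2 : nm ((x : ℤ), (s : ℤ)) = (x : ℤ) ^ 2 + 3 * x * s + (s : ℤ) ^ 2 := rfl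
  have hdvd : Q ∣ nm ((x : ℤ), (s : ℤ)) := by
    refine ⟨t - 2 * x * u - Q * u ^ 2 - 3 * (x * v + u * s + Q * u * v) - 2 * s * v - Q * v ^ 2, ?_⟩
    rw [hval, hz1, hz2] at ht
    rw [hval2]
    linear_combination ht
  have hpos : 0 < nm ((x : ℤ), (s : ℤ)) := by
    rw [hval2]
    have hx0 : (0 : ℤ) ≤ x := Int.natCast_nonneg _
    have hs0 : (0 : ℤ) ≤ s := Int.natCast_nonneg _
    have hxs' : (0 : ℤ) < x + s := by exact_mod_cast hxs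
    have h3 : 0 < ((x : ℤ) + s) ^ 2 := by positivity
    have h4 : 0 ≤ (x : ℤ) * s := mul_nonneg hx0 hs0
    have h5 : (x : ℤ) ^ 2 + 3 * x * s + (s : ℤ) ^ 2 = ((x : ℤ) + s) ^ 2 + x * s := by ring
    rw [h5]
    linarith
  have hle := Int.le_of_dvd hpos hdvd
  have h2q : (2 : ℤ) ^ E ≤ Q := by
    rw [hQ]
    have : 2 ^ E ≤ q ^ E := Nat.pow_le_pow_left hq.two_le E
    exact_mod_cast this
  linarith

theorem sizeV (a b c x y X : ℕ) (ha : 1 ≤ a) (hb : 1 ≤ b) (hc : c < a) (hx : x = 1 ∨ x = 2) (hy : y ≤ X) :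
    1 ≤ (zv a b c x y).1 ∧ 1 ≤ (zv a b c x y).2 ∧
    (zv a b c x y).1 ≤ ((X : ℤ) + 2) * max (a : ℤ) b ∧ (zv a b c x y).2 ≤ ((X : ℤ) + 2) * max (a : ℤ) b ∧
    (a : ℤ) ^ 2 ≤ nm (zv a b c x y) ∧ nm (zv a b c x y) ≤ 5 * ((X : ℤ) + 2) ^ 2 * (max (a : ℤ) b) ^ 2 := by
  obtain ⟨e, he⟩ : ∃ e : ℕ, e = (1 + b * c) / a := ⟨_, rfl⟩
  have heb : e ≤ b := by
    rw [he]
    refine Nat.div_le_of_le_mul ?_
    have h1 : b * c ≤ b * (a - 1) := Nat.mul_le_mul_left _ (by omega)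
    have h2 : b * (a - 1) + b = a * b := by
      obtain ⟨a', rfl⟩ : ∃ a', a = a' + 1 := ⟨a - 1, by omega⟩
      rw [Nat.add_sub_cancel]
      ring
    omega
  have hz : zv a b c x y = ((x : ℤ) * a + y * c, (x : ℤ) * b + y * e) := by
    unfold zv fv
    rw [← he]
    rfl
  obtain ⟨M, hM⟩ : ∃ M : ℤ, M = max (a : ℤ) b := ⟨_, rfl⟩
  have haM : (a : ℤ) ≤ M := by rw [hM]; exact le_max_left _ _
  have hbM : (b : ℤ) ≤ M := by rw [hM]; exact le_max_right _ _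
  have hcM : (c : ℤ) ≤ M := by
    have h1 : (c : ℤ) < a := by exact_mod_cast hc
    linarith
  have heM : (e : ℤ) ≤ M := by
    have h1 : (e : ℤ) ≤ b := by exact_mod_cast heb
    linarith
  have ha' : (1 : ℤ) ≤ a := by exact_mod_cast ha
  have hb' : (1 : ℤ) ≤ b := by exact_mod_cast hb
  have hc0 : (0 : ℤ) ≤ c := Int.natCast_nonneg _
  have he0 : (0 : ℤ) ≤ e := Int.natCast_nonneg _
  have hy0 : (0 : ℤ) ≤ y := Int.natCast_nonneg _
  have hy' : (y : ℤ) ≤ X := by exact_mod_cast hy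
  have hM0 : 0 ≤ M := by linarith
  have hx1 : (1 : ℤ) ≤ x := by
    rcases hx with rfl | rfl <;> norm_num
  have hx2 : (x : ℤ) ≤ 2 := by
    rcases hx with rfl | rfl <;> norm_num
  have hyc : (y : ℤ) * c ≤ X * M := mul_le_mul hy' hcM hc0 (by linarith)
  have hye : (y : ℤ) * e ≤ X * M := mul_le_mul hy' heM he0 (by linarith)
  have hyc0 : 0 ≤ (y : ℤ) * c := mul_nonneg hy0 hc0
  have hye0 : 0 ≤ (y : ℤ) * e := mul_nonneg hy0 he0
  have hxa : (x : ℤ) * a ≤ 2 * M := mul_le_mul hx2 haM (by linarith) (by norm_num)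
  have hxb : (x : ℤ) * b ≤ 2 * M := mul_le_mul hx2 hbM (by linarith) (by norm_num)
  have hxa1 : (a : ℤ) ≤ x * a := le_mul_of_one_le_left (by linarith) hx1
  have hxb1 : (b : ℤ) ≤ x * b := le_mul_of_one_le_left (by linarith) hx1
  have hp1 : (a : ℤ) ≤ (x : ℤ) * a + y * c := by linarith
  have hq1 : (1 : ℤ) ≤ (x : ℤ) * b + y * e := by linarith
  have hp2 : (x : ℤ) * a + y * c ≤ ((X : ℤ) + 2) * M := by linarith
  have hq2 : (x : ℤ) * b + y * e ≤ ((X : ℤ) + 2) * M := by linarith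
  rw [← hM, hz]
  show (1 : ℤ) ≤ (x : ℤ) * a + y * c ∧ (1 : ℤ) ≤ (x : ℤ) * b + y * e ∧
    (x : ℤ) * a + y * c ≤ ((X : ℤ) + 2) * M ∧ (x : ℤ) * b + y * e ≤ ((X : ℤ) + 2) * M ∧
    (a : ℤ) ^ 2 ≤ ((x : ℤ) * a + y * c) ^ 2 + 3 * ((x : ℤ) * a + y * c) * ((x : ℤ) * b + y * e) +
      ((x : ℤ) * b + y * e) ^ 2 ∧
    ((x : ℤ) * a + y * c) ^ 2 + 3 * ((x : ℤ) * a + y * c) * ((x : ℤ) * b + y * e) +
      ((x : ℤ) * b + y * e) ^ 2 ≤ 5 * ((X : ℤ) + 2) ^ 2 * M ^ 2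
  generalize (x : ℤ) * a + y * c = P at *
  generalize (x : ℤ) * b + y * e = Q at *
  generalize hR : ((X : ℤ) + 2) * M = R at *
  have hP0 : 0 ≤ P := by linarith
  have hQ0 : 0 ≤ Q := by linarith
  have hPP : P * P ≤ R * R := mul_le_mul hp2 hp2 hP0 (by linarith)
  have hQQ : Q * Q ≤ R * R := mul_le_mul hq2 hq2 hQ0 (by linarith)
  have hPQ : P * Q ≤ R * R := mul_le_mul hp2 hq2 hQ0 (by linarith)
  have hPQ0 : 0 ≤ P * Q := mul_nonneg hP0 hQ0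
  have haP : (a : ℤ) * a ≤ P * P := mul_le_mul hp1 hp1 (by linarith) hP0
  have hRR : 5 * ((X : ℤ) + 2) ^ 2 * M ^ 2 = 5 * (R * R) := by
    rw [← hR]
    ring
  refine ⟨by linarith, hq1, hp2, hq2, ?_, ?_⟩
  · have hQQ0 : 0 ≤ Q * Q := mul_self_nonneg Q
    have h1 : P ^ 2 + 3 * P * Q + Q ^ 2 = P * P + 3 * (P * Q) + Q * Q := by ring
    have h2 : (a : ℤ) ^ 2 = a * a := sq _
    rw [h1, h2]
    linarith only [hPQ0, haP, hQQ0]
  · have h1 : P ^ 2 + 3 * P * Q + Q ^ 2 = P * P + 3 * (P * Q) + Q * Q := by ring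
    rw [hRR, h1]
    linarith only [hPP, hQQ, hPQ]

theorem cz_spec (a b : ℕ) (ha : 1 ≤ a) (hab : Nat.Coprime a b) : cz a b < a ∧ a ∣ 1 + b * cz a b := by
  have hex : ∃ c, c < a ∧ a ∣ 1 + b * c := by
    have ha0 : (a : ℤ) ≠ 0 := by
      have : 0 < a := ha
      exact_mod_cast this.ne'
    have hcop : IsCoprime (a : ℤ) (b : ℤ) := Nat.isCoprime_iff_coprime.2 hab
    obtain ⟨u, v, huv⟩ := hcop
    obtain ⟨c, hc⟩ : ∃ c : ℕ, (c : ℤ) = (-v) % a :=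
      ⟨((-v) % (a : ℤ)).toNat, Int.toNat_of_nonneg (Int.emod_nonneg _ ha0)⟩
    refine ⟨c, ?_, ?_⟩
    · have h1 : (c : ℤ) < a := by
        rw [hc]
        exact Int.emod_lt_of_pos _ (by exact_mod_cast ha)
      exact_mod_cast h1
    · have h2 : (a : ℤ) ∣ 1 + b * c := by
        rw [hc]
        have h3 : (-v) % (a : ℤ) = -v - a * ((-v) / a) := by
          have := Int.emod_add_mul_ediv (-v) (a : ℤ)
          linarith
        rw [h3]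
        refine ⟨u - b * ((-v) / a), ?_⟩
        linear_combination -huv
      exact_mod_cast h2
  unfold cz
  rw [dif_pos hex]
  exact hex.choose_spec

theorem zv_frame (a b c : ℕ) (ha : 1 ≤ a) (hd : a ∣ 1 + b * c) :
    TP ((a : ℤ), (b : ℤ)) ∧ TP ((c : ℤ), (((1 + b * c) / a : ℕ) : ℤ)) ∧
      dt ((a : ℤ), (b : ℤ)) ((c : ℤ), (((1 + b * c) / a : ℕ) : ℤ)) = 1 := by
  obtain ⟨e, he⟩ := hd
  have hdiv : (1 + b * c) / a = e := by
    rw [he]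
    exact Nat.mul_div_cancel_left e ha
  rw [hdiv]
  have he1 : 1 ≤ e := by
    rcases Nat.eq_zero_or_pos e with h | h
    · exfalso
      rw [h, Nat.mul_zero] at he
      omega
    · exact h
  have ha' : (1 : ℤ) ≤ a := by exact_mod_cast ha
  have he' : (1 : ℤ) ≤ e := by exact_mod_cast he1
  have hb0 : (0 : ℤ) ≤ b := Int.natCast_nonneg _
  have hc0 : (0 : ℤ) ≤ c := Int.natCast_nonneg _
  have heq : (1 : ℤ) + b * c = a * e := by exact_mod_cast he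
  refine ⟨TP_of_nonneg (by linarith) hb0 (by linarith),
    TP_of_nonneg hc0 (by linarith) (by linarith), ?_⟩
  show (a : ℤ) * e - c * b = 1
  linarith

theorem card_idx (X : ℕ) : (idx X).card ≤ 2 * (X + 1) := by
  unfold idx
  refine (card_filter_le _ _).trans ?_
  rw [card_product, card_range]
  have h1 : ({1, 2} : Finset ℕ).card = 2 := by decide
  rw [h1]

theorem mem_idx {X x y : ℕ} : (x, y) ∈ idx X ↔ (x = 1 ∨ x = 2) ∧ y ≤ X ∧ Nat.Coprime x y := by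
  unfold idx
  rw [mem_filter, mem_product, mem_range, mem_insert, mem_singleton, Nat.lt_succ_iff, and_assoc]

end Pool.Agent.Lib.MP_d57abb_nt.Ev
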