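import Mathlib
import Pool.Agent.Lib.MP_d57abb_nt.Ev.Defs2
import Pool.Agent.Lib.MP_d57abb_nt.Uniq
import Pool.Agent.Lib.MP_d57abb_nt.Plus

/-!
# JOB MulV: the frame is determined by the value

PROOF (adaptation of `AP/Mul.lean`, complete there).  `an (fv z₀ v x y)`, `an (fv z₀' v' x y) ∈ [0, 2 log al)` (`an_range`: first coordinate `≥ 1`, second `≥ 0`, as `x ≥ 1`), `an u₁' = an (fv ..) - an δ` etc. (`an_ml`), so `|an u₁' - an u₂'| < 2 log al` and `uniq` gives `u₁' = u₂'`; then `u₁'' = u₂''` (`snd_of_fst` in `Plus`).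
Hence `fv z₀ v x y = fv z₀' v' x y` and `fv z₀ v x' y' = fv z₀' v' x' y'`: with `p = z₀ - z₀'`, `q = v - v'`: `x p + y q = 0`, `x' p + y' q = 0`, so `(x y' - x' y) p = 0`, `(x y' - x' y) q = 0` and `x y' - x' y = d > 0`: `p = q = 0`.
-/

open Finset

namespace Pool.Agent.Lib.MP_d57abb_nt.Ev

open Pool.Agent.Lib.MP_d57abb_nt

private theorem MulV_an {z₀ v : ℤ × ℤ} {x y : ℕ} (hx : 1 ≤ x) (p1 : 1 ≤ z₀.1) (p2 : 0 ≤ z₀.2)
    (p3 : 0 ≤ v.1) (p4 : 0 ≤ v.2) : 0 ≤ an (fv z₀ v x y) ∧ an (fv z₀ v x y) < 2 * Real.log al := by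
  have hx' : (1 : ℤ) ≤ (x : ℤ) := by exact_mod_cast hx
  refine an_range ?_ ?_
  · unfold fv
    simp only [Prod.fst_add, Prod.smul_fst, smul_eq_mul]
    have h1 : 0 ≤ (y : ℤ) * v.1 := mul_nonneg (Int.natCast_nonneg _) p3
    have h2 : 1 ≤ (x : ℤ) * z₀.1 := by nlinarith
    linarith
  · unfold fv
    simp only [Prod.snd_add, Prod.smul_snd, smul_eq_mul]
    have h1 : 0 ≤ (y : ℤ) * v.2 := mul_nonneg (Int.natCast_nonneg _) p4
    have h2 : 0 ≤ (x : ℤ) * z₀.2 := mul_nonneg (Int.natCast_nonneg _) p2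
    linarith

theorem line_uniqueV {δ u₁' u₁'' u₂' u₂'' z₀ v z₀' v' : ℤ × ℤ} {x y x' y' d : ℕ} (hd : 0 < d) (hx : 1 ≤ x)
    (hdet : x * y' = x' * y + d) (hδ : TP δ)
    (h1 : TP u₁') (h2 : TP u₁'') (h3 : TP u₂') (h4 : TP u₂'') (e1 : dt u₁' u₁'' = 1) (e2 : dt u₂' u₂'' = 1)
    (hk : kk u₁' u₁'' = kk u₂' u₂'') (hn : nm u₁' = nm u₂')
    (a1 : ml δ u₁' = fv z₀ v x y) (a2 : ml δ u₁'' = fv z₀ v x' y')
    (b1 : ml δ u₂' = fv z₀' v' x y) (b2 : ml δ u₂'' = fv z₀' v' x' y')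
    (p1 : 1 ≤ z₀.1) (p2 : 0 ≤ z₀.2) (p3 : 0 ≤ v.1) (p4 : 0 ≤ v.2) (q1 : 1 ≤ z₀'.1) (q2 : 0 ≤ z₀'.2)
    (q3 : 0 ≤ v'.1) (q4 : 0 ≤ v'.2) : z₀ = z₀' ∧ v = v' := by
  have hr1 : 0 ≤ an (ml δ u₁') ∧ an (ml δ u₁') < 2 * Real.log al := by
    rw [a1]
    exact MulV_an hx p1 p2 p3 p4
  have hr2 : 0 ≤ an (ml δ u₂') ∧ an (ml δ u₂') < 2 * Real.log al := by
    rw [b1]
    exact MulV_an hx q1 q2 q3 q4
  rw [an_ml hδ h1] at hr1
  rw [an_ml hδ h3] at hr2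
  have hu1 : u₁' = u₂' := by
    refine uniq h1 h2 h3 h4 e1 e2 hk hn ?_
    rw [abs_lt]
    constructor
    · linarith [hr1.1, hr2.2]
    · linarith [hr1.2, hr2.1]
  subst hu1
  have hu2 : u₁'' = u₂'' := snd_of_fst h1 e1 e2 hk
  subst hu2
  have g1 : fv z₀ v x y = fv z₀' v' x y := by rw [← a1, ← b1]
  have g2 : fv z₀ v x' y' = fv z₀' v' x' y' := by rw [← a2, ← b2]
  have g11 := congrArg Prod.fst g1
  have g12 := congrArg Prod.snd g1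
  have g21 := congrArg Prod.fst g2
  have g22 := congrArg Prod.snd g2
  simp only [fv, Prod.fst_add, Prod.smul_fst, Prod.snd_add, Prod.smul_snd, smul_eq_mul] at g11 g12 g21 g22
  have hd' : (d : ℤ) ≠ 0 := by exact_mod_cast hd.ne'
  have hdet' : (x : ℤ) * y' = x' * y + d := by exact_mod_cast hdet
  have k1 : z₀.1 = z₀'.1 := by
    apply mul_left_cancel₀ hd'
    linear_combination y' * g11 - y * g21 - (z₀.1 - z₀'.1) * hdet'
  have k2 : z₀.2 = z₀'.2 := by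
    apply mul_left_cancel₀ hd'
    linear_combination y' * g12 - y * g22 - (z₀.2 - z₀'.2) * hdet'
  have k3 : v.1 = v'.1 := by
    apply mul_left_cancel₀ hd'
    linear_combination x * g21 - x' * g11 - (v.1 - v'.1) * hdet'
  have k4 : v.2 = v'.2 := by
    apply mul_left_cancel₀ hd'
    linear_combination x * g22 - x' * g12 - (v.2 - v'.2) * hdet'
  exact ⟨Prod.ext k1 k2, Prod.ext k3 k4⟩

end Pool.Agent.Lib.MP_d57abb_nt.Ev
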