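import Mathlib
import Pool.Agent.Lib.MP_d57abb_nt.Ev.Defs2

/-!
# JOB CntZ: primitive vectors in a residue class

PROOF.  The number of `a ∈ [1, A]` with `a ≡ 1 (mod G)` is `≥ A / G - 1`, similarly for `b ≡ B`; so there are at least `(A / G - 1)²` pairs.  If a pair is not coprime let `n = p` be a prime dividing both; `p ∤ G` (else `a ≡ 1 (mod p)`), so `p ≥ 5`, and `a` is in one residue class modulo `G p` (`a ≡ 1 (mod G)`, `a ≡ 0 (mod p)`),
so there are at most `A / (G p) + 1` such `a`, and the same for `b`; `p ≤ A`.  So the number of pairs which are not coprime is at most `∑_{5 ≤ n ≤ A} (A / (G n) + 1)² ≤ (A²/G²) ∑_{n ≥ 5} 1/n² + (2 A / G)(1 + log A) + A ≤ A² / (4 G²) + 2 A (1 + log A) + A`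
(`∑_{5 ≤ n ≤ A} 1/n² ≤ 1/4`, telescoping).  `(A/G - 1)² - A²/(4G²) - 2 A (1 + log A) - A ≥ A² / (4 G²)` for large `A`.
(It is enough to sum over all `n ∈ [5, A]` prime to `G`.)
-/

open Finset

namespace Pool.Agent.Lib.MP_d57abb_nt.Ev

private theorem CntZ_card (A r v : ℕ) (hr : 0 < r) :
    (A : ℝ) / r - 1 ≤ (((Icc 1 A).filter (fun a => a ≡ v [MOD r])).card : ℝ) ∧
      (((Icc 1 A).filter (fun a => a ≡ v [MOD r])).card : ℝ) ≤ (A : ℝ) / r + 1 := by
  have h0 : Icc 1 A = Ioc 0 A := by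
    ext x
    rw [Finset.mem_Icc, Finset.mem_Ioc]
    omega
  have h1 := Nat.Ioc_filter_modEq_card 0 A hr v
  rw [← h0] at h1
  generalize ((Icc 1 A).filter (fun a => a ≡ v [MOD r])).card = c at h1 ⊢
  have hr' : (0 : ℚ) < r := by exact_mod_cast hr
  have h2 : ((A : ℚ) - v) / r - (((0 : ℕ) : ℚ) - v) / r = (A : ℚ) / r := by
    field_simp
    push_cast
    ring
  have f1 := Int.floor_le (((A : ℚ) - v) / r)
  have f2 := Int.lt_floor_add_one (((A : ℚ) - v) / r)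
  have f3 := Int.floor_le ((((0 : ℕ) : ℚ) - v) / r)
  have f4 := Int.lt_floor_add_one ((((0 : ℕ) : ℚ) - v) / r)
  have hc : (c : ℚ) = max (((⌊((A : ℚ) - v) / r⌋ : ℤ) : ℚ) - ((⌊(((0 : ℕ) : ℚ) - v) / r⌋ : ℤ) : ℚ)) 0 := by
    have h3 : ((c : ℤ) : ℚ) = ((max (⌊((A : ℚ) - v) / r⌋ - ⌊(((0 : ℕ) : ℚ) - v) / r⌋) 0 : ℤ) : ℚ) := by
      rw [← h1]
    rw [Int.cast_natCast] at h3
    rw [h3, Int.cast_max, Int.cast_sub, Int.cast_zero]
  have hpos : (0 : ℚ) ≤ (A : ℚ) / r := by positivity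
  have hlo : (A : ℚ) / r - 1 ≤ (c : ℚ) := by
    rw [hc]
    refine le_trans ?_ (le_max_left _ _)
    linarith
  have hup : (c : ℚ) ≤ (A : ℚ) / r + 1 := by
    rw [hc]
    refine max_le ?_ ?_
    · linarith
    · linarith
  constructor
  · have h := (Rat.cast_le (K := ℝ)).2 hlo
    push_cast at h
    exact h
  · have h := (Rat.cast_le (K := ℝ)).2 hup
    push_cast at h
    exact h

private theorem CntZ_sq (A : ℕ) (hA : 4 ≤ A) :
    ∑ n ∈ Icc 5 A, 1 / (n : ℝ) ^ 2 ≤ 1 / 4 - 1 / (A : ℝ) := by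
  induction A, hA using Nat.le_induction with
  | base => simp
  | succ A hA ih =>
    rw [Finset.sum_Icc_succ_top (by omega)]
    have hA' : (0 : ℝ) < (A : ℝ) := by
      have : 0 < A := by omega
      exact_mod_cast this
    have h1 : 1 / ((A + 1 : ℕ) : ℝ) ^ 2 ≤ 1 / (A : ℝ) - 1 / ((A + 1 : ℕ) : ℝ) := by
      push_cast
      rw [div_sub_div _ _ hA'.ne' (by positivity), div_le_div_iff₀ (by positivity) (by positivity)]
      nlinarith
    linarith

/-- the pairs with a common divisor `n` -/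
private theorem CntZ_n (G B A n : ℕ) (hG : 0 < G) (hn : 0 < n) (hc : n.Coprime G) :
    ((((Icc 1 A) ×ˢ (Icc 1 A)).filter (fun z : ℕ × ℕ => (z.1 ≡ 1 [MOD G] ∧ n ∣ z.1) ∧
      (z.2 ≡ B [MOD G] ∧ n ∣ z.2))).card : ℝ) ≤ ((A : ℝ) / (G * n) + 1) ^ 2 := by
  have key : ∀ v : ℕ, (((Icc 1 A).filter (fun a => a ≡ v [MOD G] ∧ n ∣ a)).card : ℝ) ≤
      (A : ℝ) / (G * n) + 1 := by
    intro v
    obtain ⟨u, hu1, hu2⟩ := Nat.chineseRemainder hc.symm v 0
    have h1 : (Icc 1 A).filter (fun a => a ≡ v [MOD G] ∧ n ∣ a) =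
        (Icc 1 A).filter (fun a => a ≡ u [MOD G * n]) := by
      refine Finset.filter_congr fun a _ => ?_
      rw [← Nat.modEq_and_modEq_iff_modEq_mul hc.symm]
      constructor
      · rintro ⟨h2, h3⟩
        exact ⟨h2.trans hu1.symm, ((Nat.modEq_zero_iff_dvd.2 h3).trans hu2.symm)⟩
      · rintro ⟨h2, h3⟩
        exact ⟨h2.trans hu1, Nat.modEq_zero_iff_dvd.1 (h3.trans hu2)⟩
    rw [h1]
    have h2 := (CntZ_card A (G * n) u (Nat.mul_pos hG hn)).2
    rwa [Nat.cast_mul] at h2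
  rw [Finset.filter_product (fun a : ℕ => a ≡ 1 [MOD G] ∧ n ∣ a) (fun b : ℕ => b ≡ B [MOD G] ∧ n ∣ b),
    Finset.card_product, Nat.cast_mul, pow_two]
  exact mul_le_mul (key 1) (key B) (by positivity) (by positivity)

theorem cnt_coprime (G B : ℕ) (hG : 0 < G) (h2 : 2 ∣ G) (h3 : 3 ∣ G) : ∃ A₀ : ℕ, ∀ A : ℕ, A₀ ≤ A →
    (A : ℝ) ^ 2 / (4 * (G : ℝ) ^ 2) ≤
      (((Pc A).filter (fun z => z.1 ≡ 1 [MOD G] ∧ z.2 ≡ B [MOD G])).card : ℝ) := by
  classical
  refine ⟨14 * G ^ 2, fun A hA => ?_⟩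
  have hG' : (1 : ℝ) ≤ (G : ℝ) := by exact_mod_cast hG
  have hG0 : (0 : ℝ) < (G : ℝ) := by linarith
  have hA' : 14 * (G : ℝ) ^ 2 ≤ (A : ℝ) := by exact_mod_cast hA
  have hA4 : 4 ≤ A := by nlinarith
  have hA0 : (0 : ℝ) ≤ (A : ℝ) := by positivity
  set S : Finset (ℕ × ℕ) := ((Icc 1 A) ×ˢ (Icc 1 A)).filter
    (fun z => z.1 ≡ 1 [MOD G] ∧ z.2 ≡ B [MOD G]) with hS
  have hgood : (Pc A).filter (fun z => z.1 ≡ 1 [MOD G] ∧ z.2 ≡ B [MOD G]) =
      S.filter (fun z => Nat.Coprime z.1 z.2) := by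
    unfold Pc
    rw [hS, Finset.filter_filter, Finset.filter_filter]
    refine Finset.filter_congr fun z _ => ?_
    exact and_comm
  rw [hgood]
  have hsplit := Finset.card_filter_add_card_filter_not (s := S) (fun z : ℕ × ℕ => Nat.Coprime z.1 z.2)
  -- all the pairs
  have hall : ((A : ℝ) / G - 1) ^ 2 ≤ (S.card : ℝ) := by
    rw [hS, Finset.filter_product (fun a : ℕ => a ≡ 1 [MOD G]) (fun b : ℕ => b ≡ B [MOD G]),
      Finset.card_product, Nat.cast_mul, pow_two]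
    have h5 : 0 ≤ (A : ℝ) / G - 1 := by
      rw [sub_nonneg, le_div_iff₀ hG0]
      nlinarith
    exact mul_le_mul (CntZ_card A G 1 hG).1 (CntZ_card A G B hG).1 h5 (by positivity)
  -- the pairs which are not coprime
  have hbad : ((S.filter (fun z => ¬ Nat.Coprime z.1 z.2)).card : ℝ) ≤
      3 / 8 * ((A : ℝ) / G) ^ 2 + 3 * A := by
    have hsub : S.filter (fun z => ¬ Nat.Coprime z.1 z.2) ⊆
        ((Icc 5 A).filter (fun n => n.Coprime G)).biUnion (fun n =>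
          ((Icc 1 A) ×ˢ (Icc 1 A)).filter (fun z : ℕ × ℕ => (z.1 ≡ 1 [MOD G] ∧ n ∣ z.1) ∧
            (z.2 ≡ B [MOD G] ∧ n ∣ z.2))) := by
      intro z hz
      rw [hS, Finset.mem_filter, Finset.mem_filter, Finset.mem_product] at hz
      obtain ⟨⟨hz1, hz2, hz3⟩, hz4⟩ := hz
      obtain ⟨p, hp, hp1, hp2⟩ := Nat.Prime.not_coprime_iff_dvd.1 hz4
      have hpG : ¬ p ∣ G := by
        intro h
        have h4 : z.1 ≡ 1 [MOD p] := hz2.of_dvd h
        have h5 : 1 ≡ 0 [MOD p] := h4.symm.trans (Nat.modEq_zero_iff_dvd.2 hp1)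
        have h6 := Nat.modEq_zero_iff_dvd.1 h5
        exact hp.one_lt.ne' (Nat.dvd_one.1 h6)
      have hp5 : 5 ≤ p := by
        have h4 := hp.two_le
        by_contra h5
        push Not at h5
        interval_cases p
        · exact hpG h2
        · exact hpG h3
        · exact absurd hp (by norm_num)
      have hz1' := (Finset.mem_Icc.1 hz1.1)
      have hpA : p ≤ A := (Nat.le_of_dvd hz1'.1 hp1).trans hz1'.2
      rw [Finset.mem_biUnion]
      refine ⟨p, ?_, ?_⟩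
      · rw [Finset.mem_filter, Finset.mem_Icc]
        exact ⟨⟨hp5, hpA⟩, (Nat.Prime.coprime_iff_not_dvd hp).2 hpG⟩
      · rw [Finset.mem_filter, Finset.mem_product]
        exact ⟨hz1, ⟨hz2, hp1⟩, hz3, hp2⟩
    have h4 : ((S.filter (fun z => ¬ Nat.Coprime z.1 z.2)).card : ℝ) ≤
        ∑ n ∈ (Icc 5 A).filter (fun n => n.Coprime G), ((A : ℝ) / (G * n) + 1) ^ 2 := by
      refine le_trans (Nat.cast_le.2 ((Finset.card_le_card hsub).trans Finset.card_biUnion_le)) ?_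
      rw [Nat.cast_sum]
      refine Finset.sum_le_sum fun n hn => ?_
      rw [Finset.mem_filter, Finset.mem_Icc] at hn
      exact CntZ_n G B A n hG (by omega) hn.2
    refine h4.trans ?_
    have h5 : ∑ n ∈ (Icc 5 A).filter (fun n => n.Coprime G), ((A : ℝ) / (G * n) + 1) ^ 2 ≤
        ∑ n ∈ Icc 5 A, (3 / 2 * ((A : ℝ) / G) ^ 2 * (1 / (n : ℝ) ^ 2) + 3) := by
      refine le_trans (Finset.sum_le_sum_of_subset_of_nonneg (Finset.filter_subset _ _)
        fun _ _ _ => by positivity) (Finset.sum_le_sum fun n hn => ?_)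
      have hn0 : (0 : ℝ) < (n : ℝ) := by
        rw [Finset.mem_Icc] at hn
        have : 0 < n := by omega
        exact_mod_cast this
      have h6 : (A : ℝ) / (G * n) = (A : ℝ) / G * (1 / n) := by
        field_simp
      have h7 : 3 / 2 * ((A : ℝ) / G) ^ 2 * (1 / (n : ℝ) ^ 2) =
          3 / 2 * ((A : ℝ) / (G * n)) ^ 2 := by
        rw [h6]
        field_simp
      rw [h7]
      generalize (A : ℝ) / (G * n) = x
      nlinarith [sq_nonneg (x - 2)]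
    refine h5.trans ?_
    rw [Finset.sum_add_distrib, ← Finset.mul_sum, Finset.sum_const, nsmul_eq_mul, Nat.card_Icc]
    have h6 := CntZ_sq A hA4
    have h7 : ∑ n ∈ Icc 5 A, 1 / (n : ℝ) ^ 2 ≤ 1 / 4 := by
      have : (0 : ℝ) ≤ 1 / (A : ℝ) := by positivity
      linarith
    have h8 : ((A + 1 - 5 : ℕ) : ℝ) ≤ (A : ℝ) := by
      exact_mod_cast (by omega : A + 1 - 5 ≤ A)
    have h9 : 3 / 2 * ((A : ℝ) / G) ^ 2 * ∑ n ∈ Icc 5 A, 1 / (n : ℝ) ^ 2 ≤
        3 / 2 * ((A : ℝ) / G) ^ 2 * (1 / 4) :=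
      mul_le_mul_of_nonneg_left h7 (by positivity)
    linarith
  have hsplit' : ((S.filter (fun z => Nat.Coprime z.1 z.2)).card : ℝ) +
      ((S.filter (fun z => ¬ Nat.Coprime z.1 z.2)).card : ℝ) = (S.card : ℝ) := by
    exact_mod_cast hsplit
  have h10 : (A : ℝ) ^ 2 / (4 * (G : ℝ) ^ 2) = 1 / 4 * ((A : ℝ) / G) ^ 2 := by
    field_simp
  rw [h10]
  have h11 : (A : ℝ) / G ≤ A := div_le_self hA0 hG'
  have h12 : 14 * (A : ℝ) ≤ ((A : ℝ) / G) ^ 2 := by
    rw [div_pow, le_div_iff₀ (by positivity)]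
    nlinarith
  have h13 : ((A : ℝ) / G - 1) ^ 2 = ((A : ℝ) / G) ^ 2 - 2 * ((A : ℝ) / G) + 1 := by ring
  rw [h13] at hall
  linarith

end Pool.Agent.Lib.MP_d57abb_nt.Ev
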