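import Mathlib
import Pool.Agent.Lib.MP_d57abb_nt.Ev.Defs2

/-!
# JOB RSum: the sum of `rr d / d`

PROOF.  (1) `|∑_{e ≤ y} chi5 e / e| ≤ 1` (`y ≥ 0`): the partial sums `S n = ∑_{e ≤ n} chi5 e` are in `{0, 1, -1}` (induction, period `5`: `S n` depends on `n % 5`: `0, 1, 0, -1, 0`), and by Abel summation `∑_{e ≤ y} chi5 e / e = ∑_{n < y} S n (1/n - 1/(n+1)) + S y / y`.
(2) `∑_{d ≤ D} rr d / d = ∑_{d ≤ D} ∑_{e f = d} chi5 e / (e f) = ∑_{f ≤ D} (1/f) ∑_{e ≤ D / f} chi5 e / e ≤ ∑_{f ≤ D} 1 / f ≤ 1 + log D` (`Nat.sum_div_divisors`, `Finset.sum_sigma'`, `Nat.divisorsAntidiagonal`; `harmonic_le_one_add_log`).  The claim has the factor `2` to spare.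
-/

open Finset

namespace Pool.Agent.Lib.MP_d57abb_nt.Ev

private theorem RSum_S (n : ℕ) : ∑ e ∈ Icc 1 n, chi5 e =
    if n % 5 = 1 then 1 else if n % 5 = 3 then -1 else 0 := by
  induction n with
  | zero => simp
  | succ n ih =>
    rw [Finset.sum_Icc_succ_top (by omega), ih]
    unfold chi5
    split_ifs <;> first | omega | rfl

private theorem RSum_S_le (n : ℕ) : ∑ e ∈ Icc 1 n, chi5 e ≤ 1 := by
  rw [RSum_S]
  split_ifs <;> norm_num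

private theorem RSum_A (n : ℕ) : ∑ e ∈ Icc 1 n, (chi5 e : ℝ) / e ≤
    1 - 1 / ((n : ℝ) + 1) + ((∑ e ∈ Icc 1 n, chi5 e : ℤ) : ℝ) / ((n : ℝ) + 1) := by
  induction n with
  | zero => simp
  | succ n ih =>
    have hS := RSum_S_le (n + 1)
    rw [Finset.sum_Icc_succ_top (by omega)] at hS ⊢
    rw [Finset.sum_Icc_succ_top (by omega)]
    set S : ℤ := ∑ e ∈ Icc 1 n, chi5 e with hSdef
    have hS' : ((S : ℝ) + (chi5 (n + 1) : ℝ)) ≤ 1 := by exact_mod_cast hS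
    push_cast
    have hn : (0 : ℝ) ≤ n := Nat.cast_nonneg n
    have h1 : ((S : ℝ) + (chi5 (n + 1) : ℝ) - 1) / ((n : ℝ) + 1) ≤
        ((S : ℝ) + (chi5 (n + 1) : ℝ) - 1) / ((n : ℝ) + 1 + 1) := by
      rw [div_le_div_iff₀ (by positivity) (by positivity)]
      nlinarith
    have h2 : ((S : ℝ) + (chi5 (n + 1) : ℝ) - 1) / ((n : ℝ) + 1) =
        (S : ℝ) / ((n : ℝ) + 1) + (chi5 (n + 1) : ℝ) / ((n : ℝ) + 1) - 1 / ((n : ℝ) + 1) := by
      ring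
    have h3 : ((S : ℝ) + (chi5 (n + 1) : ℝ) - 1) / ((n : ℝ) + 1 + 1) =
        ((S : ℝ) + (chi5 (n + 1) : ℝ)) / ((n : ℝ) + 1 + 1) - 1 / ((n : ℝ) + 1 + 1) := by
      ring
    rw [h2, h3] at h1
    linarith

private theorem RSum_A_le (n : ℕ) : ∑ e ∈ Icc 1 n, (chi5 e : ℝ) / e ≤ 1 := by
  have h1 := RSum_A n
  have h2 : ((∑ e ∈ Icc 1 n, chi5 e : ℤ) : ℝ) ≤ 1 := by exact_mod_cast RSum_S_le n
  have hn : (0 : ℝ) ≤ n := Nat.cast_nonneg n
  have h3 : ((∑ e ∈ Icc 1 n, chi5 e : ℤ) : ℝ) / ((n : ℝ) + 1) ≤ 1 / ((n : ℝ) + 1) := by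
    gcongr
  linarith

private theorem RSum_swap (D : ℕ) : ∑ d ∈ Icc 1 D, (rr d : ℝ) / d =
    ∑ f ∈ Icc 1 D, (1 / (f : ℝ)) * ∑ e ∈ Icc 1 (D / f), (chi5 e : ℝ) / e := by
  have h1 : ∀ d ∈ Icc 1 D, (rr d : ℝ) / d =
      ∑ e ∈ d.divisors, (1 / ((d / e : ℕ) : ℝ)) * ((chi5 e : ℝ) / e) := by
    intro d hd
    have hd1 : 1 ≤ d := (Finset.mem_Icc.mp hd).1
    unfold rr
    push_cast
    rw [Finset.sum_div]
    apply Finset.sum_congr rfl
    intro e he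
    obtain ⟨f, hf⟩ := (Nat.mem_divisors.mp he).1
    have he0 : 0 < e := Nat.pos_of_mem_divisors he
    have hf0 : 0 < f := by
      rcases Nat.eq_zero_or_pos f with h | h
      · subst h
        omega
      · exact h
    rw [hf, Nat.mul_div_cancel_left f he0]
    push_cast
    field_simp
  rw [Finset.sum_congr rfl h1, Finset.sum_sigma']
  simp_rw [Finset.mul_sum]
  rw [Finset.sum_sigma']
  refine Finset.sum_nbij' (fun x => ⟨x.1 / x.2, x.2⟩) (fun y => ⟨y.1 * y.2, y.2⟩) ?_ ?_ ?_ ?_ ?_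
  · rintro ⟨d, e⟩ hx
    simp only [Finset.mem_sigma, Finset.mem_Icc, Nat.mem_divisors] at hx ⊢
    obtain ⟨⟨hd1, hdD⟩, ⟨f, rfl⟩, hd0⟩ := hx
    have he0 : 0 < e := by
      rcases Nat.eq_zero_or_pos e with h | h
      · subst h
        omega
      · exact h
    have hf0 : 0 < f := by
      rcases Nat.eq_zero_or_pos f with h | h
      · subst h
        omega
      · exact h
    rw [Nat.mul_div_cancel_left f he0]
    refine ⟨⟨hf0, ?_⟩, he0, ?_⟩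
    · exact le_trans (Nat.le_mul_of_pos_left f he0) hdD
    · rw [Nat.le_div_iff_mul_le hf0]
      exact hdD
  · rintro ⟨f, e⟩ hx
    simp only [Finset.mem_sigma, Finset.mem_Icc, Nat.mem_divisors] at hx ⊢
    obtain ⟨⟨hf1, hfD⟩, he1, heD⟩ := hx
    have h2 : e * f ≤ D := (Nat.le_div_iff_mul_le hf1).mp heD
    refine ⟨⟨Nat.mul_pos hf1 he1, ?_⟩, Dvd.intro_left f rfl, (Nat.mul_pos hf1 he1).ne'⟩
    rw [mul_comm]
    exact h2
  · rintro ⟨d, e⟩ hx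
    simp only [Finset.mem_sigma, Finset.mem_Icc, Nat.mem_divisors] at hx
    have h3 : d / e * e = d := Nat.div_mul_cancel hx.2.1
    simp only [h3]
  · rintro ⟨f, e⟩ hx
    simp only [Finset.mem_sigma, Finset.mem_Icc] at hx
    have h3 : f * e / e = f := Nat.mul_div_cancel f (by omega)
    simp only [h3]
  · rintro ⟨d, e⟩ _
    rfl

theorem rr_sum (D : ℕ) (hD : 1 ≤ D) : ∑ d ∈ Icc 1 D, (rr d : ℝ) / d ≤ 2 * (1 + Real.log D) := by
  rw [RSum_swap]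
  have h1 : ∑ f ∈ Icc 1 D, (1 / (f : ℝ)) * ∑ e ∈ Icc 1 (D / f), (chi5 e : ℝ) / e ≤
      ∑ f ∈ Icc 1 D, (f : ℝ)⁻¹ := by
    apply Finset.sum_le_sum
    intro f _
    rw [one_div]
    have h2 := RSum_A_le (D / f)
    have h3 : (0 : ℝ) ≤ (f : ℝ)⁻¹ := by positivity
    nlinarith
  have h4 : ∑ f ∈ Icc 1 D, (f : ℝ)⁻¹ ≤ 1 + Real.log D := by
    have h5 := harmonic_le_one_add_log D
    rw [harmonic_eq_sum_Icc] at h5
    push_cast at h5
    exact h5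
  have h6 : 0 ≤ Real.log D := Real.log_nonneg (by exact_mod_cast hD)
  linarith

end Pool.Agent.Lib.MP_d57abb_nt.Ev
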