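import Mathlib
import Pool.Agent.Lib.MP_d57abb_nt.Ev.Defs2

/-!
# JOB RootA: the number of roots modulo `d`

PROOF of `rr_nonneg`.  `chi5` is completely multiplicative (`chi5 (a b) = chi5 a * chi5 b`), so `rr` is
multiplicative on coprime numbers, and `rr (p^k) = ∑_{i ≤ k} (chi5 p)^i ≥ 0` for `chi5 p ∈ {0, 1, -1}`.
PROOF of `rts_le`.  If there is no root, use `rr_nonneg`.  Let `k₀` be a root.  (1) A prime `p ∣ d` is `5` or
`≡ ± 1 (mod 5)` (quadratic reciprocity), and `25 ∤ d`.  (2) The map `k ↦ gcd (k - k₀, d)` from the roots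
`k < d` to the divisors of `d` is injective.  (3) For `e ∣ d`: `chi5 e = 0` if `5 ∣ e` and `1` otherwise.
So `rr d` is the number of the divisors prime to `5`, and `|divisors d| ≤ 2 rr d`.
-/

open Finset

namespace Pool.Agent.Lib.MP_d57abb_nt.Ev

theorem chi5_mul (a b : ℕ) : chi5 (a * b) = chi5 a * chi5 b := by
  unfold chi5
  rw [Nat.mul_mod]
  have ha : a % 5 < 5 := Nat.mod_lt _ (by norm_num)
  have hb : b % 5 < 5 := Nat.mod_lt _ (by norm_num)
  generalize a % 5 = x at *
  generalize b % 5 = y at *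
  interval_cases x <;> interval_cases y <;> simp

private theorem RootA_one : chi5 1 = 1 := by
  simp [chi5]

private theorem RootA_pow (p k : ℕ) : chi5 (p ^ k) = chi5 p ^ k := by
  induction k with
  | zero => simp [RootA_one]
  | succ k ih => rw [pow_succ, chi5_mul, ih, pow_succ]

private theorem RootA_val (p : ℕ) : chi5 p = 0 ∨ chi5 p = 1 ∨ chi5 p = -1 := by
  unfold chi5
  split_ifs <;> simp

private theorem RootA_geo (k : ℕ) : 0 ≤ ∑ i ∈ range (k + 1), (-1 : ℤ) ^ i := by
  have h : ∀ k : ℕ, ∑ i ∈ range (k + 1), (-1 : ℤ) ^ i = if k % 2 = 0 then 1 else 0 := by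
    intro k
    induction k with
    | zero => simp
    | succ k ih =>
      rw [Finset.sum_range_succ, ih]
      rcases Nat.even_or_odd k with hk | hk
      · have h1 : k % 2 = 0 := Nat.even_iff.1 hk
        have h2 : (k + 1) % 2 ≠ 0 := by omega
        rw [if_pos h1, if_neg h2, Odd.neg_one_pow hk.add_one]
        norm_num
      · have h1 : k % 2 ≠ 0 := by
          have := Nat.odd_iff.1 hk
          omega
        have h2 : (k + 1) % 2 = 0 := by omega
        rw [if_neg h1, if_pos h2, Even.neg_one_pow hk.add_one]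
        norm_num
  rw [h]
  split_ifs <;> norm_num

private theorem RootA_prime_pow {p : ℕ} (k : ℕ) (hp : p.Prime) : 0 ≤ rr (p ^ k) := by
  unfold rr
  rw [Nat.sum_divisors_prime_pow hp]
  simp only [RootA_pow]
  rcases RootA_val p with h | h | h
  · rw [h]
    exact Finset.sum_nonneg (fun i _ => by positivity)
  · rw [h]
    exact Finset.sum_nonneg (fun i _ => by positivity)
  · rw [h]
    exact RootA_geo k

/-- `chi5` as an arithmetic function -/
private def RootA_f : ArithmeticFunction ℤ := ⟨chi5, by simp [chi5]⟩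

private theorem RootA_f_apply (n : ℕ) : RootA_f n = chi5 n := rfl

private theorem RootA_f_mul : RootA_f.IsMultiplicative := by
  refine ⟨?_, ?_⟩
  · rw [RootA_f_apply, RootA_one]
  · intro m n _
    rw [RootA_f_apply, RootA_f_apply, RootA_f_apply, chi5_mul]

private theorem RootA_rr (d : ℕ) :
    rr d = (((ArithmeticFunction.zeta : ArithmeticFunction ℕ) : ArithmeticFunction ℤ) * RootA_f) d := by
  rw [ArithmeticFunction.coe_zeta_mul_apply]
  rfl

private theorem RootA_coprime {a b : ℕ} (h : a.Coprime b) : rr (a * b) = rr a * rr b := by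
  rw [RootA_rr, RootA_rr, RootA_rr]
  exact (ArithmeticFunction.isMultiplicative_zeta.natCast.mul RootA_f_mul).map_mul_of_coprime h

theorem rr_nonneg (d : ℕ) : 0 ≤ rr d := by
  induction d using Nat.recOnPosPrimePosCoprime with
  | prime_pow p k hp _ => exact RootA_prime_pow k hp
  | zero => simp [rr]
  | one => simp [rr, RootA_one]
  | coprime a b _ _ hab ha hb =>
    rw [RootA_coprime hab]
    exact mul_nonneg ha hb

/-- a product of primes with character value `1` -/
private theorem RootA_chi_one : ∀ e : ℕ, e ≠ 0 → (∀ p : ℕ, p.Prime → p ∣ e → chi5 p = 1) → chi5 e = 1 := by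
  intro e
  induction e using Nat.strong_induction_on with
  | _ e ih =>
    intro he hp
    rcases eq_or_ne e 1 with h1 | h1
    · rw [h1, RootA_one]
    · have hm : e.minFac.Prime := Nat.minFac_prime h1
      obtain ⟨f, hf⟩ := Nat.minFac_dvd e
      have hf0 : f ≠ 0 := by
        rintro rfl
        exact he (by rw [hf, mul_zero])
      have hlt : f < e := by
        calc f < e.minFac * f := by
              have := hm.two_le
              have : 0 < f := Nat.pos_of_ne_zero hf0
              nlinarith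
          _ = e := hf.symm
      rw [hf, chi5_mul, hp _ hm (Nat.minFac_dvd e), ih f hlt hf0, mul_one]
      intro p hpp hpf
      exact hp p hpp (hpf.trans (by rw [hf]; exact dvd_mul_left _ _))

private theorem RootA_sq2 : ¬ IsSquare (((2 : ℕ) : ZMod 5)) := by decide

private theorem RootA_sq3 : ¬ IsSquare (((3 : ℕ) : ZMod 5)) := by decide

/-- a prime dividing a value of the form has character value `1` or is `5` -/
private theorem RootA_prime {p k : ℕ} (hp : p.Prime) (hk : p ∣ k ^ 2 + 3 * k + 1) : p = 5 ∨ chi5 p = 1 := by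
  rcases eq_or_ne p 5 with h5 | h5
  · exact Or.inl h5
  · right
    have hp2 : p ≠ 2 := by
      rintro rfl
      have h2 : (k ^ 2 + 3 * k + 1) % 2 = 0 := Nat.mod_eq_zero_of_dvd hk
      have h3 : (k ^ 2 + 3 * k + 1) % 2 = 1 := by
        rcases Nat.mod_two_eq_zero_or_one k with h | h <;>
          simp [Nat.add_mod, Nat.mul_mod, Nat.pow_mod, h]
      omega
    have : Fact p.Prime := ⟨hp⟩
    have : Fact (Nat.Prime 5) := ⟨Nat.prime_five⟩
    have h1 : IsSquare ((5 : ℕ) : ZMod p) := by
      rw [← ZMod.natCast_eq_zero_iff] at hk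
      push_cast at hk
      refine ⟨2 * (k : ZMod p) + 3, ?_⟩
      push_cast
      linear_combination (-4 : ZMod p) * hk
    have h2 : IsSquare ((p : ℕ) : ZMod 5) :=
      (ZMod.exists_sq_eq_prime_iff_of_mod_four_eq_one (p := 5) (q := p) (by norm_num) hp2).2 h1
    have h3 : p % 5 = 0 ∨ p % 5 = 1 ∨ p % 5 = 4 := by
      rw [← ZMod.natCast_mod] at h2
      have hlt : p % 5 < 5 := Nat.mod_lt _ (by norm_num)
      have h22 := RootA_sq2
      have h33 := RootA_sq3
      generalize p % 5 = x at h2 hlt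
      interval_cases x
      · simp
      · simp
      · exact absurd h2 h22
      · exact absurd h2 h33
      · simp
    have h4 : p % 5 ≠ 0 := by
      intro h
      have := (Nat.prime_dvd_prime_iff_eq Nat.prime_five hp).1 (Nat.dvd_of_mod_eq_zero h)
      exact h5 this.symm
    unfold chi5
    rw [if_pos]
    omega

private theorem RootA_25 {k : ℕ} (hk : 25 ∣ k ^ 2 + 3 * k + 1) : False := by
  have h1 : (k ^ 2 + 3 * k + 1) % 25 = 0 := Nat.mod_eq_zero_of_dvd hk
  have h2 : (k ^ 2 + 3 * k + 1) % 25 = (((k % 25) ^ 2 + 3 * (k % 25) + 1) % 25) := by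
    simp [Nat.add_mod, Nat.mul_mod, Nat.pow_mod]
  rw [h2] at h1
  have hlt : k % 25 < 25 := Nat.mod_lt _ (by norm_num)
  generalize k % 25 = x at h1 hlt
  interval_cases x <;> omega

/-- the roots are injected into the divisors -/
private theorem RootA_inj {d k₀ : ℕ} (hd : 0 < d) (h0 : d ∣ k₀ ^ 2 + 3 * k₀ + 1) :
    rts d ≤ d.divisors.card := by
  unfold rts
  refine Finset.card_le_card_of_injOn (fun k => Int.gcd ((k : ℤ) - k₀) (d : ℤ)) ?_ ?_
  · intro k _
    simp only [Finset.mem_coe, Nat.mem_divisors]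
    refine ⟨?_, hd.ne'⟩
    have := Int.gcd_dvd_right ((k : ℤ) - k₀) (d : ℤ)
    exact_mod_cast this
  · intro k hk l hl hkl
    simp only [Finset.coe_filter, Finset.mem_range, Set.mem_ofPred_eq] at hk hl
    simp only at hkl
    have hdz : (d : ℤ) ∣ (k₀ : ℤ) ^ 2 + 3 * k₀ + 1 := by exact_mod_cast h0
    have hdk : (d : ℤ) ∣ (k : ℤ) ^ 2 + 3 * k + 1 := by exact_mod_cast hk.2
    have hdl : (d : ℤ) ∣ (l : ℤ) ^ 2 + 3 * l + 1 := by exact_mod_cast hl.2
    set e : ℕ := Int.gcd ((k : ℤ) - k₀) (d : ℤ) with he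
    have he0 : 0 < e := Int.gcd_pos_of_ne_zero_right _ (by exact_mod_cast hd.ne')
    have hed : e ∣ d := Int.natCast_dvd_natCast.1 (Int.gcd_dvd_right ((k : ℤ) - k₀) (d : ℤ))
    obtain ⟨f, hf⟩ := hed
    have hek : (e : ℤ) ∣ (k : ℤ) - k₀ := Int.gcd_dvd_left _ _
    have hel : (e : ℤ) ∣ (l : ℤ) - k₀ := by
      rw [hkl]
      exact Int.gcd_dvd_left _ _
    -- the complementary divisor
    have key : ∀ m : ℕ, (d : ℤ) ∣ (m : ℤ) ^ 2 + 3 * m + 1 → e = Int.gcd ((m : ℤ) - k₀) (d : ℤ) →
        (f : ℤ) ∣ (m : ℤ) + k₀ + 3 := by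
      intro m hm hem
      have h1 : (d : ℤ) ∣ ((m : ℤ) - k₀) * ((m : ℤ) + k₀ + 3) := by
        have := dvd_sub hm hdz
        have h2 : ((m : ℤ) - k₀) * ((m : ℤ) + k₀ + 3) =
            ((m : ℤ) ^ 2 + 3 * m + 1) - ((k₀ : ℤ) ^ 2 + 3 * k₀ + 1) := by ring
        rw [h2]
        exact this
      obtain ⟨g, hg⟩ : (e : ℤ) ∣ (m : ℤ) - k₀ := by
        rw [hem]
        exact Int.gcd_dvd_left _ _
      have hcop : IsCoprime (f : ℤ) g := by
        rw [Int.isCoprime_iff_gcd_eq_one]
        have h3 : Int.gcd ((e : ℤ) * g) ((e : ℤ) * f) = e * Int.gcd g (f : ℤ) := by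
          rw [Int.gcd_mul_left]
          simp
        have h4 : e = e * Int.gcd g (f : ℤ) := by
          rw [← h3, ← hg]
          have : ((e : ℤ) * f) = (d : ℤ) := by
            rw [hf]
            push_cast
            ring
          rw [this]
          exact hem
        have h5 : Int.gcd g (f : ℤ) = 1 := by
          have h6 : e * Int.gcd g (f : ℤ) = e * 1 := by rw [← h4, mul_one]
          exact Nat.eq_of_mul_eq_mul_left he0 h6
        rw [Int.gcd_comm]
        exact h5
      have h5 : (f : ℤ) ∣ g * ((m : ℤ) + k₀ + 3) := by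
        have h6 : (e : ℤ) * f ∣ (e : ℤ) * (g * ((m : ℤ) + k₀ + 3)) := by
          have h7 : (e : ℤ) * (g * ((m : ℤ) + k₀ + 3)) = ((m : ℤ) - k₀) * ((m : ℤ) + k₀ + 3) := by
            rw [hg]
            ring
          rw [h7]
          have h8 : (e : ℤ) * f = (d : ℤ) := by
            rw [hf]
            push_cast
            ring
          rw [h8]
          exact h1
        exact (mul_dvd_mul_iff_left (by exact_mod_cast he0.ne')).1 h6
      exact hcop.dvd_of_dvd_mul_left h5
    have hfk := key k hdk he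
    have hfl := key l hdl hkl
    have he1 : (e : ℤ) ∣ (k : ℤ) - l := by
      have := dvd_sub hek hel
      have h2 : (k : ℤ) - k₀ - ((l : ℤ) - k₀) = (k : ℤ) - l := by ring
      rwa [h2] at this
    have hf1 : (f : ℤ) ∣ (k : ℤ) - l := by
      have := dvd_sub hfk hfl
      have h2 : (k : ℤ) + k₀ + 3 - ((l : ℤ) + k₀ + 3) = (k : ℤ) - l := by ring
      rwa [h2] at this
    have hcop : IsCoprime (e : ℤ) (f : ℤ) := by
      rw [Nat.isCoprime_iff_coprime]
      by_contra hc
      obtain ⟨p, hp, hpe, hpf⟩ := Nat.Prime.not_coprime_iff_dvd.1 hc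
      have hpe' : (p : ℤ) ∣ (k : ℤ) - k₀ := (Int.natCast_dvd_natCast.2 hpe).trans hek
      have hpf' : (p : ℤ) ∣ (k : ℤ) + k₀ + 3 := (Int.natCast_dvd_natCast.2 hpf).trans hfk
      have h3 : (p : ℤ) ∣ 2 * (k₀ : ℤ) + 3 := by
        have := dvd_sub hpf' hpe'
        have h2 : (k : ℤ) + k₀ + 3 - ((k : ℤ) - k₀) = 2 * (k₀ : ℤ) + 3 := by ring
        rwa [h2] at this
      have hpd : (p : ℤ) ∣ (k₀ : ℤ) ^ 2 + 3 * k₀ + 1 := by
        refine dvd_trans ?_ hdz
        rw [hf]
        exact_mod_cast hpe.mul_right f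
      have h5 : (p : ℤ) ∣ 5 := by
        have h6 : (5 : ℤ) = (2 * (k₀ : ℤ) + 3) * (2 * (k₀ : ℤ) + 3) - 4 * ((k₀ : ℤ) ^ 2 + 3 * k₀ + 1) := by
          ring
        rw [h6]
        exact dvd_sub (h3.mul_left _) (hpd.mul_left _)
      have h6 : p ∣ 5 := by exact_mod_cast h5
      have h7 : p = 5 := (Nat.prime_dvd_prime_iff_eq hp Nat.prime_five).1 h6
      subst h7
      have h8 : 25 ∣ d := by
        rw [hf]
        exact mul_dvd_mul hpe hpf
      exact RootA_25 (h8.trans h0)
    have h9 : (d : ℤ) ∣ (k : ℤ) - l := by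
      rw [hf]
      push_cast
      exact hcop.mul_dvd he1 hf1
    have h10 : (k : ℤ) - l = 0 := by
      refine Int.eq_zero_of_abs_lt_dvd h9 ?_
      rw [abs_lt]
      constructor <;> · have := hk.1; have := hl.1; omega
    omega

theorem rts_le (d : ℕ) (hd : 0 < d) : (rts d : ℤ) ≤ 2 * rr d := by
  by_cases hr : ∃ k₀ : ℕ, d ∣ k₀ ^ 2 + 3 * k₀ + 1
  · obtain ⟨k₀, h0⟩ := hr
    have h1 := RootA_inj hd h0
    have h2 : rr d = ((d.divisors.filter (fun e => ¬ 5 ∣ e)).card : ℤ) := by
      unfold rr
      rw [Finset.card_filter]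
      push_cast
      refine Finset.sum_congr rfl (fun e he => ?_)
      rw [Nat.mem_divisors] at he
      by_cases h5 : 5 ∣ e
      · rw [if_neg (by simpa using h5)]
        unfold chi5
        have : e % 5 = 0 := Nat.mod_eq_zero_of_dvd h5
        simp [this]
      · rw [if_pos h5]
        refine RootA_chi_one e ?_ ?_
        · rintro rfl
          exact h5 (dvd_zero 5)
        · intro p hp hpe
          rcases RootA_prime hp ((hpe.trans he.1).trans h0) with h | h
          · subst h
            exact absurd hpe h5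
          · exact h
    have h3 : (d.divisors.filter (fun e => 5 ∣ e)).card ≤ (d.divisors.filter (fun e => ¬ 5 ∣ e)).card := by
      refine Finset.card_le_card_of_injOn (fun e => e / 5) ?_ ?_
      · intro e he
        simp only [Finset.coe_filter, Nat.mem_divisors, Set.mem_ofPred_eq] at he
        obtain ⟨⟨hed, hd0⟩, g, hg⟩ := he
        simp only [Finset.coe_filter, Nat.mem_divisors, Set.mem_ofPred_eq]
        have hge : e / 5 = g := by
          rw [hg]
          exact Nat.mul_div_cancel_left g (by norm_num)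
        rw [hge]
        refine ⟨⟨(Dvd.intro_left 5 hg.symm).trans hed, hd0⟩, ?_⟩
        rintro ⟨h, hh⟩
        refine RootA_25 (k := k₀) (dvd_trans ?_ h0)
        refine dvd_trans ?_ hed
        rw [hg, hh]
        exact ⟨h, by ring⟩
      · intro e he f hf hef
        simp only [Finset.coe_filter, Nat.mem_divisors, Set.mem_ofPred_eq] at he hf
        simp only at hef
        have := he.2
        have := hf.2
        omega
    have h4 := Finset.card_filter_add_card_filter_not (s := d.divisors) (fun e => 5 ∣ e)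
    rw [h2]
    have h5 : rts d ≤ 2 * (d.divisors.filter (fun e => ¬ 5 ∣ e)).card := by omega
    exact_mod_cast h5
  · have h1 : rts d = 0 := by
      unfold rts
      rw [Finset.card_eq_zero, Finset.filter_eq_empty_iff]
      intro k _ hk
      exact hr ⟨k, hk⟩
    rw [h1]
    have := rr_nonneg d
    push_cast
    linarith

end Pool.Agent.Lib.MP_d57abb_nt.Ev
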