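import Mathlib
import Pool.Agent.Lib.MP_d57abb_nt.Ev.RootA
import Pool.Agent.Lib.MP_d57abb_nt.Ev.RSum

/-!
# JOB TauS: the mean value of the number of divisors of the norms

PROOF of `card_dvd`.  If `z = (x, y) ∈ Pc Q` and `d ∣ x² + 3 x y + y²` then `x` is prime to `d` (a common prime divides `y²`).  For fixed `x` prime to `d` choose `x'` with `x x' ≡ 1 (mod d)`: `k = x' y % d` is a root of `k² + 3 k + 1` modulo `d`
(`x'² (x² + 3 x y + y²)`), and `y ≡ x k (mod d)`.  So the number of the `y ∈ [1, Q]` is at most `rts d (Q / d + 1)` (at most `Q / d + 1` elements of `[1, Q]` in a residue class; real division).  Sum over `x ≤ Q`: at most `Q rts d (Q / d + 1) ≤ 4 Q² rts d / d`, as `d ≤ 3 Q`.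
PROOF of `tau_sum`.  For `n = nmN z ≤ 5 Q²`: `|divisors n| ≤ 2 |{d ∣ n : d² ≤ n}| ≤ 2 |{d ≤ 3 Q : d ∣ n}|` (`d ↦ n / d` maps the other divisors injectively to those with `d² ≤ n`).  So the sum is at most `2 ∑_{d ≤ 3 Q} |{z ∈ Pc Q : d ∣ nmN z}| ≤ 8 Q² ∑_{d ≤ 3Q} rts d / d ≤ 16 Q² ∑ rr d / d ≤
32 Q² (1 + log (3 Q))` by `rts_le`, `rr_sum`.
-/

open Finset

namespace Pool.Agent.Lib.MP_d57abb_nt.Ev

private theorem TauS_inv {x d : ℕ} (h : Nat.Coprime x d) : ∃ x', x * x' ≡ 1 [MOD d] := by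
  rcases Nat.lt_or_ge 1 d with h1 | h1
  · obtain ⟨m, hm⟩ := Nat.exists_mul_mod_eq_one_of_coprime h h1
    refine ⟨m, ?_⟩
    rw [Nat.ModEq, hm.2, Nat.mod_eq_of_lt h1]
  · have h2 : d = 0 ∨ d = 1 := by omega
    rcases h2 with rfl | rfl
    · have h3 : x = 1 := by simpa using h
      exact ⟨1, by rw [h3]⟩
    · exact ⟨0, Nat.modEq_one⟩

private theorem TauS_fib (Q d x : ℕ) (hd : 0 < d) :
    ((Icc 1 Q).filter (fun y => Nat.Coprime x y ∧ d ∣ nmN (x, y))).card ≤ rts d * (Q / d + 1) := by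
  rcases ((Icc 1 Q).filter (fun y => Nat.Coprime x y ∧ d ∣ nmN (x, y))).eq_empty_or_nonempty with h | h
  · rw [h, Finset.card_empty]
    exact Nat.zero_le _
  · obtain ⟨y0, hy0⟩ := h
    obtain ⟨-, hc0, hd0⟩ := Finset.mem_filter.1 hy0
    have hxd : Nat.Coprime x d := by
      rw [Nat.coprime_iff_gcd_eq_one]
      by_contra hne
      obtain ⟨p, hp, hpg⟩ := Nat.exists_prime_and_dvd hne
      have h1 : p ∣ x := hpg.trans (Nat.gcd_dvd_left x d)
      have h2 : p ∣ d := hpg.trans (Nat.gcd_dvd_right x d)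
      have h3 : p ∣ x ^ 2 + 3 * x * y0 + y0 ^ 2 := h2.trans hd0
      have h4 : p ∣ x ^ 2 + 3 * x * y0 := by
        have h5 : x ^ 2 + 3 * x * y0 = x * (x + 3 * y0) := by ring
        rw [h5]
        exact Dvd.dvd.mul_right h1 _
      have h6 : p ∣ y0 ^ 2 := (Nat.dvd_add_right h4).1 h3
      have h7 : p ∣ y0 := hp.dvd_of_dvd_pow h6
      exact Nat.not_coprime_of_dvd_of_dvd hp.one_lt h1 h7 hc0
    obtain ⟨x', hx'⟩ := TauS_inv hxd
    have hcard : rts d * (Q / d + 1) =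
        (((range d).filter (fun k => d ∣ k ^ 2 + 3 * k + 1)) ×ˢ (range (Q / d + 1))).card := by
      rw [Finset.card_product, Finset.card_range]
      rfl
    rw [hcard]
    refine Finset.card_le_card_of_injOn (fun y => (x' * y % d, y / d)) ?_ ?_
    · intro y hy
      obtain ⟨hyQ, -, hyd⟩ := Finset.mem_filter.1 (Finset.mem_coe.1 hy)
      rw [Finset.mem_Icc] at hyQ
      refine Finset.mem_coe.2 (Finset.mem_product.2 ⟨Finset.mem_filter.2 ⟨Finset.mem_range.2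
        (Nat.mod_lt _ hd), ?_⟩, Finset.mem_range.2 (Nat.lt_succ_of_le (Nat.div_le_div_right hyQ.2))⟩)
      show d ∣ (x' * y % d) ^ 2 + 3 * (x' * y % d) + 1
      have hk : x' * y % d ≡ x' * y [MOD d] := Nat.mod_modEq _ _
      have h1 : (x' * y % d) ^ 2 + 3 * (x' * y % d) + 1 ≡
          (x' * y) ^ 2 + 3 * (x' * y) * (x * x') + (x * x') ^ 2 [MOD d] := by
        refine Nat.ModEq.add (Nat.ModEq.add (hk.pow 2) ?_) ?_
        · have h2 := (hk.mul_left 3).mul hx'.symm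
          rwa [mul_one] at h2
        · have h2 := hx'.symm.pow 2
          rwa [one_pow] at h2
      have h3 : (x' * y) ^ 2 + 3 * (x' * y) * (x * x') + (x * x') ^ 2 = x' ^ 2 * nmN (x, y) := by
        unfold nmN
        ring
      rw [h3] at h1
      exact (h1.dvd_iff (dvd_refl d)).2 (Dvd.dvd.mul_left hyd _)
    · intro y hy z hz he
      obtain ⟨e1, e2⟩ := Prod.mk.inj he
      have key : ∀ w : ℕ, w % d = (x * (x' * w % d)) % d := by
        intro w
        have h1 : x * (x' * w % d) ≡ x * (x' * w) [MOD d] := (Nat.mod_modEq _ _).mul_left x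
        have h2 : x * (x' * w) ≡ w [MOD d] := by
          have h3 := hx'.mul_right w
          rw [one_mul, mul_assoc] at h3
          exact h3
        exact (h1.trans h2).symm
      have h4 : y % d = z % d := by
        rw [key y, key z, e1]
      rw [← Nat.div_add_mod y d, ← Nat.div_add_mod z d, e2, h4]

theorem card_dvd (Q d : ℕ) (hd : 0 < d) (hdQ : d ≤ 3 * Q) :
    (((Pc Q).filter (fun z => d ∣ nmN z)).card : ℝ) ≤ 4 * (Q : ℝ) ^ 2 * rts d / d := by
  have h1 : ((Pc Q).filter (fun z => d ∣ nmN z)).card ≤ Q * (rts d * (Q / d + 1)) := by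
    have h2 : ((Pc Q).filter (fun z => d ∣ nmN z)).card ≤
        ((Icc 1 Q).sigma (fun x => (Icc 1 Q).filter (fun y => Nat.Coprime x y ∧ d ∣ nmN (x, y)))).card := by
      refine Finset.card_le_card_of_injOn (fun z => (⟨z.1, z.2⟩ : Σ _ : ℕ, ℕ)) ?_ ?_
      · intro z hz
        obtain ⟨hz1, hz2⟩ := Finset.mem_filter.1 (Finset.mem_coe.1 hz)
        obtain ⟨hz3, hz4⟩ := Finset.mem_filter.1 hz1
        obtain ⟨hz5, hz6⟩ := Finset.mem_product.1 hz3
        exact Finset.mem_coe.2 (Finset.mem_sigma.2 ⟨hz5, Finset.mem_filter.2 ⟨hz6, hz4, hz2⟩⟩)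
      · intro z _ w _ he
        rw [Sigma.mk.injEq] at he
        exact Prod.ext he.1 (eq_of_heq he.2)
    rw [Finset.card_sigma] at h2
    refine h2.trans ((Finset.sum_le_card_nsmul _ _ _ fun x _ => TauS_fib Q d x hd).trans ?_)
    rw [Nat.card_Icc, Nat.add_sub_cancel, smul_eq_mul]
  have h3 : (((Pc Q).filter (fun z => d ∣ nmN z)).card : ℝ) ≤ Q * (rts d * ((Q / d : ℕ) + 1)) := by
    exact_mod_cast h1
  refine h3.trans ?_
  have hdR : (0 : ℝ) < d := by exact_mod_cast hd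
  have h4 : ((Q / d : ℕ) : ℝ) ≤ (Q : ℝ) / d := Nat.cast_div_le
  have h5 : (1 : ℝ) ≤ 3 * Q / d := by
    rw [le_div_iff₀ hdR, one_mul]
    exact_mod_cast hdQ
  have h6 : (((Q / d : ℕ) : ℝ) + 1) ≤ 4 * Q / d := by
    have h7 : 4 * (Q : ℝ) / d = Q / d + 3 * Q / d := by ring
    rw [h7]
    exact add_le_add h4 h5
  calc (Q : ℝ) * (rts d * (((Q / d : ℕ) : ℝ) + 1)) ≤ Q * (rts d * (4 * Q / d)) := by
        refine mul_le_mul_of_nonneg_left (mul_le_mul_of_nonneg_left h6 (Nat.cast_nonneg _))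
          (Nat.cast_nonneg _)
    _ = 4 * (Q : ℝ) ^ 2 * rts d / d := by ring

theorem tau_sum (Q : ℕ) (hQ : 1 ≤ Q) :
    ∑ z ∈ Pc Q, ((nmN z).divisors.card : ℝ) ≤ 32 * (Q : ℝ) ^ 2 * (1 + Real.log (3 * Q)) := by
  have h1 : ∀ z ∈ Pc Q, ((nmN z).divisors.card : ℝ) ≤
      2 * ∑ d ∈ Icc 1 (3 * Q), (if d ∣ nmN z then (1 : ℝ) else 0) := by
    intro z hz
    obtain ⟨hz3, hz4⟩ := Finset.mem_filter.1 hz
    obtain ⟨hz5, hz6⟩ := Finset.mem_product.1 hz3
    rw [Finset.mem_Icc] at hz5 hz6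
    have hn0 : 0 < nmN z := by
      unfold nmN
      have : 0 < z.1 ^ 2 := pow_pos hz5.1 2
      omega
    have hn : nmN z ≤ 5 * Q ^ 2 := by
      unfold nmN
      have a1 : z.1 ^ 2 ≤ Q ^ 2 := Nat.pow_le_pow_left hz5.2 2
      have a2 : z.2 ^ 2 ≤ Q ^ 2 := Nat.pow_le_pow_left hz6.2 2
      have a3 : z.1 * z.2 ≤ Q * Q := Nat.mul_le_mul hz5.2 hz6.2
      have a4 : 3 * z.1 * z.2 = 3 * (z.1 * z.2) := by ring
      have a5 : Q * Q = Q ^ 2 := by ring
      rw [a4]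
      omega
    have h2 : (nmN z).divisors.card ≤ 2 * ((Icc 1 (3 * Q)).filter (fun d => d ∣ nmN z)).card := by
      rw [← Finset.card_filter_add_card_filter_not (s := (nmN z).divisors) (fun d => d ≤ 3 * Q), two_mul]
      refine add_le_add ?_ ?_
      · refine Finset.card_le_card fun d hd => ?_
        obtain ⟨hd1, hd2⟩ := Finset.mem_filter.1 hd
        have hd3 := Nat.dvd_of_mem_divisors hd1
        exact Finset.mem_filter.2 ⟨Finset.mem_Icc.2 ⟨Nat.pos_of_dvd_of_pos hd3 hn0, hd2⟩, hd3⟩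
      · refine Finset.card_le_card_of_injOn (fun d => nmN z / d) ?_ ?_
        · intro d hd
          obtain ⟨hd1, hd2⟩ := Finset.mem_filter.1 (Finset.mem_coe.1 hd)
          have hd3 := Nat.dvd_of_mem_divisors hd1
          have hd4 : 0 < d := Nat.pos_of_dvd_of_pos hd3 hn0
          refine Finset.mem_coe.2 (Finset.mem_filter.2 ⟨Finset.mem_Icc.2 ⟨?_, ?_⟩, ?_⟩)
          · exact Nat.div_pos (Nat.le_of_dvd hn0 hd3) hd4
          · by_contra hcon
            rw [not_le] at hcon hd2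
            have h5 : d * (nmN z / d) = nmN z := Nat.mul_div_cancel' hd3
            have h6 : (3 * Q) * (3 * Q) ≤ d * (nmN z / d) := Nat.mul_le_mul hd2.le hcon.le
            have h7 : (3 * Q) * (3 * Q) = 9 * Q ^ 2 := by ring
            have h8 : 0 < Q ^ 2 := pow_pos hQ 2
            omega
          · exact Nat.div_dvd_of_dvd hd3
        · intro d hd e he hde
          have hd1 := Nat.dvd_of_mem_divisors (Finset.mem_filter.1 (Finset.mem_coe.1 hd)).1
          have he1 := Nat.dvd_of_mem_divisors (Finset.mem_filter.1 (Finset.mem_coe.1 he)).1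
          have hde' : nmN z / d = nmN z / e := hde
          rw [← Nat.div_div_self hd1 hn0.ne', ← Nat.div_div_self he1 hn0.ne', hde']
    have h3 : ((nmN z).divisors.card : ℝ) ≤
        2 * (((Icc 1 (3 * Q)).filter (fun d => d ∣ nmN z)).card : ℝ) := by exact_mod_cast h2
    rw [Finset.sum_boole]
    exact h3
  have h2 : ∑ z ∈ Pc Q, ∑ d ∈ Icc 1 (3 * Q), (if d ∣ nmN z then (1 : ℝ) else 0) =
      ∑ d ∈ Icc 1 (3 * Q), (((Pc Q).filter (fun z => d ∣ nmN z)).card : ℝ) := by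
    rw [Finset.sum_comm]
    refine Finset.sum_congr rfl fun d _ => ?_
    rw [Finset.sum_boole]
  have h3 : ∀ d ∈ Icc 1 (3 * Q), (((Pc Q).filter (fun z => d ∣ nmN z)).card : ℝ) ≤
      8 * (Q : ℝ) ^ 2 * ((rr d : ℝ) / d) := by
    intro d hd
    rw [Finset.mem_Icc] at hd
    refine (card_dvd Q d hd.1 hd.2).trans ?_
    have hdR : (0 : ℝ) < d := by exact_mod_cast hd.1
    have h4 : (rts d : ℝ) ≤ 2 * (rr d : ℝ) := by exact_mod_cast rts_le d hd.1
    calc 4 * (Q : ℝ) ^ 2 * rts d / d ≤ 4 * (Q : ℝ) ^ 2 * (2 * rr d) / d := by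
          apply div_le_div_of_nonneg_right _ hdR.le
          exact mul_le_mul_of_nonneg_left h4 (by positivity)
      _ = 8 * (Q : ℝ) ^ 2 * ((rr d : ℝ) / d) := by ring
  calc ∑ z ∈ Pc Q, ((nmN z).divisors.card : ℝ)
      ≤ ∑ z ∈ Pc Q, 2 * ∑ d ∈ Icc 1 (3 * Q), (if d ∣ nmN z then (1 : ℝ) else 0) :=
        Finset.sum_le_sum h1
    _ = 2 * ∑ d ∈ Icc 1 (3 * Q), (((Pc Q).filter (fun z => d ∣ nmN z)).card : ℝ) := by
        rw [← Finset.mul_sum, h2]
    _ ≤ 2 * ∑ d ∈ Icc 1 (3 * Q), 8 * (Q : ℝ) ^ 2 * ((rr d : ℝ) / d) :=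
        mul_le_mul_of_nonneg_left (Finset.sum_le_sum h3) (by norm_num)
    _ = 16 * (Q : ℝ) ^ 2 * ∑ d ∈ Icc 1 (3 * Q), (rr d : ℝ) / d := by
        rw [← Finset.mul_sum]
        ring
    _ ≤ 16 * (Q : ℝ) ^ 2 * (2 * (1 + Real.log ((3 * Q : ℕ) : ℝ))) :=
        mul_le_mul_of_nonneg_left (rr_sum (3 * Q) (by omega)) (by positivity)
    _ = 32 * (Q : ℝ) ^ 2 * (1 + Real.log (3 * Q)) := by
        push_cast
        ring

end Pool.Agent.Lib.MP_d57abb_nt.Ev
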