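import Mathlib
import Pool.Agent.Lib.MP_d57abb_nt.Ev.TauS
import Pool.Agent.Lib.MP_d57abb_nt.Ev.CntZ
import Pool.Agent.Lib.MP_d57abb_nt.Ev.SzV

/-!
# JOB BadE: most starting vectors are good

PROOF of `inj_zv`.  For `z = (a, b) ∈ Pc A` let `z₀ = (a, b)`, `v = (c, e)`, `c = cz a b`, `e = (1 + b c)/a` (`cz_spec`), `dt z₀ v = 1`, `t = zv a b c x y = x z₀ + y v` (primitive, because `gcd (x, y) = 1` and `dt z₀ v = 1`: an integer combination `p x + r y = 1` gives a vector `s = - r z₀ + p v` with `dt t s = 1`).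
`dt z₀ t = y`.  If `(a', b')` gives the same `t`: `dt (z₀ - z₀') t = 0`, `t` primitive, so `z₀ - z₀' = k t`, `k` an integer; the first coordinates of `z₀, z₀'` are in `[1, t.1]` (`t.1 = x a + y c ≥ a`, similarly for `a'`), so `|k| t.1 < t.1`, `k = 0`.
PROOF of `bad_card`.  For `i ∈ idx X` the map `(a, b) ↦ zv a b (cz a b) i.1 i.2` is injective on `Pc A` (`inj_zv`) with values (as pairs of natural numbers) in `Pc Q`, `Q = (X + 2) A` (`sizeV`, primitive), and `(nm ..).natAbs = nmN ..`.  So the number of the `(a, b) ∈ Pc A` with more than `T` divisors at the index `i` is at most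
`|{z ∈ Pc Q : T < |divisors (nmN z)|}| ≤ (1/T) ∑_{z ∈ Pc Q} |divisors (nmN z)|` (`tau_sum`).  Sum over the at most `2 (X + 1)` indices (`card_idx`).
PROOF of `good_card`.  `cnt_coprime` (`2 ∣ G`, `3 ∣ G`) gives `≥ A²/(4 G²)` pairs in the class; the bad ones are at most `(2 (X + 1)) 32 Q² (1 + log (3 Q)) / T ≤ A² / (8 G²)` for `T ≥ K log A` with `K` large (`log (3 (X + 2) A) ≤ 2 log A` for large `A`).
-/

open Finset

namespace Pool.Agent.Lib.MP_d57abb_nt.Ev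

open Pool.Agent.Lib.MP_d57abb_nt Pool.Agent.Lib.MP_d57abb_nt.All

private theorem BadE_fst (a b c x y : ℕ) : (zv a b c x y).1 = (x : ℤ) * a + y * c := by
  unfold zv fv
  simp only [Prod.fst_add, Prod.smul_fst, smul_eq_mul]

private theorem BadE_snd (a b c x y : ℕ) :
    (zv a b c x y).2 = (x : ℤ) * b + y * (((1 + b * c) / a : ℕ) : ℤ) := by
  unfold zv fv
  simp only [Prod.snd_add, Prod.smul_snd, smul_eq_mul]

private theorem BadE_e {a b : ℕ} (ha : 1 ≤ a) (hab : Nat.Coprime a b) :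
    (a : ℤ) * (((1 + b * cz a b) / a : ℕ) : ℤ) = 1 + b * (cz a b : ℤ) := by
  have h := Nat.mul_div_cancel' (cz_spec a b ha hab).2
  exact_mod_cast h

private theorem BadE_dt {a b : ℕ} (ha : 1 ≤ a) (hab : Nat.Coprime a b) (x y : ℕ) :
    (a : ℤ) * (zv a b (cz a b) x y).2 - (zv a b (cz a b) x y).1 * b = y := by
  rw [BadE_fst, BadE_snd]
  have h := BadE_e ha hab
  linear_combination (y : ℤ) * h

private theorem BadE_prim {a b : ℕ} (ha : 1 ≤ a) (hab : Nat.Coprime a b) {x y : ℕ} (hxy : Nat.Coprime x y) :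
    IsCoprime (zv a b (cz a b) x y).1 (zv a b (cz a b) x y).2 := by
  have hc : IsCoprime (x : ℤ) (y : ℤ) := Nat.isCoprime_iff_coprime.2 hxy
  obtain ⟨p, r, hpr⟩ := hc
  have h := BadE_e ha hab
  rw [BadE_fst, BadE_snd]
  refine ⟨-r * b + p * (((1 + b * cz a b) / a : ℕ) : ℤ), r * a - p * (cz a b : ℤ), ?_⟩
  linear_combination (p * x + r * y) * h + hpr

private theorem BadE_class {X A : ℕ} {i : ℕ × ℕ} (hi : i ∈ idx X) {z : ℕ × ℕ} (hz : z ∈ Pc A) :
    (1 ≤ (zv z.1 z.2 (cz z.1 z.2) i.1 i.2).1 ∧ 1 ≤ (zv z.1 z.2 (cz z.1 z.2) i.1 i.2).2) ∧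
    ((zv z.1 z.2 (cz z.1 z.2) i.1 i.2).1.natAbs, (zv z.1 z.2 (cz z.1 z.2) i.1 i.2).2.natAbs) ∈
      Pc ((X + 2) * A) ∧
    nmN ((zv z.1 z.2 (cz z.1 z.2) i.1 i.2).1.natAbs, (zv z.1 z.2 (cz z.1 z.2) i.1 i.2).2.natAbs) =
      (nm (zv z.1 z.2 (cz z.1 z.2) i.1 i.2)).natAbs := by
  obtain ⟨hz1, hz2⟩ := Finset.mem_filter.1 hz
  obtain ⟨hz3, hz4⟩ := Finset.mem_product.1 hz1
  rw [Finset.mem_Icc] at hz3 hz4
  obtain ⟨hx, hy, hxy⟩ := mem_idx.1 (show (i.1, i.2) ∈ idx X from hi)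
  obtain ⟨hc1, hc2⟩ := cz_spec z.1 z.2 hz3.1 hz2
  obtain ⟨s1, s2, s3, s4, _, _⟩ := sizeV z.1 z.2 (cz z.1 z.2) i.1 i.2 X hz3.1 hz4.1 hc1 hx hy
  have hp := BadE_prim hz3.1 hz2 hxy
  set t := zv z.1 z.2 (cz z.1 z.2) i.1 i.2 with ht
  have hmax : max (z.1 : ℤ) (z.2 : ℤ) ≤ A :=
    max_le (by exact_mod_cast hz3.2) (by exact_mod_cast hz4.2)
  have hX : (0 : ℤ) ≤ (X : ℤ) + 2 := by positivity
  have hb : ((X : ℤ) + 2) * max (z.1 : ℤ) (z.2 : ℤ) ≤ (((X + 2) * A : ℕ) : ℤ) := by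
    push_cast
    exact mul_le_mul_of_nonneg_left hmax hX
  refine ⟨⟨s1, s2⟩, ?_, ?_⟩
  · unfold Pc
    refine Finset.mem_filter.2 ⟨Finset.mem_product.2 ⟨Finset.mem_Icc.2 ?_, Finset.mem_Icc.2 ?_⟩, ?_⟩
    · have := s3.trans hb
      constructor
      · change 1 ≤ t.1.natAbs
        omega
      · change t.1.natAbs ≤ (X + 2) * A
        omega
    · have := s4.trans hb
      constructor
      · change 1 ≤ t.2.natAbs
        omega
      · change t.2.natAbs ≤ (X + 2) * A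
        omega
    · exact Int.isCoprime_iff_gcd_eq_one.1 hp
  · have h1 : (t.1.natAbs : ℤ) = t.1 := Int.natAbs_of_nonneg (by omega)
    have h2 : (t.2.natAbs : ℤ) = t.2 := Int.natAbs_of_nonneg (by omega)
    have h3 : ((nmN (t.1.natAbs, t.2.natAbs) : ℕ) : ℤ) = nm t := by
      unfold nmN nm
      push_cast
      rw [← h1, ← h2]
      simp only [Int.natCast_natAbs, abs_abs]
    rw [← h3, Int.natAbs_natCast]

theorem inj_zv {X x y a b a' b' : ℕ} (hi : (x, y) ∈ idx X) (ha : 1 ≤ a) (hb : 1 ≤ b) (hab : Nat.Coprime a b)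
    (ha' : 1 ≤ a') (hb' : 1 ≤ b') (hab' : Nat.Coprime a' b')
    (he : zv a b (cz a b) x y = zv a' b' (cz a' b') x y) : a = a' ∧ b = b' := by
  obtain ⟨hx, hy, hxy⟩ := mem_idx.1 hi
  have hx1 : 1 ≤ x := by omega
  have h1 := BadE_dt ha hab x y
  have h2 := BadE_dt ha' hab' x y
  have hp := BadE_prim ha hab hxy
  have f1 := BadE_fst a b (cz a b) x y
  have f2 := BadE_fst a' b' (cz a' b') x y
  rw [← he] at h2 f2
  set t := zv a b (cz a b) x y with ht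
  have hxz : (1 : ℤ) ≤ x := by exact_mod_cast hx1
  have haz : (1 : ℤ) ≤ a := by exact_mod_cast ha
  have haz' : (1 : ℤ) ≤ a' := by exact_mod_cast ha'
  have g1 : (a : ℤ) ≤ t.1 := by
    rw [f1]
    have : (0 : ℤ) ≤ y * (cz a b : ℤ) := by positivity
    nlinarith
  have g2 : (a' : ℤ) ≤ t.1 := by
    rw [f2]
    have : (0 : ℤ) ≤ y * (cz a' b' : ℤ) := by positivity
    nlinarith
  have h3 : ((a : ℤ) - a') * t.2 = t.1 * ((b : ℤ) - b') := by linear_combination h1 - h2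
  have h4 : t.1 ∣ (a : ℤ) - a' := by
    apply hp.dvd_of_dvd_mul_right
    rw [h3]
    exact Dvd.intro _ rfl
  have h5 : (a : ℤ) - a' = 0 := by
    apply Int.eq_zero_of_abs_lt_dvd h4
    rw [abs_lt]
    constructor <;> linarith
  have h6 : (b : ℤ) - b' = 0 := by
    rw [h5, zero_mul] at h3
    rcases mul_eq_zero.1 h3.symm with h | h
    · linarith
    · exact h
  constructor
  · omega
  · omega

private theorem BadE_one (X A T : ℕ) (hA : 1 ≤ A) (hT : 1 ≤ T) (i : ℕ × ℕ) (hi : i ∈ idx X) :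
    (((Pc A).filter (fun z =>
      T < (nm (zv z.1 z.2 (cz z.1 z.2) i.1 i.2)).natAbs.divisors.card)).card : ℝ) ≤
      (32 * (((X : ℝ) + 2) * A) ^ 2 * (1 + Real.log (3 * (((X : ℝ) + 2) * A)))) / T := by
  set Q := (X + 2) * A with hQ
  have hQ1 : 1 ≤ Q := Nat.one_le_iff_ne_zero.2 (by positivity)
  have hTr : (0 : ℝ) < T := by exact_mod_cast hT
  have hle : ((Pc A).filter (fun z =>
      T < (nm (zv z.1 z.2 (cz z.1 z.2) i.1 i.2)).natAbs.divisors.card)).card ≤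
      ((Pc Q).filter (fun z => T < (nmN z).divisors.card)).card := by
    refine Finset.card_le_card_of_injOn
      (fun z => ((zv z.1 z.2 (cz z.1 z.2) i.1 i.2).1.natAbs, (zv z.1 z.2 (cz z.1 z.2) i.1 i.2).2.natAbs)) ?_ ?_
    · intro z hz
      obtain ⟨hz1, hz2⟩ := Finset.mem_filter.1 (Finset.mem_coe.1 hz)
      obtain ⟨_, h2, h3⟩ := BadE_class hi hz1
      refine Finset.mem_coe.2 (Finset.mem_filter.2 ⟨h2, ?_⟩)
      rw [h3]
      exact hz2
    · intro z hz z' hz' he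
      have hz1 := (Finset.mem_filter.1 (Finset.mem_coe.1 hz)).1
      have hz1' := (Finset.mem_filter.1 (Finset.mem_coe.1 hz')).1
      obtain ⟨⟨a1, a2⟩, _, _⟩ := BadE_class hi hz1
      obtain ⟨⟨b1, b2⟩, _, _⟩ := BadE_class hi hz1'
      rw [Prod.ext_iff] at he
      obtain ⟨e1, e2⟩ := he
      change (zv z.1 z.2 (cz z.1 z.2) i.1 i.2).1.natAbs = (zv z'.1 z'.2 (cz z'.1 z'.2) i.1 i.2).1.natAbs at e1
      change (zv z.1 z.2 (cz z.1 z.2) i.1 i.2).2.natAbs = (zv z'.1 z'.2 (cz z'.1 z'.2) i.1 i.2).2.natAbs at e2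
      have e3 : zv z.1 z.2 (cz z.1 z.2) i.1 i.2 = zv z'.1 z'.2 (cz z'.1 z'.2) i.1 i.2 :=
        Prod.ext (by omega) (by omega)
      obtain ⟨k1, k2⟩ := Finset.mem_filter.1 hz1
      obtain ⟨k3, k4⟩ := Finset.mem_product.1 k1
      obtain ⟨l1, l2⟩ := Finset.mem_filter.1 hz1'
      obtain ⟨l3, l4⟩ := Finset.mem_product.1 l1
      rw [Finset.mem_Icc] at k3 k4 l3 l4
      obtain ⟨f1, f2⟩ := inj_zv (show (i.1, i.2) ∈ idx X from hi) k3.1 k4.1 k2 l3.1 l4.1 l2 e3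
      exact Prod.ext f1 f2
  have h1 : (((Pc Q).filter (fun z => T < (nmN z).divisors.card)).card : ℝ) * T ≤
      ∑ z ∈ Pc Q, ((nmN z).divisors.card : ℝ) := by
    calc (((Pc Q).filter (fun z => T < (nmN z).divisors.card)).card : ℝ) * T
        = ∑ _z ∈ (Pc Q).filter (fun z => T < (nmN z).divisors.card), (T : ℝ) := by
          rw [Finset.sum_const, nsmul_eq_mul]
      _ ≤ ∑ z ∈ (Pc Q).filter (fun z => T < (nmN z).divisors.card), ((nmN z).divisors.card : ℝ) := by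
          refine Finset.sum_le_sum fun z hz => ?_
          exact_mod_cast (Finset.mem_filter.1 hz).2.le
      _ ≤ ∑ z ∈ Pc Q, ((nmN z).divisors.card : ℝ) :=
          Finset.sum_le_sum_of_subset_of_nonneg (Finset.filter_subset _ _) (fun z _ _ => Nat.cast_nonneg _)
  have h2 := tau_sum Q hQ1
  have hQr : (Q : ℝ) = ((X : ℝ) + 2) * A := by
    rw [hQ]
    push_cast
    rfl
  rw [le_div_iff₀ hTr, ← hQr]
  have h3 : (((Pc A).filter (fun z =>
      T < (nm (zv z.1 z.2 (cz z.1 z.2) i.1 i.2)).natAbs.divisors.card)).card : ℝ) ≤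
      (((Pc Q).filter (fun z => T < (nmN z).divisors.card)).card : ℝ) := by exact_mod_cast hle
  exact (mul_le_mul_of_nonneg_right h3 hTr.le).trans (h1.trans h2)

theorem bad_card (X A T : ℕ) (hA : 1 ≤ A) (hT : 1 ≤ T) :
    (((Pc A).filter (fun z => ∃ i ∈ idx X,
      T < (nm (zv z.1 z.2 (cz z.1 z.2) i.1 i.2)).natAbs.divisors.card)).card : ℝ) ≤
      (2 * ((X : ℝ) + 1)) * (32 * (((X : ℝ) + 2) * A) ^ 2 * (1 + Real.log (3 * (((X : ℝ) + 2) * A)))) / T := by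
  have hsub : (Pc A).filter (fun z => ∃ i ∈ idx X,
      T < (nm (zv z.1 z.2 (cz z.1 z.2) i.1 i.2)).natAbs.divisors.card) ⊆
      (idx X).biUnion (fun i => (Pc A).filter (fun z =>
        T < (nm (zv z.1 z.2 (cz z.1 z.2) i.1 i.2)).natAbs.divisors.card)) := by
    intro z hz
    obtain ⟨hz1, i, hi, hz2⟩ := Finset.mem_filter.1 hz
    exact Finset.mem_biUnion.2 ⟨i, hi, Finset.mem_filter.2 ⟨hz1, hz2⟩⟩
  have h1 := (Finset.card_le_card hsub).trans Finset.card_biUnion_le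
  set R : ℝ := (32 * (((X : ℝ) + 2) * A) ^ 2 * (1 + Real.log (3 * (((X : ℝ) + 2) * A)))) / T with hR
  have hAr : (1 : ℝ) ≤ A := by exact_mod_cast hA
  have hlog : 0 ≤ Real.log (3 * (((X : ℝ) + 2) * A)) := by
    apply Real.log_nonneg
    have : (0 : ℝ) ≤ X := Nat.cast_nonneg X
    nlinarith
  have hR0 : 0 ≤ R := by positivity
  have h2 : (∑ i ∈ idx X, (((Pc A).filter (fun z =>
        T < (nm (zv z.1 z.2 (cz z.1 z.2) i.1 i.2)).natAbs.divisors.card)).card : ℝ)) ≤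
      ∑ _i ∈ idx X, R := Finset.sum_le_sum fun i hi => BadE_one X A T hA hT i hi
  rw [Finset.sum_const, nsmul_eq_mul] at h2
  have h3 : ((idx X).card : ℝ) ≤ 2 * ((X : ℝ) + 1) := by exact_mod_cast card_idx X
  have h4 : (((Pc A).filter (fun z => ∃ i ∈ idx X,
      T < (nm (zv z.1 z.2 (cz z.1 z.2) i.1 i.2)).natAbs.divisors.card)).card : ℝ) ≤
      ∑ i ∈ idx X, (((Pc A).filter (fun z =>
        T < (nm (zv z.1 z.2 (cz z.1 z.2) i.1 i.2)).natAbs.divisors.card)).card : ℝ) := by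
    exact_mod_cast h1
  refine h4.trans (h2.trans ((mul_le_mul_of_nonneg_right h3 hR0).trans (le_of_eq ?_)))
  rw [hR]
  ring

theorem good_card (G B X : ℕ) (hG : 0 < G) (h2 : 2 ∣ G) (h3 : 3 ∣ G) : ∃ K A₀ : ℕ, ∀ A T : ℕ, A₀ ≤ A →
    (K : ℝ) * Real.log A ≤ T → (A : ℝ) ^ 2 / (8 * (G : ℝ) ^ 2) ≤ ((Good A G B X T).card : ℝ) := by
  obtain ⟨A₁, hA₁⟩ := cnt_coprime G B hG h2 h3
  refine ⟨1024 * (X + 1) * (X + 2) ^ 2 * G ^ 2, max A₁ (9 * (X + 2)), fun A T hA hT => ?_⟩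
  have hA1 : A₁ ≤ A := (le_max_left _ _).trans hA
  have hA2 : 9 * (X + 2) ≤ A := (le_max_right _ _).trans hA
  have hGr : (1 : ℝ) ≤ G := by exact_mod_cast hG
  have hXr : (0 : ℝ) ≤ X := Nat.cast_nonneg X
  have hA2r : 9 * ((X : ℝ) + 2) ≤ A := by exact_mod_cast hA2
  have hApos : (0 : ℝ) < A := by linarith
  have hlog3 : 1 ≤ Real.log 3 := by
    rw [Real.le_log_iff_exp_le (by norm_num)]
    linarith [Real.exp_one_lt_d9]
  have hlogA : 1 + Real.log (3 * ((X : ℝ) + 2)) ≤ Real.log A := by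
    have h1 : Real.log (9 * ((X : ℝ) + 2)) = Real.log 3 + Real.log (3 * ((X : ℝ) + 2)) := by
      rw [← Real.log_mul (by norm_num) (by positivity)]
      congr 1
      ring
    have h4 := Real.log_le_log (by positivity) hA2r
    linarith
  have hlogX : 0 ≤ Real.log (3 * ((X : ℝ) + 2)) := Real.log_nonneg (by linarith)
  have hlogA1 : 1 ≤ Real.log A := by linarith
  have hK0 : (0 : ℝ) < ((1024 * (X + 1) * (X + 2) ^ 2 * G ^ 2 : ℕ) : ℝ) := by
    push_cast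
    positivity
  have hTr : (0 : ℝ) < T := lt_of_lt_of_le (mul_pos hK0 (by linarith)) hT
  have hT1 : 1 ≤ T := by exact_mod_cast hTr
  have hb := bad_card X A T (by omega) hT1
  have hc := hA₁ A hA1
  have hsub : (Pc A).filter (fun z => z.1 ≡ 1 [MOD G] ∧ z.2 ≡ B [MOD G]) ⊆
      Good A G B X T ∪ (Pc A).filter (fun z => ∃ i ∈ idx X,
        T < (nm (zv z.1 z.2 (cz z.1 z.2) i.1 i.2)).natAbs.divisors.card) := by
    intro z hz
    obtain ⟨hz1, hz2⟩ := Finset.mem_filter.1 hz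
    rw [Finset.mem_union]
    by_cases h : ∃ i ∈ idx X, T < (nm (zv z.1 z.2 (cz z.1 z.2) i.1 i.2)).natAbs.divisors.card
    · exact Or.inr (Finset.mem_filter.2 ⟨hz1, h⟩)
    · left
      unfold Good
      refine Finset.mem_filter.2 ⟨hz1, hz2, fun i hi => ?_⟩
      by_contra h'
      exact h ⟨i, hi, not_le.1 h'⟩
  have hcard := (Finset.card_le_card hsub).trans (Finset.card_union_le _ _)
  have hcard' : (((Pc A).filter (fun z => z.1 ≡ 1 [MOD G] ∧ z.2 ≡ B [MOD G])).card : ℝ) ≤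
      ((Good A G B X T).card : ℝ) + (((Pc A).filter (fun z => ∃ i ∈ idx X,
        T < (nm (zv z.1 z.2 (cz z.1 z.2) i.1 i.2)).natAbs.divisors.card)).card : ℝ) := by
    exact_mod_cast hcard
  have hlog2 : 1 + Real.log (3 * (((X : ℝ) + 2) * A)) ≤ 2 * Real.log A := by
    have h1 : Real.log (3 * (((X : ℝ) + 2) * A)) = Real.log (3 * ((X : ℝ) + 2)) + Real.log A := by
      rw [← Real.log_mul (by positivity) hApos.ne']
      congr 1
      ring
    linarith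
  have hbad : (2 * ((X : ℝ) + 1)) * (32 * (((X : ℝ) + 2) * A) ^ 2 *
      (1 + Real.log (3 * (((X : ℝ) + 2) * A)))) / T ≤ (A : ℝ) ^ 2 / (8 * (G : ℝ) ^ 2) := by
    rw [div_le_div_iff₀ hTr (by positivity)]
    have h1 : (2 * ((X : ℝ) + 1)) * (32 * (((X : ℝ) + 2) * A) ^ 2 *
        (1 + Real.log (3 * (((X : ℝ) + 2) * A)))) ≤
        (2 * ((X : ℝ) + 1)) * (32 * (((X : ℝ) + 2) * A) ^ 2 * (2 * Real.log A)) := by
      have : (0 : ℝ) ≤ 32 * (((X : ℝ) + 2) * A) ^ 2 := by positivity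
      exact mul_le_mul_of_nonneg_left (mul_le_mul_of_nonneg_left hlog2 this) (by positivity)
    have h4 : (2 * ((X : ℝ) + 1)) * (32 * (((X : ℝ) + 2) * A) ^ 2 * (2 * Real.log A)) *
        (8 * (G : ℝ) ^ 2) =
        (A : ℝ) ^ 2 * (((1024 * (X + 1) * (X + 2) ^ 2 * G ^ 2 : ℕ) : ℝ) * Real.log A) := by
      push_cast
      ring
    calc _ ≤ (2 * ((X : ℝ) + 1)) * (32 * (((X : ℝ) + 2) * A) ^ 2 * (2 * Real.log A)) *
          (8 * (G : ℝ) ^ 2) := mul_le_mul_of_nonneg_right h1 (by positivity)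
      _ = (A : ℝ) ^ 2 * (((1024 * (X + 1) * (X + 2) ^ 2 * G ^ 2 : ℕ) : ℝ) * Real.log A) := h4
      _ ≤ (A : ℝ) ^ 2 * T := mul_le_mul_of_nonneg_left hT (by positivity)
  have hfin : (A : ℝ) ^ 2 / (4 * (G : ℝ) ^ 2) =
      (A : ℝ) ^ 2 / (8 * (G : ℝ) ^ 2) + (A : ℝ) ^ 2 / (8 * (G : ℝ) ^ 2) := by
    have : (G : ℝ) ≠ 0 := by positivity
    field_simp
    norm_num
  linarith

end Pool.Agent.Lib.MP_d57abb_nt.Ev
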