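import Mathlib
import Pool.Agent.Lib.MP_d57abb_nt.Ev.SzV

/-!
# JOB BadV: the bad residues modulo `q`

PROOF (adaptation of `AP/Bad.lean`, complete there; `X < q` and `2 < q`, `q ∤ a`).  For an index `(x, y)` and `γ < q` there are at most two `β < q` with `q ∣ nm (x a² + y a γ, x a β + y (1 + β γ))`: in `ZMod q` let `s = x a + y γ`; the vector is `(a s, β s + y)`.  If `s = 0`: `nm = y²`, zero only if `y = 0` in `ZMod q`, so
`y = 0` as a number (`y ≤ X < q`), then `s = x a ≠ 0`, a contradiction.  If `s ≠ 0`: the quadratic equation for `β s + y` has at most two solutions.  There are at most `2 (X + 1)` indices: `|badV| ≤ 4 (X + 1) q`.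
`mem_badV`: `a • zv a b c x y = (x a² + y a c, x a b + y (1 + b c))`, reduction modulo `q` as in `mem_badq`.
-/

open Finset

namespace Pool.Agent.Lib.MP_d57abb_nt.Ev

open Pool.Agent.Lib.MP_d57abb_nt

private theorem BadV_two (a q x y γ : ℕ) (hq : q.Prime) (hqa : ¬ q ∣ a) (hx0 : 0 < x) (hx : x < q) :
    ((range q).filter (fun β : ℕ =>
      (q : ℤ) ∣ nm ((x : ℤ) * (a : ℤ) ^ 2 + y * a * γ, (x : ℤ) * a * β + y * (1 + β * γ)))).card ≤ 2 := by
  by_contra hcon
  push Not at hcon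
  obtain ⟨b₁, h₁, b₂, h₂, b₃, h₃, h12, h13, h23⟩ := Finset.two_lt_card.mp hcon
  rw [mem_filter, mem_range] at h₁ h₂ h₃
  have : Fact q.Prime := ⟨hq⟩
  have ha0 : (a : ZMod q) ≠ 0 := by
    intro h
    exact hqa ((ZMod.natCast_eq_zero_iff a q).mp h)
  have hx1 : (x : ZMod q) ≠ 0 := by
    intro h
    exact Nat.not_dvd_of_pos_of_lt hx0 hx ((ZMod.natCast_eq_zero_iff x q).mp h)
  have key : ∀ β : ℕ, (q : ℤ) ∣ nm ((x : ℤ) * (a : ℤ) ^ 2 + y * a * γ, (x : ℤ) * a * β + y * (1 + β * γ)) →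
      ((a : ZMod q) * (x * a + y * γ)) ^ 2 + 3 * ((a : ZMod q) * (x * a + y * γ)) * ((x * a + y * γ) * β + y) +
        ((x * a + y * γ) * β + y) ^ 2 = 0 := by
    intro β hβ
    have h1 := (ZMod.intCast_zmod_eq_zero_iff_dvd _ q).mpr hβ
    unfold nm at h1
    push_cast at h1
    rw [← h1]
    ring
  have inj : ∀ β β' : ℕ, β < q → β' < q → β ≠ β' → (β : ZMod q) ≠ (β' : ZMod q) := by
    intro β β' h h' hne he
    apply hne
    have h2 := (ZMod.natCast_eq_natCast_iff' β β' q).mp he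
    rwa [Nat.mod_eq_of_lt h, Nat.mod_eq_of_lt h'] at h2
  have k₁ := key b₁ h₁.2
  have k₂ := key b₂ h₂.2
  have k₃ := key b₃ h₃.2
  have i12 := inj b₁ b₂ h₁.1 h₂.1 h12
  have i13 := inj b₁ b₃ h₁.1 h₃.1 h13
  have i23 := inj b₂ b₃ h₂.1 h₃.1 h23
  by_cases hu : (x : ZMod q) * a + y * γ = 0
  · rw [hu] at k₁
    have ht0 : (y : ZMod q) ^ 2 = 0 := by
      rw [← k₁]
      ring
    have ht1 : (y : ZMod q) = 0 := by
      exact pow_eq_zero_iff (two_ne_zero) |>.mp ht0
    rw [ht1] at hu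
    have h3 : (x : ZMod q) * a = 0 := by
      rw [← hu]
      ring
    exact mul_ne_zero hx1 ha0 h3
  · have d12 : (b₁ : ZMod q) - b₂ ≠ 0 := sub_ne_zero.mpr i12
    have d13 : (b₁ : ZMod q) - b₃ ≠ 0 := sub_ne_zero.mpr i13
    have e12 : ((x : ZMod q) * a + y * γ) * b₁ + y + (((x : ZMod q) * a + y * γ) * b₂ + y) +
        3 * ((a : ZMod q) * (x * a + y * γ)) = 0 := by
      have : (((x : ZMod q) * a + y * γ) * ((b₁ : ZMod q) - b₂)) *
        (((x : ZMod q) * a + y * γ) * b₁ + y + (((x : ZMod q) * a + y * γ) * b₂ + y) +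
        3 * ((a : ZMod q) * (x * a + y * γ))) = 0 := by
        linear_combination k₁ - k₂
      rcases mul_eq_zero.mp this with h | h
      · exact absurd h (mul_ne_zero hu d12)
      · exact h
    have e13 : ((x : ZMod q) * a + y * γ) * b₁ + y + (((x : ZMod q) * a + y * γ) * b₃ + y) +
        3 * ((a : ZMod q) * (x * a + y * γ)) = 0 := by
      have : (((x : ZMod q) * a + y * γ) * ((b₁ : ZMod q) - b₃)) *
        (((x : ZMod q) * a + y * γ) * b₁ + y + (((x : ZMod q) * a + y * γ) * b₃ + y) +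
        3 * ((a : ZMod q) * (x * a + y * γ))) = 0 := by
        linear_combination k₁ - k₃
      rcases mul_eq_zero.mp this with h | h
      · exact absurd h (mul_ne_zero hu d13)
      · exact h
    have e23 : ((x : ZMod q) * a + y * γ) * ((b₂ : ZMod q) - b₃) = 0 := by
      linear_combination e12 - e13
    rcases mul_eq_zero.mp e23 with h | h
    · exact hu h
    · exact i23 (sub_eq_zero.mp h)

private theorem BadV_idx_card (X : ℕ) : (idx X).card ≤ 2 * (X + 1) := by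
  unfold idx
  refine (card_filter_le _ _).trans ?_
  rw [card_product, card_range]
  exact Nat.mul_le_mul_right _ (by decide)

theorem badV_card (a X q : ℕ) (hq : q.Prime) (hqa : ¬ q ∣ a) (hX : X < q) (h2 : 2 < q) :
    (badV a X q).card ≤ 4 * (X + 1) * q := by
  have hsub : badV a X q ⊆ (idx X).biUnion (fun i => (range q).biUnion (fun γ =>
      ((range q).filter (fun β : ℕ =>
        (q : ℤ) ∣ nm ((i.1 : ℤ) * (a : ℤ) ^ 2 + i.2 * a * γ, (i.1 : ℤ) * a * β + i.2 * (1 + β * γ)))).image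
          (fun β => (β, γ)))) := by
    intro s hs
    unfold badV at hs
    rw [mem_filter, mem_product] at hs
    obtain ⟨⟨h1, h2⟩, i, hi, hd⟩ := hs
    rw [mem_biUnion]
    refine ⟨i, hi, ?_⟩
    rw [mem_biUnion]
    refine ⟨s.2, h2, ?_⟩
    rw [mem_image]
    exact ⟨s.1, mem_filter.mpr ⟨h1, hd⟩, rfl⟩
  refine (card_le_card hsub).trans ?_
  refine card_biUnion_le.trans ?_
  have h1 : ∀ i ∈ idx X, ((range q).biUnion (fun γ =>
      ((range q).filter (fun β : ℕ =>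
        (q : ℤ) ∣ nm ((i.1 : ℤ) * (a : ℤ) ^ 2 + i.2 * a * γ, (i.1 : ℤ) * a * β + i.2 * (1 + β * γ)))).image
          (fun β => (β, γ)))).card ≤ q * 2 := by
    intro i hi
    unfold idx at hi
    rw [mem_filter, mem_product, mem_range, mem_insert, mem_singleton] at hi
    refine card_biUnion_le.trans ?_
    refine (sum_le_card_nsmul _ _ 2 ?_).trans ?_
    · intro γ _
      exact card_image_le.trans (BadV_two a q i.1 i.2 γ hq hqa (by omega) (by omega))
    · simp
  refine (sum_le_card_nsmul _ _ (q * 2) h1).trans ?_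
  rw [smul_eq_mul]
  calc (idx X).card * (q * 2) ≤ (2 * (X + 1)) * (q * 2) := Nat.mul_le_mul_right _ (BadV_idx_card X)
    _ = 4 * (X + 1) * q := by ring

theorem mem_badV (a b c X q : ℕ) (ha : 0 < a) (hd : a ∣ 1 + b * c) (hq : q.Prime) (hqa : ¬ q ∣ a) :
    (b % q, c % q) ∈ badV a X q ↔ ∃ i ∈ idx X, (q : ℤ) ∣ nm (zv a b c i.1 i.2) := by
  have : Fact q.Prime := ⟨hq⟩
  have ha0 : (a : ZMod q) ≠ 0 := by
    intro h
    exact hqa ((ZMod.natCast_eq_zero_iff a q).mp h)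
  have hae : a * ((1 + b * c) / a) = 1 + b * c := Nat.mul_div_cancel' hd
  have hae' : (a : ZMod q) * (((1 + b * c) / a : ℕ) : ZMod q) = 1 + b * c := by
    have := congrArg (fun n : ℕ => (n : ZMod q)) hae
    push_cast at this
    exact this
  have key : ∀ x y : ℕ, ((q : ℤ) ∣ nm ((x : ℤ) * (a : ℤ) ^ 2 + y * a * (((c % q : ℕ)) : ℤ),
      (x : ℤ) * a * ((b % q : ℕ) : ℤ) + y * (1 + ((b % q : ℕ) : ℤ) * ((c % q : ℕ) : ℤ)))) ↔
      (q : ℤ) ∣ nm (zv a b c x y) := by
    intro x y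
    rw [← ZMod.intCast_zmod_eq_zero_iff_dvd, ← ZMod.intCast_zmod_eq_zero_iff_dvd]
    have e : ((nm ((x : ℤ) * (a : ℤ) ^ 2 + y * a * (((c % q : ℕ)) : ℤ),
      (x : ℤ) * a * ((b % q : ℕ) : ℤ) + y * (1 + ((b % q : ℕ) : ℤ) * ((c % q : ℕ) : ℤ))) : ℤ) : ZMod q)
      = (a : ZMod q) ^ 2 * ((nm (zv a b c x y) : ℤ) : ZMod q) := by
      unfold nm zv fv
      simp only [Prod.smul_mk, Prod.mk_add_mk, smul_eq_mul, Int.cast_add, Int.cast_mul, Int.cast_pow, Int.cast_natCast, ZMod.natCast_mod,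
        Int.cast_one, Int.cast_ofNat]
      generalize (((1 + b * c) / a : ℕ) : ZMod q) = e at hae' ⊢
      linear_combination (-(3 * (y : ZMod q) * a * (x * a + y * c)) - 2 * (x : ZMod q) * y * a * b
        - (y : ZMod q) ^ 2 * ((1 + b * c) + a * e)) * hae'
    rw [e]
    constructor
    · intro h
      rcases mul_eq_zero.mp h with h | h
      · exact absurd h (pow_ne_zero 2 ha0)
      · exact h
    · intro h
      rw [h, mul_zero]
  unfold badV
  rw [mem_filter, mem_product]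
  simp only [mem_range]
  constructor
  · rintro ⟨_, i, hi, hd'⟩
    exact ⟨i, hi, (key i.1 i.2).mp hd'⟩
  · rintro ⟨i, hi, hd'⟩
    exact ⟨⟨Nat.mod_lt _ hq.pos, Nat.mod_lt _ hq.pos⟩, i, hi, (key i.1 i.2).mpr hd'⟩

end Pool.Agent.Lib.MP_d57abb_nt.Ev
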