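import Mathlib
import Pool.Agent.Lib.MP_d57abb_nt.Ev.Defs2
import Pool.Agent.Lib.MP_d57abb_nt.All.LocB

/-!
# JOB FrmV: the frame given by the Ramsey property on two lines

PROOF (adaptation of `AP/Frm.lean` and of the middle part of the proof of `loc_of_propB` in `All/LocB.lean`, both complete).  `z₀ = ml δ₀ u`.  Colouring `b x y = lam h (fv z₀ v x y)`; `x, y, x', y', d` from `PropV`.  `d > 0`; `d ≤ X`, because `d ∣ y`, `d ∣ y'` and `y, y'` are not both `0`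
(`x y' = x' y + d`).  `Nat.Coprime x y`: clear for `x = 1`; if `x = 2` and `y` is even then `d = 2 y' - x' y` is even, but `Spl d` excludes the prime `2` (`2 % 5 = 2`); the same for `x', y'` (`x' = 2`, `y'` even: `d = x y' - 2 y` is even).
`δ = dl d`, `δ'` its conjugate, `A = ml (co d) u`, `B' = ml δ' v`: `ml δ A = z₀`, `ml δ B' = d • v`.  `y = d s`, `y' = d s'`; `u' = x • A + s • B'`, `u'' = x' • A + s' • B'`: `ml δ u' = x • z₀ + (d s) • v = fv z₀ v x y`, similarly `u''`.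
`dt u' u'' = (x s' - x' s) dt A B' = dt A B' = 1` (`d (x s' - x' s) = d`; `d dt A B' = dt z₀ (d • v) = d`).  `TP u'`: `ml δ u'` and `δ` are totally positive (`fv z₀ v x y` is: `x ≥ 1`, `y ≥ 0`, `TP z₀`, `TP v`).
`lam h (ml δ u') = h d + lam h u'`, so `lam h u' + lam h u'' = b x y + b x' y' - 2 h d = c`.
-/

open Finset

namespace Pool.Agent.Lib.MP_d57abb_nt.Ev

open Pool.Agent.Lib.MP_d57abb_nt Pool.Agent.Lib.MP_d57abb_nt.All Pool.Agent.Lib.MP_d57abb_nt.AP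

private theorem FrmV_ml_assoc (x y z : ℤ × ℤ) : ml x (ml y z) = ml (ml x y) z := by
  unfold ml
  ext
  · simp only
    ring
  · simp only
    ring

private theorem FrmV_conj (x y : ℤ × ℤ) : ml x (ml (x.1 + 3 * x.2, -x.2) y) = nm x • y := by
  unfold ml nm
  ext
  · simp only [Prod.smul_fst, smul_eq_mul]
    ring
  · simp only [Prod.smul_snd, smul_eq_mul]
    ring

private theorem FrmV_lin (x A B : ℤ × ℤ) (j k : ℤ) :
    ml x (j • A + k • B) = j • ml x A + k • ml x B := by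
  unfold ml
  ext
  · simp only [Prod.fst_add, Prod.snd_add, Prod.smul_fst, Prod.smul_snd, smul_eq_mul]
    ring
  · simp only [Prod.fst_add, Prod.snd_add, Prod.smul_fst, Prod.smul_snd, smul_eq_mul]
    ring

private theorem FrmV_dt (x y z : ℤ × ℤ) : dt (ml x y) (ml x z) = nm x * dt y z := by
  unfold ml dt nm
  simp only
  ring

private theorem FrmV_dt2 (A B : ℤ × ℤ) (i j k l : ℤ) :
    dt (i • A + j • B) (k • A + l • B) = (i * l - k * j) * dt A B := by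
  unfold dt
  simp only [Prod.fst_add, Prod.snd_add, Prod.smul_fst, Prod.smul_snd, smul_eq_mul]
  ring

private theorem FrmV_TP_add {x y : ℤ × ℤ} (hx : TP x) (hy : TP y) (j k : ℕ) (hj : 0 < j) :
    TP ((j : ℤ) • x + (k : ℤ) • y) := by
  have h : (0 : ℝ) ≤ ((k : ℤ) : ℝ) := by positivity
  have h' : (0 : ℝ) < ((j : ℤ) : ℝ) := by exact_mod_cast hj
  refine ⟨?_, ?_⟩
  · rw [pp_add, pp_smul, pp_smul]
    exact add_pos_of_pos_of_nonneg (mul_pos h' hx.1) (mul_nonneg h hy.1.le)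
  · rw [qq_add, qq_smul, qq_smul]
    exact add_pos_of_pos_of_nonneg (mul_pos h' hx.2) (mul_nonneg h hy.2.le)

private theorem FrmV_TP_of {x y : ℤ × ℤ} (hx : TP x) (hy : TP (ml x y)) : TP y := by
  obtain ⟨h1, h2⟩ := hy
  rw [pp_ml] at h1
  rw [qq_ml] at h2
  exact ⟨(mul_pos_iff_of_pos_left hx.1).1 h1, (mul_pos_iff_of_pos_left hx.2).1 h2⟩

private theorem FrmV_lam {m : ℕ} {h : ℕ → ZMod m} (hh : Add h) {x y : ℤ × ℤ} {d : ℕ} (hd : 0 < d)
    (hx : nm x = d) (hy : TP y) : lam h (ml x y) = h d + lam h y := by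
  have hy0 := hy.nm_pos
  unfold lam
  rw [nm_ml, hx, Int.natAbs_mul, Int.natAbs_natCast]
  exact hh _ _ hd (Int.natAbs_pos.2 hy0.ne')

private theorem FrmV_odd {d : ℕ} (hd : Spl d) : ¬ 2 ∣ d := by
  intro h
  have := hd.2 2 Nat.prime_two h
  omega

private theorem FrmV_idx {x y X : ℕ} (hx : x = 1 ∨ x = 2) (hy : y ≤ X) (h : x = 2 → ¬ 2 ∣ y) :
    (x, y) ∈ idx X := by
  unfold idx
  rw [mem_filter, mem_product, mem_range]
  refine ⟨⟨?_, by simp only; omega⟩, ?_⟩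
  · rcases hx with rfl | rfl
    · simp
    · simp
  · rcases hx with rfl | rfl
    · exact Nat.coprime_one_left y
    · exact (Nat.Prime.coprime_iff_not_dvd Nat.prime_two).2 (h rfl)

theorem frame_of_propV {m : ℕ} {h : ℕ → ZMod m} (hh : Add h) {c : ZMod m} {X : ℕ} (hX : PropV h c X)
    {δ₀ : ℤ × ℤ} {dl co : ℕ → ℤ × ℤ} (ht : TP δ₀) (hS : Sys X δ₀ dl co) {u v : ℤ × ℤ} (hu : TP u)
    (hv : TP v) (hd : dt (ml δ₀ u) v = 1) :
    ∃ (x y x' y' d : ℕ) (u' u'' : ℤ × ℤ), (x, y) ∈ idx X ∧ (x', y') ∈ idx X ∧ Spl d ∧ d ≤ X ∧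
      x * y' = x' * y + d ∧ TP u' ∧ TP u'' ∧ dt u' u'' = 1 ∧
      ml (dl d) u' = fv (ml δ₀ u) v x y ∧ ml (dl d) u'' = fv (ml δ₀ u) v x' y' ∧
      lam h u' + lam h u'' = c := by
  obtain ⟨z, hz⟩ : ∃ z, z = ml δ₀ u := ⟨_, rfl⟩
  rw [← hz] at hd ⊢
  have hzT : TP z := by rw [hz]; exact ht.ml hu
  obtain ⟨x, y, x', y', d, hx, hx', hSpl, ⟨s, hs⟩, ⟨s', hs'⟩, hyX, hy'X, hxy, hb⟩ :=
    hX (fun x y => lam h (fv z v x y))
  have hd0 : 0 < d := hSpl.1
  have hodd := FrmV_odd hSpl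
  have hy'0 : 0 < y' := by
    rcases Nat.eq_zero_or_pos y' with h0 | h0
    · rw [h0, mul_zero] at hxy
      omega
    · exact h0
  have hdX : d ≤ X := (Nat.le_of_dvd hy'0 ⟨s', hs'⟩).trans hy'X
  obtain ⟨hdl, hdln, hco, hdc⟩ := hS d hSpl hdX
  obtain ⟨A, hA⟩ : ∃ A, A = ml (co d) u := ⟨_, rfl⟩
  obtain ⟨B', hB'⟩ : ∃ B', B' = ml ((dl d).1 + 3 * (dl d).2, -(dl d).2) v := ⟨_, rfl⟩
  have hmA : ml (dl d) A = z := by rw [hA, FrmV_ml_assoc, hdc, hz]
  have hmB : ml (dl d) B' = (d : ℤ) • v := by rw [hB', FrmV_conj, hdln]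
  have hmk : ∀ j k : ℕ, ml (dl d) ((j : ℤ) • A + (k : ℤ) • B') = fv z v j (d * k) := by
    intro j k
    unfold fv
    rw [FrmV_lin, hmA, hmB, smul_smul]
    have e : (k : ℤ) * (d : ℤ) = ((d * k : ℕ) : ℤ) := by
      push_cast
      ring
    rw [e]
  have hkT : ∀ j k : ℕ, 0 < j → TP ((j : ℤ) • A + (k : ℤ) • B') := by
    intro j k hj
    refine FrmV_TP_of hdl ?_
    rw [hmk]
    unfold fv
    exact FrmV_TP_add hzT hv _ _ hj
  have hAB : dt A B' = 1 := by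
    have h1 := FrmV_dt (dl d) A B'
    rw [hmA, hmB, dt_smul_right, hd, hdln, mul_one] at h1
    have h2 : (d : ℤ) ≠ 0 := by exact_mod_cast hd0.ne'
    have h3 : (d : ℤ) * dt A B' = d * 1 := by rw [mul_one]; exact h1.symm
    exact mul_left_cancel₀ h2 h3
  have hlamk : ∀ j k : ℕ, 0 < j →
      lam h (fv z v j (d * k)) = h d + lam h ((j : ℤ) • A + (k : ℤ) • B') := by
    intro j k hj
    rw [← hmk, FrmV_lam hh hd0 hdln (hkT j k hj)]
  have hx0 : 0 < x := by omega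
  have hx'0 : 0 < x' := by omega
  have hss : x * s' = x' * s + 1 := by
    have h1 : d * (x * s') = d * (x' * s + 1) := by
      rw [hs, hs'] at hxy
      linarith [hxy]
    exact Nat.eq_of_mul_eq_mul_left hd0 h1
  refine ⟨x, y, x', y', d, (x : ℤ) • A + (s : ℤ) • B', (x' : ℤ) • A + (s' : ℤ) • B',
    ?_, ?_, hSpl, hdX, hxy, hkT x s hx0, hkT x' s' hx'0, ?_, ?_, ?_, ?_⟩
  · refine FrmV_idx hx hyX ?_
    rintro rfl h2
    apply hodd
    have h3 : 2 ∣ x' * y + d := ⟨y', hxy.symm⟩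
    exact (Nat.dvd_add_right (h2.mul_left x')).1 h3
  · refine FrmV_idx hx' hy'X ?_
    rintro rfl h2
    apply hodd
    have h3 : 2 ∣ 2 * y + d := by
      rw [← hxy]
      exact h2.mul_left x
    exact (Nat.dvd_add_right (Dvd.intro y rfl)).1 h3
  · rw [FrmV_dt2, hAB, mul_one]
    have h4 : (x : ℤ) * s' = x' * s + 1 := by exact_mod_cast hss
    linarith
  · rw [hmk, hs]
  · rw [hmk, hs']
  · have e1 : lam h (fv z v x y) = h d + lam h ((x : ℤ) • A + (s : ℤ) • B') := by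
      rw [hs]
      exact hlamk x s hx0
    have e2 : lam h (fv z v x' y') = h d + lam h ((x' : ℤ) • A + (s' : ℤ) • B') := by
      rw [hs']
      exact hlamk x' s' hx'0
    have hb' : lam h (fv z v x y) + lam h (fv z v x' y') = c + 2 * h d := hb
    rw [e1, e2] at hb'
    linear_combination hb'

end Pool.Agent.Lib.MP_d57abb_nt.Ev
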