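import Mathlib
import Pool.Agent.Lib.MP_d57abb_nt.AP.Base
import Pool.Agent.Lib.MP_d57abb_nt.Ev.FrmV
import Pool.Agent.Lib.MP_d57abb_nt.Ev.SzV

/-!
# JOB BsV: the frame attached to `(a, b)`

PROOF.  `z₀ = (a, b)`, `v = (c, (1 + b c) / a)`: `TP`, `dt z₀ v = 1` (`zv_frame`).  `z₀ ≡ (1, B) (mod G)`, `G = (w!)^E`, `nm δ₀ ∣ w! ∣ G` (`P.E1`), so `z₀ = ml δ₀ u` by `div_of_mod` (`AP/Base.lean`) with `P.base`; `u` is totally positive (`pp_ml`, `qq_ml`, `z₀` and `δ₀` are).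
`frame_of_propV` with `c := 2 * cc` (`P.prop cc`) gives everything (`fv (ml δ₀ u) v x y = zv a b c x y` by definition).  `nm (zv a b c x y) = nm (dl d) * nm u' = d * nm u'` (`nm_ml`, `P.sys`), so `(nm u').natAbs ∣ (nm (zv ..)).natAbs` and `nm u' ≤ nm (zv ..) ≤ 5 (X + 2)² max(a, b)²` by `sizeV` (`nm u' > 0`, `d ≥ 1`).
PROOF of `exists_propXV`: `X c` from `hB c`, `X = ∑ c, X c`; `PropV` is monotone in `X`.
-/

open Finset

namespace Pool.Agent.Lib.MP_d57abb_nt.Ev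

open Pool.Agent.Lib.MP_d57abb_nt Pool.Agent.Lib.MP_d57abb_nt.All Pool.Agent.Lib.MP_d57abb_nt.AP

theorem frame_ab {m : ℕ} {h : ℕ → ZMod m} {X : ℕ} {δ₀ u₀ : ℤ × ℤ} {dl co : ℕ → ℤ × ℤ} {B w E : ℕ}
    (P : ParV h X δ₀ u₀ dl co B w E) (cc : ZMod m) (a b c : ℕ) (ha : 1 ≤ a) (hb : 1 ≤ b) (hc : c < a)
    (hdv : a ∣ 1 + b * c) (ha1 : a ≡ 1 [MOD w.factorial ^ E]) (hb1 : b ≡ B [MOD w.factorial ^ E]) :
    ∃ (x y x' y' d : ℕ) (u' u'' : ℤ × ℤ), (x, y) ∈ idx X ∧ (x', y') ∈ idx X ∧ Spl d ∧ d ≤ X ∧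
      x * y' = x' * y + d ∧ TP u' ∧ TP u'' ∧ dt u' u'' = 1 ∧
      ml (dl d) u' = zv a b c x y ∧ ml (dl d) u'' = zv a b c x' y' ∧ lam h u' + lam h u'' = 2 * cc ∧
      (nm u').natAbs ∣ (nm (zv a b c x y)).natAbs ∧ (nm u'').natAbs ∣ (nm (zv a b c x' y')).natAbs ∧
      nm (zv a b c x y) = d * nm u' ∧ nm (zv a b c x' y') = d * nm u'' ∧
      nm u' ≤ 5 * ((X : ℤ) + 2) ^ 2 * (max (a : ℤ) b) ^ 2 ∧
      nm u'' ≤ 5 * ((X : ℤ) + 2) ^ 2 * (max (a : ℤ) b) ^ 2 := by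
  obtain ⟨hz0, hv, hdt⟩ := zv_frame a b c ha hdv
  have hG : nm δ₀ ∣ ((w.factorial ^ E : ℕ) : ℤ) := by
    refine P.hM.trans ?_
    rw [Int.natCast_dvd_natCast]
    exact dvd_pow_self _ (by have := P.E1; omega)
  have h1 : ((w.factorial ^ E : ℕ) : ℤ) ∣ ((a : ℤ), (b : ℤ)).1 - 1 := by
    have h2 := (Nat.modEq_iff_dvd).1 ha1
    have h3 := (dvd_neg).2 h2
    rw [neg_sub, Nat.cast_one] at h3
    exact h3
  have h2 : ((w.factorial ^ E : ℕ) : ℤ) ∣ ((a : ℤ), (b : ℤ)).2 - B := by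
    have h2 := (Nat.modEq_iff_dvd).1 hb1
    have h3 := (dvd_neg).2 h2
    rw [neg_sub] at h3
    exact h3
  obtain ⟨u, hu⟩ := div_of_mod δ₀ B u₀ P.base _ hG _ h1 h2
  have hut : TP u := by
    constructor
    · have h3 := hz0.1
      rw [← hu, pp_ml] at h3
      exact (mul_pos_iff_of_pos_left P.tp.1).1 h3
    · have h3 := hz0.2
      rw [← hu, qq_ml] at h3
      exact (mul_pos_iff_of_pos_left P.tp.2).1 h3
  obtain ⟨x, y, x', y', d, u', u'', hi, hi', hs, hdX, hxy, ht', ht'', hd1, hm', hm'', hl⟩ :=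
    frame_of_propV P.add (P.prop cc) P.tp P.sys hut hv (by rw [hu]; exact hdt)
  rw [hu] at hm' hm''
  have hm1 : ml (dl d) u' = zv a b c x y := hm'
  have hm2 : ml (dl d) u'' = zv a b c x' y' := hm''
  have hnd : nm (dl d) = d := (P.sys d hs hdX).2.1
  have hn1 : nm (zv a b c x y) = d * nm u' := by rw [← hm1, nm_ml, hnd]
  have hn2 : nm (zv a b c x' y') = d * nm u'' := by rw [← hm2, nm_ml, hnd]
  have hd0 : (1 : ℤ) ≤ d := by exact_mod_cast hs.1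
  have hi1 := mem_idx.1 hi
  have hi2 := mem_idx.1 hi'
  have hs1 := (sizeV a b c x y X ha hb hc hi1.1 hi1.2.1).2.2.2.2.2
  have hs2 := (sizeV a b c x' y' X ha hb hc hi2.1 hi2.2.1).2.2.2.2.2
  have hp1 := ht'.nm_pos
  have hp2 := ht''.nm_pos
  refine ⟨x, y, x', y', d, u', u'', hi, hi', hs, hdX, hxy, ht', ht'', hd1, hm1, hm2, hl, ?_, ?_,
    hn1, hn2, ?_, ?_⟩
  · rw [hn1, Int.natAbs_dvd_natAbs]
    exact Dvd.intro_left _ rfl
  · rw [hn2, Int.natAbs_dvd_natAbs]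
    exact Dvd.intro_left _ rfl
  · rw [hn1] at hs1
    refine le_trans ?_ hs1
    nlinarith
  · rw [hn2] at hs2
    refine le_trans ?_ hs2
    nlinarith

theorem exists_propXV {m : ℕ} [NeZero m] {h : ℕ → ZMod m} (hB : ∀ c, ∃ X, PropV h (2 * c) X) :
    ∃ X : ℕ, ∀ c, PropV h (2 * c) X := by
  choose X hX using hB
  refine ⟨∑ c : ZMod m, X c, fun c b => ?_⟩
  obtain ⟨x, y, x', y', d, h1, h2, h3, h4, h5, h6, h7, h8, h9⟩ := hX c b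
  have hle : X c ≤ ∑ c : ZMod m, X c :=
    Finset.single_le_sum (f := X) (fun _ _ => Nat.zero_le _) (Finset.mem_univ c)
  exact ⟨x, y, x', y', d, h1, h2, h3, h4, h5, h6.trans hle, h7.trans hle, h8, h9⟩

end Pool.Agent.Lib.MP_d57abb_nt.Ev
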