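import Mathlib
import Pool.Agent.Lib.MP_d57abb_nt.Ev.Defs

/-!
# JOB Comb: the combinatorial lemma on three sets of types

PROOF.  (1) `par x = x.val % 2`; if `par x = par y` then `x + y = ((x.val + y.val : ℕ) : ZMod m) = 2 * ((x.val + y.val) / 2 : ℕ)`, so there is `g` with `x + y = 2 * g`.
(2) `TA m` has `2 m + 1` elements, so for some `s ∈ {0, 1}` at least `m + 1` of the `a` have `par (α a) = s` (`Finset.exists_lt_card_fiber_of_mul_lt_card_of_maps_to`); choose `m + 1` of them: an injective map
`Fin (m + 1) → TA m`, `i ↦ r i`, with `par (α (r i)) = s`; put `u b = r b.val` for `b : ZMod m` (injective, `b.val < m`) and `f = r m` (the free one, not in the image of `u`).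
(3) For `b' : ZMod m` let `e b' : TB m` be the function with `e b' (u b) = half (α (u b) + b)` where `half z = (z.val... )` is a chosen `g` with `2 g = z` if there is one (and `0` otherwise: `Classical`), `e b' f = b'`, and `0` at all other
elements.  `b' ↦ e b'` is injective.  If `par (β (e b')) = s` for some `b'`, put `b = β (e b')`: `α (u b) + b` is `2 g` by (1), `e b' (u b) = g`, so `α (u b) + β (e b') = 2 * e b' (u b)`: the first alternative.
(4) Otherwise `par (β (e b')) = 1 - s` for all `b'`.  Let `c : TC m` with `c.1 (u b) = half (α (u b) + b)` (and `0` elsewhere) and `c.2 (e b') = half (β (e b') + b')` (and `0` elsewhere; well defined since `e` is injective: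
`Function.extend` or `if h : ∃ b', e b' = x`).  Let `δ = ζ c`.  If `par δ = s`: `α (u δ) + δ = 2 * c.1 (u δ)`, the second alternative.  If `par δ = 1 - s`: `β (e δ) + δ = 2 * c.2 (e δ)`, the third.
-/

namespace Pool.Agent.Lib.MP_d57abb_nt.Ev

private theorem Comb_par {m : ℕ} [NeZero m] {x y : ZMod m} (h : x.val % 2 = y.val % 2) :
    ∃ g : ZMod m, x + y = 2 * g := by
  refine ⟨(((x.val + y.val) / 2 : ℕ) : ZMod m), ?_⟩
  have h1 : x.val + y.val = 2 * ((x.val + y.val) / 2) := by omega
  have h2 : x + y = ((x.val + y.val : ℕ) : ZMod m) := by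
    rw [Nat.cast_add, ZMod.natCast_zmod_val, ZMod.natCast_zmod_val]
  rw [h2]
  have h3 : ((x.val + y.val : ℕ) : ZMod m) = ((2 * ((x.val + y.val) / 2) : ℕ) : ZMod m) := by
    rw [← h1]
  rw [h3, Nat.cast_mul]
  rfl

theorem comb (m : ℕ) [NeZero m] (α : TA m → ZMod m) (β : TB m → ZMod m) (ζ : TC m → ZMod m) :
    (∃ a : TA m, ∃ b : TB m, α a + β b = 2 * b a) ∨ (∃ a : TA m, ∃ c : TC m, α a + ζ c = 2 * c.1 a) ∨
      (∃ b : TB m, ∃ c : TC m, β b + ζ c = 2 * c.2 b) := by
  classical
  obtain ⟨half, hhalf⟩ : ∃ half : ZMod m → ZMod m, ∀ z, (∃ g, z = 2 * g) → z = 2 * half z :=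
    ⟨fun z => if h : ∃ g, z = 2 * g then h.choose else 0, fun z h => by
      simp only [dif_pos h]
      exact h.choose_spec⟩
  -- the pigeonhole
  obtain ⟨s, hs, hcard⟩ := Finset.exists_lt_card_fiber_of_mul_lt_card_of_maps_to
    (s := (Finset.univ : Finset (TA m))) (t := Finset.range 2) (f := fun a => (α a).val % 2) (n := m)
    (fun a _ => Finset.mem_range.2 (Nat.mod_lt _ (by norm_num)))
    (by rw [Finset.card_range, Finset.card_univ, Fintype.card_fin]; omega)
  rw [Finset.mem_range] at hs
  obtain ⟨S, hS⟩ : ∃ S : Finset (TA m), S = Finset.univ.filter (fun a => (α a).val % 2 = s) :=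
    ⟨_, rfl⟩
  rw [← hS] at hcard
  have hr := fun i => Finset.orderEmbOfCardLe_mem S (Nat.succ_le_of_lt hcard) i
  obtain ⟨r, hrd⟩ : ∃ r : Fin (m + 1) → TA m, r = fun i => Finset.orderEmbOfCardLe S (Nat.succ_le_of_lt hcard) i :=
    ⟨_, rfl⟩
  have hri : Function.Injective r := by
    rw [hrd]
    exact (Finset.orderEmbOfCardLe S (Nat.succ_le_of_lt hcard)).injective
  have hrs : ∀ i, (α (r i)).val % 2 = s := by
    intro i
    have h1 : r i ∈ S := by
      rw [hrd]
      exact hr i
    rw [hS] at h1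
    exact (Finset.mem_filter.1 h1).2
  obtain ⟨u, hu⟩ : ∃ u : ZMod m → TA m, ∀ b, u b = r ⟨b.val, (ZMod.val_lt b).trans (Nat.lt_succ_self m)⟩ :=
    ⟨fun b => r ⟨b.val, (ZMod.val_lt b).trans (Nat.lt_succ_self m)⟩, fun b => rfl⟩
  obtain ⟨f, hf⟩ : ∃ f : TA m, f = r ⟨m, Nat.lt_succ_self m⟩ := ⟨_, rfl⟩
  have hui : Function.Injective u := by
    intro b b' h
    rw [hu, hu] at h
    have h1 := hri h
    rw [Fin.mk.injEq] at h1
    exact ZMod.val_injective m h1
  have huf : ∀ b, u b ≠ f := by
    intro b h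
    rw [hu, hf] at h
    have h1 := hri h
    rw [Fin.mk.injEq] at h1
    have h2 := ZMod.val_lt b
    omega
  have hus : ∀ b, (α (u b)).val % 2 = s := by
    intro b
    rw [hu]
    exact hrs _
  have hinv : ∀ b, Function.invFun u (u b) = b := Function.leftInverse_invFun hui
  obtain ⟨e, he⟩ : ∃ e : ZMod m → TB m, ∀ b' x, e b' x =
      if x = f then b' else half (α x + Function.invFun u x) := ⟨_, fun b' x => rfl⟩
  have heu : ∀ b' b, e b' (u b) = half (α (u b) + b) := by
    intro b' b
    rw [he, if_neg (huf b), hinv]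
  have hei : Function.Injective e := by
    intro b b' h
    have h1 := congrFun h f
    rw [he, he, if_pos rfl, if_pos rfl] at h1
    exact h1
  have hinv2 : ∀ b, Function.invFun e (e b) = b := Function.leftInverse_invFun hei
  by_cases hc : ∃ b', (β (e b')).val % 2 = s
  · obtain ⟨b', hb'⟩ := hc
    left
    refine ⟨u (β (e b')), e b', ?_⟩
    rw [heu]
    exact hhalf _ (Comb_par (by rw [hus, hb']))
  · push Not at hc
    obtain ⟨c, hc1, hc2⟩ : ∃ c : TC m, (∀ b, c.1 (u b) = half (α (u b) + b)) ∧
        ∀ b', c.2 (e b') = half (β (e b') + b') := by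
      refine ⟨(fun x => half (α x + Function.invFun u x), fun y => half (β y + Function.invFun e y)),
        fun b => ?_, fun b' => ?_⟩
      · show half (α (u b) + Function.invFun u (u b)) = _
        rw [hinv]
      · show half (β (e b') + Function.invFun e (e b')) = _
        rw [hinv2]
    by_cases hd : (ζ c).val % 2 = s
    · right
      left
      refine ⟨u (ζ c), c, ?_⟩
      rw [hc1]
      exact hhalf _ (Comb_par (by rw [hus, hd]))
    · right
      right
      refine ⟨e (ζ c), c, ?_⟩
      rw [hc2]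
      refine hhalf _ (Comb_par ?_)
      have h1 := hc (ζ c)
      omega

end Pool.Agent.Lib.MP_d57abb_nt.Ev
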