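import Mathlib
import Pool.Agent.Lib.MP_d57abb_nt.Ev.BsV
import Pool.Agent.Lib.MP_d57abb_nt.Ev.MulV

/-!
# JOB CouE: counting

PROOF (model: `SS_le` in `AP/Cou.lean`).  To `(a, b) ∈ Good` attach, with `c = cz a b` (`cz_spec`) and the data of `frame_ab`, the element `((k, n₁), (x, y), (x', y'))`, `k = kk u' u''`, `n₁ = nm u'` (natural numbers) of
`(S.sigma (fun k => (k² + 3k + 1).divisors)) ×ˢ (idx X ×ˢ idx X)`, `S = {k ∈ FG h (2 cc) N : |divisors (k² + 3 k + 1)| ≤ T²}`, `N = 5 (X+2)² A²`: `kk_eq` (`k² + 3 k + 1 = nm u' * nm u''`), `h (k² + 3k + 1) = lam h u' + lam h u'' = 2 cc`; `|divisors (nm u' nm u'')| ≤ |divisors (nm u')| |divisors (nm u'')| ≤ T²`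
(`dv_mul_le` in `Three/Mom` or `Nat.divisors_mul`/`Finset.card_image_le`; `nm u'` divides the norm of the vector of index `(x, y)`, which has at most `T` divisors by the definition of `Good`, `Nat.divisors_subset_of_dvd`); `k ≤ N` by `kk_le`.  `k ≥ 1`: if `k = 0` then `nm u' = 1`, `nm (zv ..) = d ≤ X`, but `nm (zv ..) ≥ a²` and also `≥ b²`
(second coordinate): so `a, b ≤ X`; the elements with `a, b ≤ X` are excluded: count only the elements of `Good` not in `[1, X]²`, there are at most `X²` others.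
By `line_uniqueV` (`d = x y' - x' y` is determined) two elements with the same datum are equal (`z₀ = (a, b)`).  So `|Good| ≤ X² + ∑_{k ∈ S} |divisors (k² + 3k + 1)| |idx X|² ≤ X² + |FG| T² (2 (X + 1))²`.
-/

open Finset

namespace Pool.Agent.Lib.MP_d57abb_nt.Ev

open Pool.Agent.Lib.MP_d57abb_nt Pool.Agent.Lib.MP_d57abb_nt.All Pool.Agent.Lib.MP_d57abb_nt.AP

private theorem couE_mul (a b : ℕ) : (a * b).divisors.card ≤ a.divisors.card * b.divisors.card := by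
  rw [Nat.divisors_mul]
  exact Finset.card_mul_le

/-- the relation between a starting vector and its datum -/
private def couE_R (X : ℕ) (dl : ℕ → ℤ × ℤ) (z : ℕ × ℕ) (t : (Σ _ : ℕ, ℕ) × ((ℕ × ℕ) × (ℕ × ℕ))) : Prop :=
  ∃ (d : ℕ) (u' u'' : ℤ × ℤ), Spl d ∧ d ≤ X ∧ t.2.1.1 * t.2.2.2 = t.2.2.1 * t.2.1.2 + d ∧ TP u' ∧ TP u'' ∧
    dt u' u'' = 1 ∧ ml (dl d) u' = zv z.1 z.2 (cz z.1 z.2) t.2.1.1 t.2.1.2 ∧
    ml (dl d) u'' = zv z.1 z.2 (cz z.1 z.2) t.2.2.1 t.2.2.2 ∧ kk u' u'' = (t.1.1 : ℤ) ∧ nm u' = (t.1.2 : ℤ)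

private theorem couE_uniq {m : ℕ} {h : ℕ → ZMod m} {X : ℕ} {δ₀ u₀ : ℤ × ℤ} {dl co : ℕ → ℤ × ℤ}
    {B w E : ℕ} (P : ParV h X δ₀ u₀ dl co B w E) {z z' : ℕ × ℕ}
    {t : (Σ _ : ℕ, ℕ) × ((ℕ × ℕ) × (ℕ × ℕ))} (ht : 1 ≤ t.2.1.1) (hz : 1 ≤ z.1) (hz' : 1 ≤ z'.1)
    (h1 : couE_R X dl z t) (h2 : couE_R X dl z' t) : z = z' := by
  obtain ⟨a, b⟩ := z
  obtain ⟨a', b'⟩ := z'
  obtain ⟨⟨k, n⟩, ⟨x, y⟩, ⟨x', y'⟩⟩ := t
  obtain ⟨d, u₁, v₁, hs, hdX, hdet, p1, p2, p3, p4, p5, p6, p7⟩ := h1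
  obtain ⟨d', u₂, v₂, _, _, hdet', q1, q2, q3, q4, q5, q6, q7⟩ := h2
  simp only at ht hz hz' hdet hdet' p4 p5 p6 p7 q4 q5 q6 q7
  have hdd : d' = d := by omega
  rw [hdd] at q4 q5
  have hk : kk u₁ v₁ = kk u₂ v₂ := p6.trans q6.symm
  have hn : nm u₁ = nm u₂ := p7.trans q7.symm
  have key := line_uniqueV hs.1 ht hdet (P.sys d hs hdX).1 p1 p2 q1 q2 p3 q3 hk hn p4 p5 q4 q5
    (by show (1 : ℤ) ≤ (a : ℤ); exact_mod_cast hz) (by show (0 : ℤ) ≤ (b : ℤ); positivity)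
    (Int.natCast_nonneg _) (Int.natCast_nonneg _)
    (by show (1 : ℤ) ≤ (a' : ℤ); exact_mod_cast hz') (by show (0 : ℤ) ≤ (b' : ℤ); positivity)
    (Int.natCast_nonneg _) (Int.natCast_nonneg _)
  have e1 : (a : ℤ) = a' := congrArg Prod.fst key.1
  have e2 : (b : ℤ) = b' := congrArg Prod.snd key.1
  have e1' : a = a' := by exact_mod_cast e1
  have e2' : b = b' := by exact_mod_cast e2
  rw [e1', e2']

private theorem couE_mem {A G B X T : ℕ} {z : ℕ × ℕ} (hz : z ∈ Good A G B X T) : z ∈ Pc A ∧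
    (z.1 ≡ 1 [MOD G] ∧ z.2 ≡ B [MOD G]) ∧
    ∀ i ∈ idx X, (nm (zv z.1 z.2 (cz z.1 z.2) i.1 i.2)).natAbs.divisors.card ≤ T := by
  unfold Good at hz
  exact mem_filter.1 hz

private theorem couE_Pc {A : ℕ} {z : ℕ × ℕ} (hz : z ∈ Pc A) :
    1 ≤ z.1 ∧ z.1 ≤ A ∧ 1 ≤ z.2 ∧ z.2 ≤ A ∧ Nat.Coprime z.1 z.2 := by
  unfold Pc at hz
  rw [mem_filter, mem_product, mem_Icc, mem_Icc] at hz
  exact ⟨hz.1.1.1, hz.1.1.2, hz.1.2.1, hz.1.2.2, hz.2⟩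

private theorem couE_div {n₁ T : ℕ} {u z : ℤ × ℤ} (hu : nm u = (n₁ : ℤ)) (hz : 0 < nm z)
    (hd : (nm u).natAbs ∣ (nm z).natAbs) (hT : (nm z).natAbs.divisors.card ≤ T) : n₁.divisors.card ≤ T := by
  have h1 : (nm u).natAbs = n₁ := by rw [hu]; rfl
  rw [h1] at hd
  exact (card_le_card (Nat.divisors_subset_of_dvd (Int.natAbs_pos.2 hz.ne').ne' hd)).trans hT

private theorem couE_b (a b c x y : ℕ) (hx : 1 ≤ x) (h1 : 1 ≤ (zv a b c x y).1) :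
    (b : ℤ) ^ 2 ≤ nm (zv a b c x y) := by
  have h2 : (zv a b c x y).2 = (x : ℤ) * b + (y : ℤ) * (((1 + b * c) / a : ℕ) : ℤ) := by
    unfold zv fv
    simp only [Prod.snd_add, Prod.smul_snd, smul_eq_mul]
  have hy : (0 : ℤ) ≤ (y : ℤ) * (((1 + b * c) / a : ℕ) : ℤ) := by positivity
  have hb : (0 : ℤ) ≤ (b : ℤ) := by positivity
  have hx' : (1 : ℤ) ≤ (x : ℤ) := by exact_mod_cast hx
  have h3 : (b : ℤ) ≤ (zv a b c x y).2 := by
    rw [h2]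
    nlinarith
  have h4 : nm (zv a b c x y) = (zv a b c x y).1 ^ 2 + 3 * (zv a b c x y).1 * (zv a b c x y).2 +
    (zv a b c x y).2 ^ 2 := rfl
  rw [h4]
  have h5 : (b : ℤ) ^ 2 ≤ (zv a b c x y).2 ^ 2 := pow_le_pow_left₀ hb h3 2
  have h6 : 0 ≤ (zv a b c x y).1 * (zv a b c x y).2 := mul_nonneg (by linarith) (by linarith)
  nlinarith [sq_nonneg (zv a b c x y).1]

private theorem couE_sq {a d X : ℤ} (ha : 0 < a) (h : a ^ 2 ≤ d) (hd : d ≤ X) : a ≤ X := by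
  have h1 : a * 1 ≤ a * a := mul_le_mul_of_nonneg_left (by linarith) ha.le
  rw [pow_two] at h
  linarith

private theorem couE_ex {m : ℕ} {h : ℕ → ZMod m} {X : ℕ} {δ₀ u₀ : ℤ × ℤ} {dl co : ℕ → ℤ × ℤ}
    {B w E : ℕ} (P : ParV h X δ₀ u₀ dl co B w E) (cc : ZMod m) (A T : ℕ) {z : ℕ × ℕ}
    (hz : z ∈ Good A (w.factorial ^ E) B X T) (hzX : ¬ (z.1 ≤ X ∧ z.2 ≤ X)) :
    ∃ t ∈ (((FG h (2 * cc) (5 * (X + 2) ^ 2 * A ^ 2)).filter
      (fun k => (k ^ 2 + 3 * k + 1).divisors.card ≤ T ^ 2)).sigma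
        (fun k => (k ^ 2 + 3 * k + 1).divisors)) ×ˢ (idx X ×ˢ idx X), couE_R X dl z t := by
  obtain ⟨a, b⟩ := z
  obtain ⟨h1, ⟨h2, h3⟩, h4⟩ := couE_mem hz
  obtain ⟨ha, haA, hb, hbA, hab⟩ := couE_Pc h1
  simp only at ha haA hb hbA hab h2 h3 h4 hzX
  obtain ⟨hc, hcd⟩ := cz_spec a b ha hab
  obtain ⟨x, y, x', y', d, u', u'', hxy, hxy', hS, hdX, hdet, hu', hu'', hdt, e1, e2, hlam, hd1, hd2,
    hn, hn', hb1, hb2⟩ := frame_ab P cc a b (cz a b) ha hb hc hcd h2 h3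
  obtain ⟨hx1, hyX, -⟩ := mem_idx.1 hxy
  obtain ⟨hx1', hyX', -⟩ := mem_idx.1 hxy'
  have hsz := sizeV a b (cz a b) x y X ha hb hc hx1 hyX
  have hsz' := sizeV a b (cz a b) x' y' X ha hb hc hx1' hyX'
  have ha0 : (0 : ℤ) < (a : ℤ) := by exact_mod_cast ha
  have hp : 0 < nm (zv a b (cz a b) x y) := lt_of_lt_of_le (by positivity) hsz.2.2.2.2.1
  have hp' : 0 < nm (zv a b (cz a b) x' y') := lt_of_lt_of_le (by positivity) hsz'.2.2.2.2.1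
  have hmax : (max (a : ℤ) b) ^ 2 ≤ (A : ℤ) ^ 2 := by
    refine pow_le_pow_left₀ (le_max_of_le_left ha0.le) (max_le ?_ ?_) 2
    · exact_mod_cast haA
    · exact_mod_cast hbA
  have hX0 : (0 : ℤ) ≤ 5 * ((X : ℤ) + 2) ^ 2 := by positivity
  have hN := mul_le_mul_of_nonneg_left hmax hX0
  have hn1' : nm u' ≤ 5 * ((X : ℤ) + 2) ^ 2 * (A : ℤ) ^ 2 := hb1.trans hN
  have hn2' : nm u'' ≤ 5 * ((X : ℤ) + 2) ^ 2 * (A : ℤ) ^ 2 := hb2.trans hN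
  have hp1 := hu'.nm_pos
  have hp2 := hu''.nm_pos
  have hkn := kk_nonneg hu' hu'' hdt
  have hke := kk_eq hdt
  obtain ⟨k, hk⟩ := Int.eq_ofNat_of_zero_le hkn
  obtain ⟨n₁, hn₁⟩ := Int.eq_ofNat_of_zero_le hp1.le
  obtain ⟨n₂, hn₂⟩ := Int.eq_ofNat_of_zero_le hp2.le
  have h1pos : 0 < n₁ := by
    rw [hn₁] at hp1
    exact_mod_cast hp1
  have h2pos : 0 < n₂ := by
    rw [hn₂] at hp2
    exact_mod_cast hp2
  have hprod : k ^ 2 + 3 * k + 1 = n₁ * n₂ := by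
    rw [hk, hn₁, hn₂] at hke
    exact_mod_cast hke
  have hl1 : lam h u' = h n₁ := by
    unfold lam
    rw [hn₁]
    rfl
  have hl2 : lam h u'' = h n₂ := by
    unfold lam
    rw [hn₂]
    rfl
  have hkN : k ≤ 5 * (X + 2) ^ 2 * A ^ 2 := by
    have hr1 : (nm u' : ℝ) ≤ 5 * ((X : ℝ) + 2) ^ 2 * (A : ℝ) ^ 2 := by exact_mod_cast hn1'
    have hr2 : (nm u'' : ℝ) ≤ 5 * ((X : ℝ) + 2) ^ 2 * (A : ℝ) ^ 2 := by exact_mod_cast hn2'
    have h3 := kk_le hu' hu'' hdt (X := 5 * ((X : ℝ) + 2) ^ 2 * (A : ℝ) ^ 2) (by positivity) hr1 hr2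
    rw [hk] at h3
    have h4 : ((k : ℕ) : ℝ) ≤ 5 * ((X : ℝ) + 2) ^ 2 * (A : ℝ) ^ 2 := by
      exact_mod_cast h3
    exact_mod_cast h4
  have hk1 : 1 ≤ k := by
    by_contra hk0
    have hk0' : k = 0 := by omega
    rw [hk0'] at hprod
    have h3 : n₁ * n₂ = 1 := by omega
    have h5 : n₁ = 1 := Nat.eq_one_of_mul_eq_one_right h3
    have h6 : nm (zv a b (cz a b) x y) = (d : ℤ) := by
      rw [hn, hn₁, h5]
      simp
    have h7 := hsz.2.2.2.2.1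
    have h8 := couE_b a b (cz a b) x y (by omega) hsz.1
    rw [h6] at h7 h8
    have h9 : (d : ℤ) ≤ (X : ℤ) := by exact_mod_cast hdX
    apply hzX
    have hb0 : (0 : ℤ) < (b : ℤ) := by exact_mod_cast hb
    constructor
    · exact_mod_cast couE_sq ha0 h7 h9
    · exact_mod_cast couE_sq hb0 h8 h9
  have hT1 : n₁.divisors.card ≤ T := couE_div hn₁ hp hd1 (h4 (x, y) hxy)
  have hT2 : n₂.divisors.card ≤ T := couE_div hn₂ hp' hd2 (h4 (x', y') hxy')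
  refine ⟨(⟨k, n₁⟩, ((x, y), (x', y'))), ?_, ⟨d, u', u'', hS, hdX, hdet, hu', hu'', hdt, e1, e2, hk, hn₁⟩⟩
  rw [mem_product, mem_sigma, mem_product, mem_filter]
  refine ⟨⟨⟨?_, ?_⟩, ?_⟩, hxy, hxy'⟩
  · show k ∈ FG h (2 * cc) (5 * (X + 2) ^ 2 * A ^ 2)
    unfold FG
    rw [mem_filter, mem_Icc]
    refine ⟨⟨hk1, hkN⟩, ?_⟩
    rw [hprod, P.add n₁ n₂ h1pos h2pos, ← hl1, ← hl2]
    exact hlam
  · show (k ^ 2 + 3 * k + 1).divisors.card ≤ T ^ 2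
    rw [hprod, pow_two]
    exact (couE_mul n₁ n₂).trans (Nat.mul_le_mul hT1 hT2)
  · show n₁ ∈ (k ^ 2 + 3 * k + 1).divisors
    rw [Nat.mem_divisors]
    exact ⟨⟨n₂, hprod⟩, by positivity⟩

theorem good_le {m : ℕ} {h : ℕ → ZMod m} {X : ℕ} {δ₀ u₀ : ℤ × ℤ} {dl co : ℕ → ℤ × ℤ} {B w E : ℕ}
    (P : ParV h X δ₀ u₀ dl co B w E) (cc : ZMod m) (A T : ℕ) :
    (Good A (w.factorial ^ E) B X T).card ≤
      X ^ 2 + (FG h (2 * cc) (5 * (X + 2) ^ 2 * A ^ 2)).card * (T ^ 2 * (2 * (X + 1)) ^ 2) := by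
  have hsplit : (Good A (w.factorial ^ E) B X T).card =
      ((Good A (w.factorial ^ E) B X T).filter (fun z => z.1 ≤ X ∧ z.2 ≤ X)).card +
      ((Good A (w.factorial ^ E) B X T).filter (fun z => ¬ (z.1 ≤ X ∧ z.2 ≤ X))).card :=
    (Finset.card_filter_add_card_filter_not (fun z : ℕ × ℕ => z.1 ≤ X ∧ z.2 ≤ X)).symm
  rw [hsplit]
  have hpos : ∀ z ∈ Good A (w.factorial ^ E) B X T, 1 ≤ z.1 ∧ 1 ≤ z.2 := by
    intro z hz
    have h1 := couE_Pc (couE_mem hz).1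
    exact ⟨h1.1, h1.2.2.1⟩
  refine Nat.add_le_add ?_ ?_
  · have h1 : ((Good A (w.factorial ^ E) B X T).filter (fun z => z.1 ≤ X ∧ z.2 ≤ X)) ⊆
        Icc 1 X ×ˢ Icc 1 X := by
      intro z hz
      rw [mem_filter] at hz
      rw [mem_product, mem_Icc, mem_Icc]
      have h2 := hpos z hz.1
      exact ⟨⟨h2.1, hz.2.1⟩, ⟨h2.2, hz.2.2⟩⟩
    refine (card_le_card h1).trans (le_of_eq ?_)
    rw [card_product, Nat.card_Icc, Nat.add_sub_cancel, pow_two]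
  · have h1 : ((Good A (w.factorial ^ E) B X T).filter (fun z => ¬ (z.1 ≤ X ∧ z.2 ≤ X))).card ≤
        ((((FG h (2 * cc) (5 * (X + 2) ^ 2 * A ^ 2)).filter
          (fun k => (k ^ 2 + 3 * k + 1).divisors.card ≤ T ^ 2)).sigma
          (fun k => (k ^ 2 + 3 * k + 1).divisors)) ×ˢ (idx X ×ˢ idx X)).card := by
      refine card_le_card_of_forall_subsingleton (couE_R X dl)
        (fun z hz => couE_ex P cc A T (mem_filter.1 hz).1 (mem_filter.1 hz).2) ?_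
      intro t ht z hz z' hz'
      have h2 : 1 ≤ t.2.1.1 := by
        rw [mem_product, mem_product] at ht
        have h3 : t.2.1.1 = 1 ∨ t.2.1.1 = 2 :=
          (mem_idx.1 (show (t.2.1.1, t.2.1.2) ∈ idx X from ht.2.1)).1
        rcases h3 with h3 | h3 <;> rw [h3]
        norm_num
      exact couE_uniq P h2 (hpos z (mem_filter.1 hz.1).1).1 (hpos z' (mem_filter.1 hz'.1).1).1 hz.2 hz'.2
    refine h1.trans ?_
    rw [card_product, card_product, card_sigma]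
    have h2 : ∑ k ∈ (FG h (2 * cc) (5 * (X + 2) ^ 2 * A ^ 2)).filter
          (fun k => (k ^ 2 + 3 * k + 1).divisors.card ≤ T ^ 2), (k ^ 2 + 3 * k + 1).divisors.card ≤
        (FG h (2 * cc) (5 * (X + 2) ^ 2 * A ^ 2)).card * T ^ 2 := by
      refine (sum_le_card_nsmul _ _ (T ^ 2) (fun k hk => (mem_filter.1 hk).2)).trans ?_
      rw [smul_eq_mul]
      exact Nat.mul_le_mul_right _ (card_le_card (filter_subset _ _))
    have h3 : (idx X).card * (idx X).card ≤ (2 * (X + 1)) ^ 2 := by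
      rw [pow_two]
      exact Nat.mul_le_mul (card_idx X) (card_idx X)
    calc _ ≤ ((FG h (2 * cc) (5 * (X + 2) ^ 2 * A ^ 2)).card * T ^ 2) * (2 * (X + 1)) ^ 2 :=
          Nat.mul_le_mul h2 h3
      _ = _ := by ring

end Pool.Agent.Lib.MP_d57abb_nt.Ev
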