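import Mathlib
import Pool.Agent.Lib.MP_d57abb_nt.AP.Om
import Pool.Agent.Lib.MP_d57abb_nt.Ev.BsV

/-!
# JOB ElmV: the frame attached to an element of the sifted family

PROOF (adaptation of `AP/Elm.lean`, complete there).  `(b, c) ∈ Fam`: `b, c < a`, `a ∣ 1 + b c`, `b ≡ B`, `c ≡ 0 (mod G)`, `G = (w!)^E`; `b ≥ 1` (`a ≥ 2` does not divide `1`).  `frame_ab` gives the data; `max a b = a`.  For `(x, y) ∈ idx X`, `n = nm (zv a b c x y) > 0`: for a prime `q ≤ w`, `q^E ∤ n` by `small_valV` with `s = x B + y`: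
`zv a b c x y = (x a + y c, x b + y e) ≡ (x, x B + y) (mod G)` (`e ≡ a e = 1 + b c ≡ 1`), and `nm (x, x B + y) ≤ nm (2, 2 B + X) < 2^E`.  For a prime `q` in `(w, z]`: `q ∤ n` by the definition of `SiftV`.  So `omega_le` (`AP/Om.lean`) and `sizeV`: `Ω n ≤ w E + log (5 (X+2)² a²) / log z`, and `(nm u').natAbs` divides `n.natAbs`,
so `Ω (nm u') ≤ Ω n`.
-/

open Finset

namespace Pool.Agent.Lib.MP_d57abb_nt.Ev

open Pool.Agent.Lib.MP_d57abb_nt Pool.Agent.Lib.MP_d57abb_nt.All Pool.Agent.Lib.MP_d57abb_nt.AP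

private theorem ElmV_om {X B w E a b c z : ℕ} (hE : nm (2, ((2 * B + X : ℕ) : ℤ)) < 2 ^ E)
    (hz : 2 ≤ z) (ha0 : 1 ≤ a) (hb0 : 1 ≤ b) (hb : b < a) (hc : c < a)
    (hdvd : a ∣ 1 + b * c) (ha1 : ((w.factorial ^ E : ℕ) : ℤ) ∣ (a : ℤ) - 1)
    (hb1 : ((w.factorial ^ E : ℕ) : ℤ) ∣ (b : ℤ) - B) (hc1 : ((w.factorial ^ E : ℕ) : ℤ) ∣ (c : ℤ))
    (hs : ∀ q ∈ Pz z, w < q → ∀ i ∈ idx X, ¬ (q : ℤ) ∣ nm (zv a b c i.1 i.2))
    (x y : ℕ) (hi : (x, y) ∈ idx X) (u : ℤ × ℤ)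
    (hdu : (nm u).natAbs ∣ (nm (zv a b c x y)).natAbs) :
    (ArithmeticFunction.cardFactors (nm u).natAbs : ℝ) ≤
      w * E + Real.log (5 * ((X : ℝ) + 2) ^ 2 * (a : ℝ) ^ 2) / Real.log z := by
  obtain ⟨hx, hyX, -⟩ := mem_idx.1 hi
  obtain ⟨-, -, -, -, h1, h2⟩ := sizeV a b c x y X ha0 hb0 hc hx hyX
  have hmax : max (a : ℤ) b = a := max_eq_left (by exact_mod_cast hb.le)
  rw [hmax] at h2
  have ha2 : (0 : ℤ) < (a : ℤ) ^ 2 := by positivity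
  have hn0 : 0 < nm (zv a b c x y) := lt_of_lt_of_le ha2 h1
  set n : ℕ := (nm (zv a b c x y)).natAbs with hn
  have hnn : (n : ℤ) = nm (zv a b c x y) := Int.natAbs_of_nonneg hn0.le
  have hnpos : 0 < n := by
    rw [hn]
    exact Int.natAbs_pos.2 hn0.ne'
  have hOm : ArithmeticFunction.cardFactors (nm u).natAbs ≤ ArithmeticFunction.cardFactors n := by
    obtain ⟨k, hk⟩ := hdu
    have hk0 : k ≠ 0 := by
      rintro rfl
      rw [mul_zero] at hk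
      omega
    have hu0 : (nm u).natAbs ≠ 0 := by
      intro h0
      rw [h0, zero_mul] at hk
      omega
    rw [hk, ArithmeticFunction.cardFactors_mul hu0 hk0]
    exact Nat.le_add_right _ _
  obtain ⟨e, he⟩ := hdvd
  have hediv : (1 + b * c) / a = e := by
    rw [he]
    exact Nat.mul_div_cancel_left e (by omega)
  have heZ : (1 : ℤ) + b * c = a * e := by exact_mod_cast he
  have he1 : ((w.factorial ^ E : ℕ) : ℤ) ∣ (e : ℤ) - 1 := by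
    have e1 : (e : ℤ) - 1 = b * c - (a - 1) * e := by linear_combination -heZ
    rw [e1]
    exact dvd_sub (Dvd.dvd.mul_left hc1 _) (Dvd.dvd.mul_right ha1 _)
  have hv1 : (zv a b c x y).1 = (x : ℤ) * a + y * c := by
    simp only [zv, fv, Prod.fst_add, Prod.smul_fst, smul_eq_mul]
  have hv2 : (zv a b c x y).2 = (x : ℤ) * b + y * e := by
    simp only [zv, fv, Prod.snd_add, Prod.smul_snd, smul_eq_mul, hediv]
  have hz1 : ((w.factorial ^ E : ℕ) : ℤ) ∣ (zv a b c x y).1 - (x : ℤ) := by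
    have e1 : (zv a b c x y).1 - (x : ℤ) = (x : ℤ) * ((a : ℤ) - 1) + y * c := by
      rw [hv1]
      ring
    rw [e1]
    exact dvd_add (Dvd.dvd.mul_left ha1 _) (Dvd.dvd.mul_left hc1 _)
  have hz2 : ((w.factorial ^ E : ℕ) : ℤ) ∣ (zv a b c x y).2 - ((x * B + y : ℕ) : ℤ) := by
    have e1 : (zv a b c x y).2 - ((x * B + y : ℕ) : ℤ) = (x : ℤ) * ((b : ℤ) - B) + y * (e - 1) := by
      rw [hv2]
      push_cast
      ring
    rw [e1]
    exact dvd_add (Dvd.dvd.mul_left hb1 _) (Dvd.dvd.mul_left he1 _)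
  have hEs : nm ((x : ℤ), ((x * B + y : ℕ) : ℤ)) < 2 ^ E := by
    refine lt_of_le_of_lt ?_ hE
    unfold nm
    simp only
    have hx2 : x ≤ 2 := by omega
    have h3 : x * B + y ≤ 2 * B + X := by
      have := Nat.mul_le_mul_right B hx2
      omega
    have h3' : ((x * B + y : ℕ) : ℤ) ≤ ((2 * B + X : ℕ) : ℤ) := by exact_mod_cast h3
    have h4 : (0 : ℤ) ≤ ((x * B + y : ℕ) : ℤ) := Int.natCast_nonneg _
    have h5 : (x : ℤ) ≤ 2 := by exact_mod_cast hx2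
    have h6 : (0 : ℤ) ≤ (x : ℤ) := Int.natCast_nonneg _
    have e1 : (x : ℤ) ^ 2 ≤ 2 ^ 2 := pow_le_pow_left₀ h6 h5 2
    have e2 : (x : ℤ) * ((x * B + y : ℕ) : ℤ) ≤ 2 * ((2 * B + X : ℕ) : ℤ) :=
      mul_le_mul h5 h3' h4 (by norm_num)
    have e3 : ((x * B + y : ℕ) : ℤ) ^ 2 ≤ ((2 * B + X : ℕ) : ℤ) ^ 2 := pow_le_pow_left₀ h4 h3' 2
    linarith
  have hA : ∀ q : ℕ, q.Prime → q ≤ w → ¬ q ^ E ∣ n := by
    intro q hq hqw hdv
    refine small_valV w E x (x * B + y) q hq hqw (by omega) hEs (zv a b c x y) hz1 hz2 ?_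
    exact Int.natCast_dvd.2 hdv
  have hB : ∀ q : ℕ, q.Prime → w < q → q ≤ z → ¬ q ∣ n := by
    intro q hq hwq hqz hdv
    refine hs q ?_ hwq (x, y) hi (Int.natCast_dvd.2 hdv)
    simp only [Pz, mem_filter, mem_Icc]
    exact ⟨⟨hq.one_lt.le, hqz⟩, hq⟩
  have h5 := omega_le n hnpos w E z hz hA hB
  have hlz : 0 < Real.log z := Real.log_pos (by exact_mod_cast (by omega : 1 < z))
  have h6 : (n : ℝ) ≤ 5 * ((X : ℝ) + 2) ^ 2 * (a : ℝ) ^ 2 := by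
    have h7 : (n : ℤ) ≤ 5 * ((X : ℤ) + 2) ^ 2 * (a : ℤ) ^ 2 := by
      rw [hnn]
      exact h2
    exact_mod_cast h7
  have h8 : Real.log n ≤ Real.log (5 * ((X : ℝ) + 2) ^ 2 * (a : ℝ) ^ 2) :=
    Real.log_le_log (by exact_mod_cast hnpos) h6
  have h9 : Real.log n / Real.log z ≤ Real.log (5 * ((X : ℝ) + 2) ^ 2 * (a : ℝ) ^ 2) / Real.log z :=
    div_le_div_of_nonneg_right h8 hlz.le
  have h10 : (ArithmeticFunction.cardFactors (nm u).natAbs : ℝ) ≤ ArithmeticFunction.cardFactors n := by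
    exact_mod_cast hOm
  linarith

theorem elem_dataV {m : ℕ} {h : ℕ → ZMod m} {X : ℕ} {δ₀ u₀ : ℤ × ℤ} {dl co : ℕ → ℤ × ℤ} {B w E : ℕ}
    (P : ParV h X δ₀ u₀ dl co B w E) (cc : ZMod m) (a b c z : ℕ) (ha : a.Prime)
    (ha1 : a ≡ 1 [MOD w.factorial ^ E]) (hz : 2 ≤ z) (hx : (b, c) ∈ SiftV a (w.factorial ^ E) B X w z) :
    ∃ (x y x' y' d : ℕ) (u' u'' : ℤ × ℤ), (x, y) ∈ idx X ∧ (x', y') ∈ idx X ∧ Spl d ∧ d ≤ X ∧
      x * y' = x' * y + d ∧ TP u' ∧ TP u'' ∧ dt u' u'' = 1 ∧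
      ml (dl d) u' = zv a b c x y ∧ ml (dl d) u'' = zv a b c x' y' ∧ lam h u' + lam h u'' = 2 * cc ∧
      nm (zv a b c x y) = d * nm u' ∧
      nm u' ≤ 5 * ((X : ℤ) + 2) ^ 2 * (a : ℤ) ^ 2 ∧ nm u'' ≤ 5 * ((X : ℤ) + 2) ^ 2 * (a : ℤ) ^ 2 ∧
      (ArithmeticFunction.cardFactors (nm u').natAbs : ℝ) ≤
        w * E + Real.log (5 * ((X : ℝ) + 2) ^ 2 * (a : ℝ) ^ 2) / Real.log z ∧
      (ArithmeticFunction.cardFactors (nm u'').natAbs : ℝ) ≤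
        w * E + Real.log (5 * ((X : ℝ) + 2) ^ 2 * (a : ℝ) ^ 2) / Real.log z := by
  have hx' := hx
  simp only [SiftV, Fam, mem_filter, mem_product, mem_range] at hx'
  obtain ⟨⟨⟨hb, hc⟩, hdvd, hbB, hc0⟩, hsv⟩ := hx'
  have ha0 : 1 ≤ a := ha.pos
  have ha1' : ((w.factorial ^ E : ℕ) : ℤ) ∣ (a : ℤ) - 1 := by
    have := (Nat.modEq_iff_dvd.1 ha1.symm)
    push_cast at this ⊢
    exact this
  have hb1 : ((w.factorial ^ E : ℕ) : ℤ) ∣ (b : ℤ) - B := Nat.modEq_iff_dvd.1 hbB.symm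
  have hc1 : ((w.factorial ^ E : ℕ) : ℤ) ∣ (c : ℤ) := by
    have := Nat.modEq_iff_dvd.1 hc0.symm
    rwa [Nat.cast_zero, sub_zero] at this
  have hb0 : 1 ≤ b := by
    rcases Nat.eq_zero_or_pos b with h0 | h0
    · rw [h0, zero_mul, add_zero] at hdvd
      exact absurd (Nat.dvd_one.1 hdvd) ha.one_lt.ne'
    · exact h0
  obtain ⟨x, y, x', y', d, u', u'', i1, i2, hS, hdX, hdet, hT1, hT2, hdd, hm1, hm2, hlam, hd1, hd2,
    hn1, _, hs1, hs2⟩ := frame_ab P cc a b c ha0 hb0 hc hdvd ha1 hbB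
  have hmax : max (a : ℤ) b = a := max_eq_left (by exact_mod_cast hb.le)
  rw [hmax] at hs1 hs2
  refine ⟨x, y, x', y', d, u', u'', i1, i2, hS, hdX, hdet, hT1, hT2, hdd, hm1, hm2, hlam, hn1,
    hs1, hs2, ?_, ?_⟩
  · exact ElmV_om P.hE hz ha0 hb0 hb hc hdvd ha1' hb1 hc1 hsv x y i1 u' hd1
  · exact ElmV_om P.hE hz ha0 hb0 hb hc hdvd ha1' hb1 hc1 hsv x' y' i2 u'' hd2

end Pool.Agent.Lib.MP_d57abb_nt.Ev
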