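import Mathlib
import Pool.Agent.Lib.MP_d57abb_nt.AP.Cou
import Pool.Agent.Lib.MP_d57abb_nt.Ev.ElmV
import Pool.Agent.Lib.MP_d57abb_nt.Ev.MulV

/-!
# JOB CouV: counting

PROOF (adaptation of `SS_le` in `AP/Cou.lean`, complete there, with `elem_dataV`, `line_uniqueV`, `sizeV`).  The datum is `((k, n₁), (x, y), (x', y'))` with `(x, y), (x', y') ∈ idx X`; `d` is determined by `x y' = x' y + d`; `|idx X| ≤ 2 (X + 1)` (`card_idx`).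
`k ≥ 1`: if `k = 0` then `nm u' = 1`, `nm (zv a b c x y) = d ≤ X`, but it is `≥ a² > X` (`a > A / 2`, `hA`).
-/

open Finset

namespace Pool.Agent.Lib.MP_d57abb_nt.Ev

open Pool.Agent.Lib.MP_d57abb_nt Pool.Agent.Lib.MP_d57abb_nt.All Pool.Agent.Lib.MP_d57abb_nt.AP

/-- the relation between an element of the sifted family and its datum -/
private def CouV_R (X : ℕ) (dl : ℕ → ℤ × ℤ) (x : Σ _ : ℕ, ℕ × ℕ)
    (y : (Σ _ : ℕ, ℕ) × ((ℕ × ℕ) × (ℕ × ℕ))) : Prop :=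
  ∃ (d : ℕ) (u' u'' : ℤ × ℤ), Spl d ∧ d ≤ X ∧ 1 ≤ y.2.1.1 ∧
    y.2.1.1 * y.2.2.2 = y.2.2.1 * y.2.1.2 + d ∧ TP u' ∧ TP u'' ∧ dt u' u'' = 1 ∧
    ml (dl d) u' = zv x.1 x.2.1 x.2.2 y.2.1.1 y.2.1.2 ∧
    ml (dl d) u'' = zv x.1 x.2.1 x.2.2 y.2.2.1 y.2.2.2 ∧
    kk u' u'' = (y.1.1 : ℤ) ∧ nm u' = (y.1.2 : ℤ)

private theorem CouV_uniq {m : ℕ} {h : ℕ → ZMod m} {X : ℕ} {δ₀ u₀ : ℤ × ℤ} {dl co : ℕ → ℤ × ℤ}
    {B w E : ℕ} (P : ParV h X δ₀ u₀ dl co B w E) {x x' : Σ _ : ℕ, ℕ × ℕ}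
    {y : (Σ _ : ℕ, ℕ) × ((ℕ × ℕ) × (ℕ × ℕ))} (hx : 0 < x.1) (hx' : 0 < x'.1)
    (h1 : CouV_R X dl x y) (h2 : CouV_R X dl x' y) : x = x' := by
  obtain ⟨a, b, c⟩ := x
  obtain ⟨a', b', c'⟩ := x'
  obtain ⟨⟨k, n⟩, ⟨s, t⟩, ⟨s', t'⟩⟩ := y
  obtain ⟨d, u₁, v₁, hs, hdX, hs1, hdet, p1, p2, p3, p4, p5, p6, p7⟩ := h1
  obtain ⟨d', u₂, v₂, _, _, _, hdet', q1, q2, q3, q4, q5, q6, q7⟩ := h2
  simp only at p4 p5 p6 p7 q4 q5 q6 q7 hx hx' hs1 hdet hdet'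
  have hdd : d' = d := by omega
  rw [hdd] at q4 q5
  have hd := (P.sys d hs hdX).1
  unfold zv at p4 p5 q4 q5
  have hk : kk u₁ v₁ = kk u₂ v₂ := p6.trans q6.symm
  have hn : nm u₁ = nm u₂ := p7.trans q7.symm
  have key := line_uniqueV hs.1 hs1 hdet hd p1 p2 q1 q2 p3 q3 hk hn p4 p5 q4 q5
    (by show (1 : ℤ) ≤ (a : ℤ); exact_mod_cast hx) (by show (0 : ℤ) ≤ (b : ℤ); positivity)
    (by show (0 : ℤ) ≤ (c : ℤ); positivity)
    (by show (0 : ℤ) ≤ (((1 + b * c) / a : ℕ) : ℤ); exact Int.natCast_nonneg _)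
    (by show (1 : ℤ) ≤ (a' : ℤ); exact_mod_cast hx') (by show (0 : ℤ) ≤ (b' : ℤ); positivity)
    (by show (0 : ℤ) ≤ (c' : ℤ); positivity)
    (by show (0 : ℤ) ≤ (((1 + b' * c') / a' : ℕ) : ℤ); exact Int.natCast_nonneg _)
  have e1 : (a : ℤ) = a' := congrArg Prod.fst key.1
  have e2 : (b : ℤ) = b' := congrArg Prod.snd key.1
  have e3 : (c : ℤ) = c' := congrArg Prod.fst key.2
  have e1' : a = a' := by exact_mod_cast e1
  have e2' : b = b' := by exact_mod_cast e2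
  have e3' : c = c' := by exact_mod_cast e3
  rw [e1', e2', e3']

private theorem CouV_filt {α : Type*} {p : α → Prop} {inst : DecidablePred p} {s : Finset α} {x : α}
    (h : x ∈ @Finset.filter α p inst s) : x ∈ s := (mem_filter.1 h).1

private theorem CouV_ex {m : ℕ} {h : ℕ → ZMod m} {X : ℕ} {δ₀ u₀ : ℤ × ℤ} {dl co : ℕ → ℤ × ℤ}
    {B w E : ℕ} (P : ParV h X δ₀ u₀ dl co B w E) (cc : ZMod m) (A z C : ℕ) (hA : 2 * (X + 2) ≤ A)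
    (hz : 2 ≤ z)
    (hC : 2 * ((w : ℝ) * E + Real.log (5 * ((X : ℝ) + 2) ^ 2 * (A : ℝ) ^ 2) / Real.log z) ≤ C)
    {x : Σ _ : ℕ, ℕ × ℕ} (hx : x ∈ SSV A (w.factorial ^ E) B X w z) :
    ∃ y ∈ ((FC h (2 * cc) C (5 * (X + 2) ^ 2 * A ^ 2)).sigma
      (fun k => (k ^ 2 + 3 * k + 1).divisors)) ×ˢ (idx X ×ˢ idx X),
      CouV_R X dl x y := by
  obtain ⟨a, b, c⟩ := x
  unfold SSV at hx
  rw [mem_sigma, mem_filter, mem_Ioc] at hx
  obtain ⟨⟨⟨haA, haA'⟩, hap, ha1⟩, hbc⟩ := hx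
  simp only at haA haA' hap ha1 hbc
  obtain ⟨s, t, s', t', d, u', u'', hi, hi', hS, hdX, hdet, hu', hu'', hdt, e1, e2, hlam, hnd, hn1, hn2,
    hO1, hO2⟩ := elem_dataV P cc a b c z hap ha1 hz hbc
  have hfam : (b, c) ∈ Fam a (w.factorial ^ E) B := CouV_filt hbc
  have hbc' := (mem_filter.1 hfam).1
  have hdv := (mem_filter.1 hfam).2.1
  rw [mem_product, mem_range, mem_range] at hbc'
  obtain ⟨hb, hc⟩ := hbc'
  simp only at hb hc hdv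
  have ha0 : 0 < a := hap.pos
  have hb1 : 1 ≤ b := by
    by_contra hb0
    have hb0' : b = 0 := by omega
    rw [hb0', zero_mul, add_zero, Nat.dvd_one] at hdv
    exact hap.one_lt.ne' hdv
  have haX : X + 2 < a := by omega
  have hmax : max (a : ℤ) b = a := by
    refine max_eq_left ?_
    exact_mod_cast hb.le
  -- sizes
  have haAZ : (a : ℤ) ≤ (A : ℤ) := by exact_mod_cast haA'
  have ha0Z : (0 : ℤ) ≤ (a : ℤ) := Int.natCast_nonneg _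
  have hsq : (a : ℤ) ^ 2 ≤ (A : ℤ) ^ 2 := pow_le_pow_left₀ ha0Z haAZ 2
  have hX0 : (0 : ℤ) ≤ 5 * ((X : ℤ) + 2) ^ 2 := by positivity
  have hN : 5 * ((X : ℤ) + 2) ^ 2 * (a : ℤ) ^ 2 ≤ 5 * ((X : ℤ) + 2) ^ 2 * (A : ℤ) ^ 2 :=
    mul_le_mul_of_nonneg_left hsq hX0
  have hn1' : nm u' ≤ 5 * ((X : ℤ) + 2) ^ 2 * (A : ℤ) ^ 2 := hn1.trans hN
  have hn2' : nm u'' ≤ 5 * ((X : ℤ) + 2) ^ 2 * (A : ℤ) ^ 2 := hn2.trans hN
  have hp1 := hu'.nm_pos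
  have hp2 := hu''.nm_pos
  have hkn := kk_nonneg hu' hu'' hdt
  have hke := kk_eq hdt
  obtain ⟨k, hk⟩ := Int.eq_ofNat_of_zero_le hkn
  obtain ⟨n₁, hn₁⟩ := Int.eq_ofNat_of_zero_le hp1.le
  obtain ⟨n₂, hn₂⟩ := Int.eq_ofNat_of_zero_le hp2.le
  have h1pos : 0 < n₁ := by
    rw [hn₁] at hp1
    exact_mod_cast hp1
  have h2pos : 0 < n₂ := by
    rw [hn₂] at hp2
    exact_mod_cast hp2
  have hprod : k ^ 2 + 3 * k + 1 = n₁ * n₂ := by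
    rw [hk, hn₁, hn₂] at hke
    exact_mod_cast hke
  have hl1 : lam h u' = h n₁ := by
    unfold lam
    rw [hn₁]
    rfl
  have hl2 : lam h u'' = h n₂ := by
    unfold lam
    rw [hn₂]
    rfl
  have hlog : 0 < Real.log z := Real.log_pos (by exact_mod_cast hz)
  have hA0 : (0 : ℝ) < (a : ℝ) := by exact_mod_cast ha0
  have hAA : (a : ℝ) ≤ (A : ℝ) := by exact_mod_cast haA'
  have hmono : Real.log (5 * ((X : ℝ) + 2) ^ 2 * (a : ℝ) ^ 2) / Real.log z ≤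
      Real.log (5 * ((X : ℝ) + 2) ^ 2 * (A : ℝ) ^ 2) / Real.log z := by
    refine div_le_div_of_nonneg_right ?_ hlog.le
    refine Real.log_le_log (by positivity) ?_
    exact mul_le_mul_of_nonneg_left (pow_le_pow_left₀ hA0.le hAA 2) (by positivity)
  have hna1 : (nm u').natAbs = n₁ := by rw [hn₁]; rfl
  have hna2 : (nm u'').natAbs = n₂ := by rw [hn₂]; rfl
  rw [hna1] at hO1
  rw [hna2] at hO2
  have hOm : ArithmeticFunction.cardFactors (k ^ 2 + 3 * k + 1) ≤ C := by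
    rw [hprod, ArithmeticFunction.cardFactors_mul h1pos.ne' h2pos.ne']
    have h3 : ((ArithmeticFunction.cardFactors n₁ + ArithmeticFunction.cardFactors n₂ : ℕ) : ℝ) ≤
        (C : ℝ) := by
      push_cast
      linarith
    exact_mod_cast h3
  have hkN : k ≤ 5 * (X + 2) ^ 2 * A ^ 2 := by
    have hr1 : (nm u' : ℝ) ≤ 5 * ((X : ℝ) + 2) ^ 2 * (A : ℝ) ^ 2 := by exact_mod_cast hn1'
    have hr2 : (nm u'' : ℝ) ≤ 5 * ((X : ℝ) + 2) ^ 2 * (A : ℝ) ^ 2 := by exact_mod_cast hn2'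
    have h3 := kk_le hu' hu'' hdt (X := 5 * ((X : ℝ) + 2) ^ 2 * (A : ℝ) ^ 2) (by positivity) hr1 hr2
    rw [hk] at h3
    have h4 : ((k : ℕ) : ℝ) ≤ 5 * ((X : ℝ) + 2) ^ 2 * (A : ℝ) ^ 2 := by
      exact_mod_cast h3
    exact_mod_cast h4
  have hi1 := mem_idx.1 hi
  have hk1 : 1 ≤ k := by
    by_contra hk0
    have hk0' : k = 0 := by omega
    rw [hk0'] at hprod
    have h3 : n₁ * n₂ = 1 := by omega
    have h4 : n₁ = 1 := Nat.eq_one_of_mul_eq_one_right h3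
    have h6 : nm (zv a b c s t) = (d : ℤ) := by
      rw [hnd, hn₁, h4]
      simp
    have h7 := (sizeV a b c s t X ha0 hb1 hc hi1.1 hi1.2.1).2.2.2.2.1
    rw [h6] at h7
    have h8 : (d : ℤ) ≤ (X : ℤ) := by exact_mod_cast hdX
    have h9 : (X : ℤ) + 2 < (a : ℤ) := by exact_mod_cast haX
    nlinarith
  refine ⟨(⟨k, n₁⟩, ((s, t), (s', t'))), ?_, ⟨d, u', u'', hS, hdX, ?_, hdet, hu', hu'', hdt, e1, e2,
    hk, hn₁⟩⟩
  · rw [mem_product, mem_sigma, mem_product]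
    refine ⟨⟨?_, ?_⟩, hi, hi'⟩
    · show k ∈ FC h (2 * cc) C (5 * (X + 2) ^ 2 * A ^ 2)
      unfold FC
      rw [mem_filter, mem_Icc]
      refine ⟨⟨hk1, hkN⟩, ?_, hOm⟩
      rw [hprod, P.add n₁ n₂ h1pos h2pos, ← hl1, ← hl2]
      exact hlam
    · show n₁ ∈ (k ^ 2 + 3 * k + 1).divisors
      rw [Nat.mem_divisors]
      exact ⟨⟨n₂, hprod⟩, by positivity⟩
  · show 1 ≤ s
    rcases hi1.1 with h3 | h3
    · omega
    · omega

theorem SSV_le {m : ℕ} {h : ℕ → ZMod m} {X : ℕ} {δ₀ u₀ : ℤ × ℤ} {dl co : ℕ → ℤ × ℤ} {B w E : ℕ}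
    (P : ParV h X δ₀ u₀ dl co B w E) (cc : ZMod m) (A z C : ℕ) (hA : 2 * (X + 2) ≤ A) (hz : 2 ≤ z)
    (hC : 2 * ((w : ℝ) * E + Real.log (5 * ((X : ℝ) + 2) ^ 2 * (A : ℝ) ^ 2) / Real.log z) ≤ C) :
    (SSV A (w.factorial ^ E) B X w z).card ≤
      (FC h (2 * cc) C (5 * (X + 2) ^ 2 * A ^ 2)).card * (2 ^ C * (2 * (X + 1)) ^ 2) := by
  have h1 : (SSV A (w.factorial ^ E) B X w z).card ≤
      (((FC h (2 * cc) C (5 * (X + 2) ^ 2 * A ^ 2)).sigma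
      (fun k => (k ^ 2 + 3 * k + 1).divisors)) ×ˢ (idx X ×ˢ idx X)).card := by
    refine card_le_card_of_forall_subsingleton (CouV_R X dl)
      (fun x hx => CouV_ex P cc A z C hA hz hC hx) ?_
    intro y hy x hx x' hx'
    have hpos : ∀ x ∈ SSV A (w.factorial ^ E) B X w z, 0 < x.1 := by
      intro x hx
      unfold SSV at hx
      rw [mem_sigma, mem_filter] at hx
      exact hx.1.2.1.pos
    exact CouV_uniq P (hpos x hx.1) (hpos x' hx'.1) hx.2 hx'.2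
  refine h1.trans ?_
  rw [card_product, card_product, card_sigma]
  have h2 : ∑ k ∈ FC h (2 * cc) C (5 * (X + 2) ^ 2 * A ^ 2), (k ^ 2 + 3 * k + 1).divisors.card ≤
      (FC h (2 * cc) C (5 * (X + 2) ^ 2 * A ^ 2)).card * 2 ^ C := by
    rw [← smul_eq_mul]
    refine sum_le_card_nsmul _ _ _ ?_
    intro k hk
    unfold FC at hk
    rw [mem_filter] at hk
    exact (card_divisors_le _ (by positivity)).trans (Nat.pow_le_pow_right (by norm_num) hk.2.2)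
  have h3 : (idx X).card * (idx X).card ≤ (2 * (X + 1)) * (2 * (X + 1)) :=
    Nat.mul_le_mul (card_idx X) (card_idx X)
  calc (∑ k ∈ FC h (2 * cc) C (5 * (X + 2) ^ 2 * A ^ 2), (k ^ 2 + 3 * k + 1).divisors.card) *
        ((idx X).card * (idx X).card)
      ≤ ((FC h (2 * cc) C (5 * (X + 2) ^ 2 * A ^ 2)).card * 2 ^ C) * ((2 * (X + 1)) * (2 * (X + 1))) :=
        Nat.mul_le_mul h2 h3
    _ = (FC h (2 * cc) C (5 * (X + 2) ^ 2 * A ^ 2)).card * (2 ^ C * (2 * (X + 1)) ^ 2) := by ring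

end Pool.Agent.Lib.MP_d57abb_nt.Ev
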