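import Mathlib

/-!
# JOB Crt: residues with prescribed behaviour

PROOF.  Copy the style of `Typ_rho`, `Typ_rho'` in `All/Typ.lean` (private there, also `Typ_prod_cop`, `Typ_prod_sqf`, `Typ_split`).  Let `P_Z, P_E, P_R` be the products of `D i` over `Z`, `E` and the rest `R`; `(∏ D)² V = V P_Z² P_E² P_R²`, the four factors
`V, P_Z², P_E², P_R²` are pairwise coprime.  By three applications of `Nat.chineseRemainder` there is `k` with `k ≡ v₀ (mod V)`, `k ≡ 0 (mod P_Z²)`, `k ≡ P_E (mod P_E²)`, `k ≡ r₀ (mod P_R²)`; `r = k % ((∏ D)² V)`.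
For `i ∈ E`: `D i ∣ P_E ∣ r`, and `p² ∣ r` for a prime `p ∣ D i` would give `p² ∣ P_E` (as `p² ∣ P_E²`), but `P_E` is squarefree.
-/

namespace Pool.Agent.Lib.MP_d57abb_nt.Ev

theorem crt3 {I : Type} [Fintype I] [DecidableEq I] {D : I → ℕ} (hs : ∀ i, Squarefree (D i))
    (hc : ∀ i j, i ≠ j → Nat.Coprime (D i) (D j)) {V : ℕ} (hV : 0 < V) (hVc : ∀ i, Nat.Coprime V (D i))
    (v₀ r₀ : ℕ) (Z E : Finset I) (hZE : Disjoint Z E) :
    ∃ r : ℕ, r < (∏ i, D i) ^ 2 * V ∧ r ≡ v₀ [MOD V] ∧ (∀ i ∈ Z, D i ^ 2 ∣ r) ∧ (∀ i ∈ E, D i ∣ r) ∧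
      (∀ i ∈ E, ∀ p : ℕ, p.Prime → p ∣ D i → ¬ p ^ 2 ∣ r) ∧
      ∀ i, i ∉ Z → i ∉ E → r ≡ r₀ [MOD D i] := by
  classical
  set PZ := ∏ i ∈ Z, D i with hPZ
  set PE := ∏ i ∈ E, D i with hPE
  set PR := ∏ i ∈ Finset.univ \ (Z ∪ E), D i with hPR
  have hprod : ∏ i, D i = PZ * PE * PR := by
    rw [hPZ, hPE, hPR, ← Finset.prod_union hZE, mul_comm,
      Finset.prod_sdiff (Finset.subset_univ _)]
  have hpos : ∀ i, 0 < D i := fun i => Nat.pos_of_ne_zero (hs i).ne_zero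
  have hPpos : 0 < ∏ i, D i := Finset.prod_pos fun i _ => hpos i
  have c1 : ∀ A : Finset I, Nat.Coprime V (∏ i ∈ A, D i) := fun A =>
    Nat.Coprime.prod_right fun i _ => hVc i
  have c2 : ∀ A B : Finset I, Disjoint A B → Nat.Coprime (∏ i ∈ A, D i) (∏ i ∈ B, D i) := by
    intro A B hAB
    refine Nat.Coprime.prod_left fun i hi => Nat.Coprime.prod_right fun j hj => hc i j ?_
    rintro rfl
    exact (Finset.disjoint_left.mp hAB) hi hj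
  have dR : Disjoint (Z ∪ E) (Finset.univ \ (Z ∪ E)) := Finset.disjoint_sdiff
  have dZR : Disjoint Z (Finset.univ \ (Z ∪ E)) := Finset.disjoint_of_subset_left
    Finset.subset_union_left dR
  have dER : Disjoint E (Finset.univ \ (Z ∪ E)) := Finset.disjoint_of_subset_left
    Finset.subset_union_right dR
  have k1 : Nat.Coprime V (PZ ^ 2) := (c1 Z).pow_right 2
  have k2 : Nat.Coprime (V * PZ ^ 2) (PE ^ 2) :=
    Nat.Coprime.mul_left ((c1 E).pow_right 2) ((c2 Z E hZE).pow 2 2)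
  have k3 : Nat.Coprime (V * PZ ^ 2 * PE ^ 2) (PR ^ 2) :=
    Nat.Coprime.mul_left (Nat.Coprime.mul_left ((c1 _).pow_right 2) ((c2 _ _ dZR).pow 2 2))
      ((c2 _ _ dER).pow 2 2)
  obtain ⟨x1, h1a, h1b⟩ := Nat.chineseRemainder k1 v₀ 0
  obtain ⟨x2, h2a, h2b⟩ := Nat.chineseRemainder k2 x1 PE
  obtain ⟨x3, h3a, h3b⟩ := Nat.chineseRemainder k3 x2 r₀
  have hM : 0 < (∏ i, D i) ^ 2 * V := by positivity
  have hr : x3 % ((∏ i, D i) ^ 2 * V) ≡ x3 [MOD (∏ i, D i) ^ 2 * V] := Nat.mod_modEq _ _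
  set r := x3 % ((∏ i, D i) ^ 2 * V) with hrdef
  have hMe : (∏ i, D i) ^ 2 * V = V * PZ ^ 2 * PE ^ 2 * PR ^ 2 := by
    rw [hprod]; ring
  have d1 : V * PZ ^ 2 * PE ^ 2 ∣ (∏ i, D i) ^ 2 * V := by
    rw [hMe]; exact Dvd.intro _ rfl
  have d2 : PR ^ 2 ∣ (∏ i, D i) ^ 2 * V := by
    rw [hMe]; exact Dvd.intro_left _ rfl
  have r2 : r ≡ x2 [MOD V * PZ ^ 2 * PE ^ 2] := (hr.of_dvd d1).trans h3a
  have rR : r ≡ r₀ [MOD PR ^ 2] := (hr.of_dvd d2).trans h3b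
  have r1 : r ≡ x1 [MOD V * PZ ^ 2] := (r2.of_dvd (Dvd.intro _ rfl)).trans h2a
  have rE : r ≡ PE [MOD PE ^ 2] := (r2.of_dvd (Dvd.intro_left _ rfl)).trans h2b
  have rV : r ≡ v₀ [MOD V] := (r1.of_dvd (Dvd.intro _ rfl)).trans h1a
  have rZ : r ≡ 0 [MOD PZ ^ 2] := (r1.of_dvd (Dvd.intro_left _ rfl)).trans h1b
  have hPEr : PE ∣ r := by
    have h4 : r ≡ PE [MOD PE] := rE.of_dvd (Dvd.intro PE (by ring))
    have h5 : PE ≡ 0 [MOD PE] := (Nat.modEq_zero_iff_dvd).mpr dvd_rfl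
    exact (Nat.modEq_zero_iff_dvd).mp (h4.trans h5)
  refine ⟨r, Nat.mod_lt _ hM, rV, ?_, ?_, ?_, ?_⟩
  · intro i hi
    exact (pow_dvd_pow_of_dvd (Finset.dvd_prod_of_mem D hi) 2).trans
      ((Nat.modEq_zero_iff_dvd).mp rZ)
  · intro i hi
    exact (Finset.dvd_prod_of_mem D hi).trans hPEr
  · intro i hi p hp hpd hp2
    have h4 : p ∣ PE := hpd.trans (Finset.dvd_prod_of_mem D hi)
    have h5 : r ≡ PE [MOD p ^ 2] := rE.of_dvd (pow_dvd_pow_of_dvd h4 2)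
    have h6 : p ^ 2 ∣ PE :=
      (Nat.modEq_zero_iff_dvd).mp (h5.symm.trans ((Nat.modEq_zero_iff_dvd).mpr hp2))
    have h7 : PE = D i * ∏ j ∈ E.erase i, D j := (Finset.mul_prod_erase E D hi).symm
    have h8 : Nat.Coprime (p ^ 2) (∏ j ∈ E.erase i, D j) := by
      refine Nat.Coprime.pow_left 2 (Nat.Coprime.prod_right fun j hj => ?_)
      exact Nat.Coprime.coprime_dvd_left hpd (hc i j (Finset.ne_of_mem_erase hj).symm)
    rw [h7] at h6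
    have h9 : p ^ 2 ∣ D i := h8.dvd_of_dvd_mul_right h6
    rw [sq] at h9
    exact hp.one_lt.ne' (Nat.isUnit_iff.mp (hs i p h9))
  · intro i hiZ hiE
    have h4 : D i ∣ PR ^ 2 := by
      refine (Finset.dvd_prod_of_mem D ?_).trans (Dvd.intro PR (sq PR).symm)
      rw [Finset.mem_sdiff, Finset.mem_union]
      exact ⟨Finset.mem_univ i, fun h => h.elim hiZ hiE⟩
    exact rR.of_dvd h4

end Pool.Agent.Lib.MP_d57abb_nt.Ev
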