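import Mathlib
import Pool.Agent.Lib.MP_d57abb_nt.Ev.Defs
import Pool.Agent.Lib.MP_d57abb_nt.All.TypA

/-!
# JOB Edge: the arithmetic of one edge

PROOF.  This is steps (5) - (8) of the proof of `exists_types` in `All/Typ.lean` (complete there).  Put `V = 5 Q w!`, `W = (∏ D)² V`, `D = D i`, `n = Δ / D`, `W₁ = W / D` (`D ∣ W`).  `V ∣ W₁` as `D V ∣ W`.  Primes `≤ w` divide `w! ∣ V ∣ W₁`; `5 Q ∣ V ∣ W₁`.
`Spl D`: `D > 0` (squarefree) and primes `p ∣ D` have `p % (5 Q) = 1 % (5 Q)`, so `p % 5 = 1`.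
Coprimality: let a prime `p` divide `n` and `W₁`; `p ∣ Δ = D n` and `p ∣ W`.  If `p ∣ V` then `Δ ≡ 1 (mod p)`: contradiction.  If `p ∣ D j`, `j ≠ i`: contradiction to `h4`.  If `p ∣ D i`: `p² ∣ D n = Δ`, contradiction to `h3`.
`n % (5 Q) = 1`: `D n = Δ ≡ 1 (mod 5 Q)` and `D ≡ 1 (mod 5 Q)` (`mod_one`), and `1 % (5 Q) = 1`.
-/

namespace Pool.Agent.Lib.MP_d57abb_nt.Ev

open Pool.Agent.Lib.MP_d57abb_nt Pool.Agent.Lib.MP_d57abb_nt.All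

theorem edge_cn {m : ℕ} {h : ℕ → ZMod m} (Q w : ℕ) (hQ : 0 < Q) (γ c g : ZMod m) {I : Type} [Fintype I]
    [DecidableEq I] (D : I → ℕ) (hs : ∀ i, Squarefree (D i))
    (hpr : ∀ i, ∀ p : ℕ, p.Prime → p ∣ D i → w < p ∧ 5 * Q < p ∧ p % (5 * Q) = 1 % (5 * Q))
    (i : I) (t Δ : ℕ) (hg : c + (h (D i) + γ) = g) (h1 : D i ∣ t) (h2 : D i ∣ Δ)
    (h3 : ∀ p : ℕ, p.Prime → p ∣ D i → ¬ p ^ 2 ∣ Δ)
    (h4 : ∀ j, j ≠ i → ∀ p : ℕ, p.Prime → p ∣ D j → ¬ p ∣ Δ)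
    (h5 : Δ ≡ 1 [MOD 5 * Q * w.factorial]) :
    Cn h Q w ((∏ j, D j) ^ 2 * (5 * Q * w.factorial)) γ c t Δ g (D i)
      ((∏ j, D j) ^ 2 * (5 * Q * w.factorial) / D i) (Δ / D i) := by
  have hQ5 : 0 < 5 * Q := by omega
  set V : ℕ := 5 * Q * w.factorial with hVdef
  set W : ℕ := (∏ j, D j) ^ 2 * V with hWdef
  have hmod : ∀ p : ℕ, p.Prime → p ∣ D i → p ≡ 1 [MOD 5 * Q] := fun p hp hpi =>
    (hpr i p hp hpi).2.2
  have hspl : Spl (D i) := ⟨Nat.pos_of_ne_zero (hs i).ne_zero, fun p hp hpi =>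
    Or.inl ((hmod p hp hpi).of_dvd (Dvd.intro _ rfl))⟩
  have hD1 : D i ≡ 1 [MOD 5 * Q] := mod_one (D i) (5 * Q) (hs i) (fun p hp hpi => hmod p hp hpi)
  have hDK : D i ∣ ∏ j, D j := Finset.dvd_prod_of_mem D (Finset.mem_univ i)
  have hDW1 : D i ∣ W := (hDK.trans (dvd_pow_self _ two_ne_zero)).trans (Dvd.intro _ rfl)
  have hD0 : 0 < D i := hspl.1
  have hVW1 : V ∣ W / D i := by
    rw [Nat.dvd_div_iff_mul_dvd hDW1]
    exact Nat.mul_dvd_mul (hDK.trans (dvd_pow_self _ two_ne_zero)) dvd_rfl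
  have h5V : 5 * Q ∣ V := Dvd.intro _ rfl
  obtain ⟨n, hn⟩ := h2
  have hnn : Δ / D i = n := by
    rw [hn, Nat.mul_div_cancel_left n hD0]
  refine ⟨(Nat.mul_div_cancel' hDW1).symm, ?_, hspl, h1, ?_, ?_, h5V.trans hVW1, ?_, hg⟩
  · intro p hp hpw
    exact (((hp.dvd_factorial).2 hpw).trans (Dvd.intro_left _ rfl)).trans hVW1
  · rw [hnn]
    exact hn
  · rw [hnn]
    by_contra hcon
    obtain ⟨p, hp, hpn, hpW1⟩ := Nat.Prime.not_coprime_iff_dvd.1 hcon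
    have hpW : p ∣ W := hpW1.trans (Nat.div_dvd_of_dvd hDW1)
    have hpΔ : p ∣ Δ := by
      rw [hn]
      exact hpn.mul_left _
    rcases (hp.dvd_mul).1 hpW with hpK | hpV
    · obtain ⟨j, -, hpj⟩ := (hp.prime.dvd_finsetProd_iff D).1 (hp.dvd_of_dvd_pow hpK)
      by_cases hji : j = i
      · subst hji
        apply h3 p hp hpj
        rw [hn, sq]
        exact Nat.mul_dvd_mul hpj hpn
      · exact h4 j hji p hp hpj hpΔ
    · have h6 := h5.of_dvd hpV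
      have h7 : Δ ≡ 0 [MOD p] := (Nat.modEq_zero_iff_dvd).2 hpΔ
      have h8 : 1 ≡ 0 [MOD p] := h6.symm.trans h7
      have h9 : p ∣ 1 := (Nat.modEq_zero_iff_dvd).1 h8
      exact hp.one_lt.ne' (Nat.dvd_one.1 h9)
  · rw [hnn]
    have h6 : D i * n ≡ 1 * n [MOD 5 * Q] := hD1.mul_right n
    have h7 := h5.of_dvd h5V
    rw [← hn, one_mul] at h6
    have h10 : n % (5 * Q) = 1 % (5 * Q) := h6.symm.trans h7
    rw [h10]
    exact Nat.mod_eq_of_lt (by omega)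

end Pool.Agent.Lib.MP_d57abb_nt.Ev
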