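import Mathlib
import Pool.Agent.Lib.MP_d57abb_nt.Ev.BadE
import Pool.Agent.Lib.MP_d57abb_nt.Ev.CouE

/-!
# JOB FinE: the lower bound `κ N / (log N)²`

PROOF.  `G = (w!)^E` is divisible by `6` (`w ≥ 8`, `E ≥ 1`).  `K, A₀` from `good_card G B X`.  Let `N` be large, `A = Nat.sqrt (N / (5 (X+2)²))`, so `5 (X+2)² A² ≤ N < 5 (X+2)² (A+1)² ≤ 20 (X+2)² A²`, and `T = ⌈K log A⌉₊ ≤ (K + 1) log A`.
`A² / (8 G²) ≤ |Good| ≤ X² + |FG h (2 cc) (5 (X+2)² A²)| T² (2 (X+1))²` and `FG` is monotone in the last argument; `X² ≤ A²/(16 G²)` for large `A`: `|FG h (2 cc) N| ≥ A² / (16 G² (K+1)² (log A)² 4 (X+1)²) ≥ κ N / (log N)²`, `κ = 1 / (20 (X+2)² 64 G² (K+1)² (X+1)²)` (`log A ≤ log N`).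
-/

open Finset Filter

namespace Pool.Agent.Lib.MP_d57abb_nt.Ev

open Pool.Agent.Lib.MP_d57abb_nt Pool.Agent.Lib.MP_d57abb_nt.All

private theorem FinE_mono {m : ℕ} (h : ℕ → ZMod m) (c : ZMod m) {N N' : ℕ} (hN : N ≤ N') :
    (FG h c N).card ≤ (FG h c N').card := by
  classical
  apply Finset.card_le_card
  intro k hk
  simp only [FG, mem_filter, mem_Icc] at hk ⊢
  exact ⟨⟨hk.1.1, hk.1.2.trans hN⟩, hk.2⟩

theorem fin_e {m : ℕ} {h : ℕ → ZMod m} {X : ℕ} {δ₀ u₀ : ℤ × ℤ} {dl co : ℕ → ℤ × ℤ} {B w E : ℕ}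
    (P : ParV h X δ₀ u₀ dl co B w E) : ∃ (κ : ℝ) (N₀ : ℕ), 0 < κ ∧ ∀ cc : ZMod m, ∀ N : ℕ, N₀ ≤ N →
      κ * N / Real.log N ^ 2 ≤ ((FG h (2 * cc) N).card : ℝ) := by
  set G : ℕ := w.factorial ^ E with hGdef
  have hG : 0 < G := by positivity
  have hw8 : 8 ≤ w := by
    have := P.hw
    omega
  have hE0 : E ≠ 0 := by
    have := P.E1
    omega
  have h2 : 2 ∣ G := dvd_pow (Nat.dvd_factorial (by norm_num) (by omega)) hE0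
  have h3 : 3 ∣ G := dvd_pow (Nat.dvd_factorial (by norm_num) (by omega)) hE0
  obtain ⟨K, A₀, hK⟩ := good_card G B X hG h2 h3
  set c₅ : ℕ := 5 * (X + 2) ^ 2 with hc₅
  have hc₅pos : 0 < c₅ := by positivity
  set A₁ : ℕ := A₀ + 4 * G * X + 3 with hA₁
  have hGr : (0 : ℝ) < G := by exact_mod_cast hG
  refine ⟨1 / (20 * ((X : ℝ) + 2) ^ 2 * (64 * (G : ℝ) ^ 2 * ((K : ℝ) + 1) ^ 2 * ((X : ℝ) + 1) ^ 2)),
    c₅ * (A₁ + 1) ^ 2, by positivity, fun cc N hN => ?_⟩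
  set A : ℕ := Nat.sqrt (N / c₅) with hA
  have hle : c₅ * A ^ 2 ≤ N := by
    have h1 : A ^ 2 ≤ N / c₅ := Nat.sqrt_le' _
    calc c₅ * A ^ 2 ≤ c₅ * (N / c₅) := Nat.mul_le_mul_left _ h1
      _ ≤ N := Nat.mul_div_le _ _
  have hlt : N < c₅ * (A + 1) ^ 2 := by
    have h1 : N / c₅ < (A + 1) ^ 2 := Nat.lt_succ_sqrt' _
    have h2 := (Nat.div_lt_iff_lt_mul hc₅pos).1 h1
    rwa [Nat.mul_comm] at h2
  have hAA : A₁ ≤ A := by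
    by_contra hcon
    push Not at hcon
    have h1 : A + 1 ≤ A₁ + 1 := by omega
    have h2 : c₅ * (A + 1) ^ 2 ≤ c₅ * (A₁ + 1) ^ 2 :=
      Nat.mul_le_mul_left _ (Nat.pow_le_pow_left h1 2)
    omega
  have e1 : A₀ ≤ A := by omega
  have e2 : 4 * G * X ≤ A := by omega
  have e3 : 3 ≤ A := by omega
  have hAr : (3 : ℝ) ≤ A := by exact_mod_cast e3
  have hApos : (0 : ℝ) < A := by linarith
  have hlogA1 : 1 ≤ Real.log A := by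
    rw [Real.le_log_iff_exp_le hApos]
    exact (Real.exp_one_lt_d9.le.trans (by norm_num)).trans hAr
  have hKr : (0 : ℝ) ≤ K := Nat.cast_nonneg _
  set T : ℕ := ⌈(K : ℝ) * Real.log A⌉₊ with hT
  have hT1 : (K : ℝ) * Real.log A ≤ T := Nat.le_ceil _
  have hT2 : (T : ℝ) ≤ (K + 1) * Real.log A := by
    have h1 : (T : ℝ) < K * Real.log A + 1 := Nat.ceil_lt_add_one (by positivity)
    linarith
  have hgood := hK A T e1 hT1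
  have hcou := good_le P cc A T
  have hcou' : ((Good A G B X T).card : ℝ) ≤ (X : ℝ) ^ 2 +
      ((FG h (2 * cc) (c₅ * A ^ 2)).card : ℝ) * ((T : ℝ) ^ 2 * (2 * ((X : ℝ) + 1)) ^ 2) := by
    exact_mod_cast hcou
  have hmono : ((FG h (2 * cc) (c₅ * A ^ 2)).card : ℝ) ≤ ((FG h (2 * cc) N).card : ℝ) := by
    exact_mod_cast FinE_mono h (2 * cc) hle
  set F : ℝ := ((FG h (2 * cc) N).card : ℝ) with hF
  have hF0 : 0 ≤ F := Nat.cast_nonneg _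
  have hX2 : (X : ℝ) ^ 2 ≤ (A : ℝ) ^ 2 / (16 * (G : ℝ) ^ 2) := by
    rw [le_div_iff₀ (by positivity)]
    have h1 : 4 * (G : ℝ) * X ≤ A := by exact_mod_cast e2
    have h2 : (4 * (G : ℝ) * X) ^ 2 ≤ (A : ℝ) ^ 2 := pow_le_pow_left₀ (by positivity) h1 2
    calc (X : ℝ) ^ 2 * (16 * (G : ℝ) ^ 2) = (4 * (G : ℝ) * X) ^ 2 := by ring
      _ ≤ (A : ℝ) ^ 2 := h2
  have hTsq : (T : ℝ) ^ 2 ≤ ((K + 1) * Real.log A) ^ 2 :=
    pow_le_pow_left₀ (Nat.cast_nonneg _) hT2 2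
  have hprod : ((FG h (2 * cc) (c₅ * A ^ 2)).card : ℝ) * ((T : ℝ) ^ 2 * (2 * ((X : ℝ) + 1)) ^ 2) ≤
      F * (((K + 1) * Real.log A) ^ 2 * (2 * ((X : ℝ) + 1)) ^ 2) :=
    mul_le_mul hmono (mul_le_mul_of_nonneg_right hTsq (by positivity)) (by positivity) hF0
  have hhalf : (A : ℝ) ^ 2 / (8 * (G : ℝ) ^ 2) =
      (A : ℝ) ^ 2 / (16 * (G : ℝ) ^ 2) + (A : ℝ) ^ 2 / (16 * (G : ℝ) ^ 2) := by
    field_simp
    norm_num
  have hmain : (A : ℝ) ^ 2 / (16 * (G : ℝ) ^ 2) ≤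
      F * (((K + 1) * Real.log A) ^ 2 * (2 * ((X : ℝ) + 1)) ^ 2) := by
    linarith
  rw [div_le_iff₀ (by positivity)] at hmain
  -- logarithms
  have hAN : (A : ℝ) ≤ N := by
    have h1 : A ≤ N := by
      calc A ≤ A ^ 2 := Nat.le_self_pow (by norm_num) A
        _ ≤ c₅ * A ^ 2 := Nat.le_mul_of_pos_left _ hc₅pos
        _ ≤ N := hle
    exact_mod_cast h1
  have hlogAN : Real.log A ≤ Real.log N := Real.log_le_log hApos hAN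
  have hlogN : 0 < Real.log N := by linarith
  have hlogsq : Real.log A ^ 2 ≤ Real.log N ^ 2 := pow_le_pow_left₀ (by linarith) hlogAN 2
  have hNub : (N : ℝ) ≤ 20 * ((X : ℝ) + 2) ^ 2 * (A : ℝ) ^ 2 := by
    have h1 : (N : ℝ) ≤ 5 * ((X : ℝ) + 2) ^ 2 * ((A : ℝ) + 1) ^ 2 := by
      exact_mod_cast hlt.le
    have h2 : ((A : ℝ) + 1) ^ 2 ≤ 4 * (A : ℝ) ^ 2 := by nlinarith
    have h3 : 5 * ((X : ℝ) + 2) ^ 2 * ((A : ℝ) + 1) ^ 2 ≤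
        5 * ((X : ℝ) + 2) ^ 2 * (4 * (A : ℝ) ^ 2) :=
      mul_le_mul_of_nonneg_left h2 (by positivity)
    linarith
  rw [div_le_iff₀ (by positivity), div_mul_eq_mul_div, one_mul, div_le_iff₀ (by positivity)]
  calc (N : ℝ) ≤ 20 * ((X : ℝ) + 2) ^ 2 * (A : ℝ) ^ 2 := hNub
    _ ≤ 20 * ((X : ℝ) + 2) ^ 2 * (F * (((K + 1) * Real.log A) ^ 2 * (2 * ((X : ℝ) + 1)) ^ 2) *
        (16 * (G : ℝ) ^ 2)) := mul_le_mul_of_nonneg_left hmain (by positivity)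
    _ = F * Real.log A ^ 2 * (20 * ((X : ℝ) + 2) ^ 2 *
        (64 * (G : ℝ) ^ 2 * ((K : ℝ) + 1) ^ 2 * ((X : ℝ) + 1) ^ 2)) := by ring
    _ ≤ F * Real.log N ^ 2 * (20 * ((X : ℝ) + 2) ^ 2 *
        (64 * (G : ℝ) ^ 2 * ((K : ℝ) + 1) ^ 2 * ((X : ℝ) + 1) ^ 2)) :=
      mul_le_mul_of_nonneg_right (mul_le_mul_of_nonneg_left hlogsq hF0) (by positivity)

end Pool.Agent.Lib.MP_d57abb_nt.Ev
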