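import Mathlib
import Pool.Agent.Lib.MP_d57abb_nt.AP.SvC
import Pool.Agent.Lib.MP_d57abb_nt.AP.Cls
import Pool.Agent.Lib.MP_d57abb_nt.Ev.BadV

/-!
# JOB SftV: the sifted family is large

PROOF: adaptation of `AP/Sft.lean` (complete there) with `badV`, `κ = 4 (X + 1)`, `SiftV` in place of `badq`, `2 (X + 1)`, `Sift`: `g q ≤ 4 (X + 1) / q ≤ 1/2` for `q > w ≥ 8 (X + 1)`; `X < q`, `2 < q` for `q > w`.
-/

open Finset Filter

namespace Pool.Agent.Lib.MP_d57abb_nt.Ev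

open Pool.Agent.Lib.MP_d57abb_nt.AP

/-- the density function of the sieve -/
private noncomputable def SftV_G (a X w q : ℕ) : ℝ :=
  if w < q then ((badV a X q).card : ℝ) / (q : ℝ) ^ 2 else 0

private theorem SftV_g (a X w z q : ℕ) (hw : 8 * (X + 1) ≤ w) (ha : a.Prime) (hza : z < a)
    (hq : q.Prime) (hqz : q ≤ z) :
    0 ≤ SftV_G a X w q ∧ SftV_G a X w q ≤ 3 / 4 ∧ SftV_G a X w q ≤ ((4 * (X + 1) : ℕ) : ℝ) / q := by
  have hq0 : (0 : ℝ) < q := by exact_mod_cast hq.pos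
  have hqa : ¬ q ∣ a := by
    intro h
    rcases (Nat.dvd_prime ha).1 h with h1 | h1
    · exact hq.one_lt.ne' h1
    · omega
  unfold SftV_G
  split_ifs with h
  · have hc := badV_card a X q hq hqa (by omega) (by omega)
    have hc' : ((badV a X q).card : ℝ) ≤ 4 * ((X : ℝ) + 1) * q := by exact_mod_cast hc
    have h1 : ((badV a X q).card : ℝ) / (q : ℝ) ^ 2 ≤ 4 * ((X : ℝ) + 1) / q := by
      rw [div_le_div_iff₀ (by positivity) hq0]
      nlinarith [mul_le_mul_of_nonneg_right hc' hq0.le]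
    refine ⟨by positivity, h1.trans ?_, by push_cast; exact h1⟩
    rw [div_le_iff₀ hq0]
    have h2 : (8 * ((X : ℝ) + 1)) ≤ q := by
      have : 8 * (X + 1) ≤ q := by omega
      exact_mod_cast this
    linarith
  · exact ⟨le_refl _, by norm_num, by positivity⟩

private theorem SftV_count (a G B X w z K : ℕ) (ha : a.Prime) (hG : 0 < G)
    (hGw : ∀ q : ℕ, q.Prime → q ∣ G → q ≤ w) (hGa : w < a) (hza : z < a)
    (T : Finset ℕ) (hT : T ⊆ Pool.Agent.Lib.MP_42948a_nt.OA.PP z) (hTK : ∏ p ∈ T, p ≤ z ^ K) :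
    |(((Fam a G B).filter (fun t : ℕ × ℕ => ∀ p ∈ T, w < p ∧ (t.1 % p, t.2 % p) ∈ badV a X p)).card : ℝ) -
      (a : ℝ) / (G : ℝ) ^ 2 * ∏ p ∈ T, SftV_G a X w p| ≤
      ((z : ℝ) ^ K) ^ 2 * (3 * √a * (3 + Real.log a) ^ 2) := by
  have hla : 0 ≤ Real.log a := Real.log_natCast_nonneg a
  have hTm : ∀ q ∈ T, q.Prime ∧ q ≤ z := by
    intro q hq
    have := hT hq
    simp only [Pool.Agent.Lib.MP_42948a_nt.OA.PP, mem_filter, mem_Icc] at this
    exact ⟨this.2, this.1.2⟩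
  by_cases hw : ∀ q ∈ T, w < q
  · have : Fact a.Prime := ⟨ha⟩
    have hc : Nat.Coprime G a := by
      rw [Nat.coprime_comm, Nat.Prime.coprime_iff_not_dvd ha]
      intro h
      have := hGw a ha h
      omega
    have h := fam_count a G B hG hc (badV a X) T (fun q hq => ⟨(hTm q hq).1, by
        have := (hTm q hq).2
        omega, fun h => by
        have h1 := hGw q (hTm q hq).1 h
        have h2 := hw q hq
        omega⟩) (fun q _ => filter_subset _ _)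
    have e1 : ((Fam a G B).filter (fun t : ℕ × ℕ => ∀ p ∈ T, w < p ∧ (t.1 % p, t.2 % p) ∈ badV a X p)) =
        ((Fam a G B).filter (fun x => ∀ q ∈ T, (x.1 % q, x.2 % q) ∈ badV a X q)) := by
      ext x
      simp only [mem_filter]
      constructor
      · rintro ⟨h1, h2⟩
        exact ⟨h1, fun q hq => (h2 q hq).2⟩
      · rintro ⟨h1, h2⟩
        exact ⟨h1, fun q hq => ⟨hw q hq, h2 q hq⟩⟩
    have e2 : ∏ p ∈ T, SftV_G a X w p = ∏ q ∈ T, ((badV a X q).card : ℝ) / (q : ℝ) ^ 2 := by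
      refine Finset.prod_congr rfl fun q hq => ?_
      unfold SftV_G
      rw [if_pos (hw q hq)]
    rw [e1, e2]
    refine h.trans ?_
    have h3 : ((∏ p ∈ T, p : ℕ) : ℝ) ≤ ((z ^ K : ℕ) : ℝ) := Nat.cast_le.2 hTK
    rw [Nat.cast_prod, Nat.cast_pow] at h3
    have h4 : (0 : ℝ) ≤ ∏ q ∈ T, (q : ℝ) := Finset.prod_nonneg fun _ _ => Nat.cast_nonneg _
    refine mul_le_mul_of_nonneg_right (pow_le_pow_left₀ h4 h3 2) (by positivity)
  · push Not at hw
    obtain ⟨q, hq, hqw⟩ := hw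
    have e1 : ((Fam a G B).filter (fun t : ℕ × ℕ => ∀ p ∈ T, w < p ∧ (t.1 % p, t.2 % p) ∈ badV a X p)) = ∅ := by
      rw [Finset.filter_eq_empty_iff]
      intro x _ h
      exact absurd (h q hq).1 (not_lt.2 hqw)
    have e2 : ∏ p ∈ T, SftV_G a X w p = 0 := by
      apply Finset.prod_eq_zero hq
      unfold SftV_G
      rw [if_neg (not_lt.2 hqw)]
    rw [e1, e2]
    simp only [card_empty, Nat.cast_zero, mul_zero, sub_zero, abs_zero]
    positivity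

private theorem SftV_sub (a G B X w z : ℕ) (ha : a.Prime) (hza : z < a) :
    (Fam a G B).filter (fun t : ℕ × ℕ => ∀ p ∈ Pool.Agent.Lib.MP_42948a_nt.OA.PP z,
      ¬ (w < p ∧ (t.1 % p, t.2 % p) ∈ badV a X p)) ⊆ SiftV a G B X w z := by
  intro x hx
  rw [mem_filter] at hx
  simp only [SiftV, mem_filter]
  refine ⟨hx.1, ?_⟩
  intro q hq hwq t ht hdiv
  have hd : a ∣ 1 + x.1 * x.2 := by
    have := hx.1
    simp only [Fam, mem_filter] at this
    exact this.2.1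
  have hq' : q.Prime ∧ q ≤ z := by
    simp only [Pz, mem_filter, mem_Icc] at hq
    exact ⟨hq.2, hq.1.2⟩
  have hqa : ¬ q ∣ a := by
    intro h
    rcases (Nat.dvd_prime ha).1 h with h1 | h1
    · exact hq'.1.one_lt.ne' h1
    · have := hq'.2
      omega
  refine hx.2 q hq ⟨hwq, ?_⟩
  exact (mem_badV a x.1 x.2 X q ha.pos hd hq'.1 hqa).2 ⟨t, ht, hdiv⟩

/-- the analytic condition for large `a` -/
private theorem SftV_large (G C : ℕ) (hG : 0 < G) : ∃ a₀ : ℕ, ∀ a : ℕ, a₀ ≤ a →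
    2 ≤ Real.log a ∧ 4 * (G : ℝ) ^ 2 * 2 ^ C ≤ Real.log a ∧
    12 * (G : ℝ) ^ 2 * (3 + Real.log a) ^ 2 * (2 + Real.log a) ^ C ≤ √(√a) := by
  have h1 : Tendsto (fun a : ℕ => Real.log a) atTop atTop :=
    Real.tendsto_log_atTop.comp tendsto_natCast_atTop_atTop
  have h2 : ∀ᶠ x : ℝ in atTop, 12 * (G : ℝ) ^ 2 * 3 ^ 2 * 3 ^ C * Real.log x ^ (2 + C) ≤ √(√x) := by
    have h3 := isLittleO_log_rpow_rpow_atTop ((2 + C : ℕ) : ℝ) (show (0 : ℝ) < 1 / 4 by norm_num)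
    have hc : (0 : ℝ) < 1 / (12 * (G : ℝ) ^ 2 * 3 ^ 2 * 3 ^ C) := by positivity
    have h4 := h3.bound hc
    filter_upwards [h4, eventually_ge_atTop (1 : ℝ)] with x hx hx1
    have hl : 0 ≤ Real.log x := Real.log_nonneg hx1
    rw [Real.norm_of_nonneg (by positivity), Real.norm_of_nonneg (by positivity), Real.rpow_natCast] at hx
    have e : √(√x) = x ^ ((1 : ℝ) / 4) := by
      rw [Real.sqrt_eq_rpow, Real.sqrt_eq_rpow, ← Real.rpow_mul (by linarith)]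
      norm_num
    rw [e]
    rw [div_mul_eq_mul_div, one_mul, le_div_iff₀ (by positivity)] at hx
    linarith
  have h5 : ∀ᶠ a : ℕ in atTop, 12 * (G : ℝ) ^ 2 * 3 ^ 2 * 3 ^ C * Real.log a ^ (2 + C) ≤ √(√(a : ℝ)) :=
    tendsto_natCast_atTop_atTop.eventually h2
  have h6 := (h1.eventually_ge_atTop 2).and ((h1.eventually_ge_atTop (4 * (G : ℝ) ^ 2 * 2 ^ C)).and h5)
  obtain ⟨a₀, ha₀⟩ := eventually_atTop.1 h6
  refine ⟨a₀, fun a ha => ?_⟩
  obtain ⟨h7, h8, h9⟩ := ha₀ a ha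
  refine ⟨h7, h8, le_trans ?_ h9⟩
  have h10 : 3 + Real.log a ≤ 3 * Real.log a := by linarith
  have h11 : 2 + Real.log a ≤ 3 * Real.log a := by linarith
  have h12 : (3 + Real.log a) ^ 2 ≤ (3 * Real.log a) ^ 2 := pow_le_pow_left₀ (by linarith) h10 2
  have h13 : (2 + Real.log a) ^ C ≤ (3 * Real.log a) ^ C := pow_le_pow_left₀ (by linarith) h11 C
  calc 12 * (G : ℝ) ^ 2 * (3 + Real.log a) ^ 2 * (2 + Real.log a) ^ C
      ≤ 12 * (G : ℝ) ^ 2 * (3 * Real.log a) ^ 2 * (3 * Real.log a) ^ C := by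
        apply mul_le_mul _ h13 (by positivity) (by positivity)
        exact mul_le_mul_of_nonneg_left h12 (by positivity)
    _ = 12 * (G : ℝ) ^ 2 * 3 ^ 2 * 3 ^ C * Real.log a ^ (2 + C) := by
        rw [mul_pow, mul_pow, pow_add]
        ring

theorem sift_lowerV (X w G B : ℕ) (hw : 8 * (X + 1) ≤ w) (hG : 0 < G) (hGw : ∀ q : ℕ, q.Prime → q ∣ G → q ≤ w) :
    ∃ K' C a₀ : ℕ, 0 < K' ∧ ∀ a z : ℕ, a₀ ≤ a → a.Prime → 3 ≤ z → z ^ K' ≤ a →
      (a : ℝ) / Real.log a ^ C ≤ ((SiftV a G B X w z).card : ℝ) := by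
  obtain ⟨K, C, hS⟩ := sieveK (4 * (X + 1))
  obtain ⟨a₁, ha₁⟩ := SftV_large G C hG
  refine ⟨12 * (K + 1), C + 1, max a₁ (w + 1), by omega, ?_⟩
  intro a z ha0 ha hz hza
  obtain ⟨hl2, hl3, hl4⟩ := ha₁ a ((le_max_left _ _).trans ha0)
  have hwa : w < a := (le_max_right _ _).trans ha0
  have hzlt : z < a := by
    have h1 : z ^ 1 < z ^ (12 * (K + 1)) := Nat.pow_lt_pow_right (by omega) (by omega)
    rw [pow_one] at h1
    omega
  have ha1 : (1 : ℝ) < a := by exact_mod_cast ha.one_lt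
  have hG0 : (0 : ℝ) < G := by exact_mod_cast hG
  have hz1 : (1 : ℝ) ≤ z := by exact_mod_cast (by omega : 1 ≤ z)
  set L : ℝ := Real.log a with hL
  set R : ℝ := ((z : ℝ) ^ K) ^ 2 * (3 * √a * (3 + L) ^ 2) with hR
  have hR0 : 0 ≤ R := by positivity
  have h := hS (ℕ × ℕ) z (Fam a G B) (fun q x => w < q ∧ (x.1 % q, x.2 % q) ∈ badV a X q)
    (SftV_G a X w) ((a : ℝ) / (G : ℝ) ^ 2) R hz (fun p hp => by
      have hp' : p.Prime ∧ p ≤ z := by
        simp only [Pool.Agent.Lib.MP_42948a_nt.OA.PP, mem_filter, mem_Icc] at hp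
        exact ⟨hp.2, hp.1.2⟩
      exact SftV_g a X w z p hw ha hzlt hp'.1 hp'.2) (by positivity) hR0
    (fun T hT hTK => SftV_count a G B X w z K ha hG hGw hwa hzlt T hT hTK)
  have h2 : (((Fam a G B).filter (fun t : ℕ × ℕ => ∀ p ∈ Pool.Agent.Lib.MP_42948a_nt.OA.PP z,
      ¬ (w < p ∧ (t.1 % p, t.2 % p) ∈ badV a X p))).card : ℝ) ≤ ((SiftV a G B X w z).card : ℝ) := by
    exact_mod_cast card_le_card (SftV_sub a G B X w z ha hzlt)
  refine le_trans ?_ (h.trans h2)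
  -- the main term
  have hlz : Real.log z ≤ L := Real.log_le_log (by linarith) (by exact_mod_cast hzlt.le)
  have hlz0 : 0 ≤ Real.log z := Real.log_nonneg hz1
  have hm : (a : ℝ) / (G : ℝ) ^ 2 / (2 * (2 + L) ^ C) ≤ (a : ℝ) / (G : ℝ) ^ 2 / (2 * (2 + Real.log z) ^ C) := by
    apply div_le_div_of_nonneg_left (by positivity) (by positivity)
    have : (2 + Real.log z) ^ C ≤ (2 + L) ^ C := pow_le_pow_left₀ (by linarith) (by linarith) C
    linarith
  -- the error term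
  set u : ℝ := √(√a) with hu
  have hu0 : 0 < u := by positivity
  have hu2 : u ^ 2 = √a := Real.sq_sqrt (by positivity)
  have hu4 : u ^ 4 = a := by
    have : u ^ 4 = (u ^ 2) ^ 2 := by ring
    rw [this, hu2, Real.sq_sqrt (by linarith)]
  have hz4 : (z : ℝ) ^ (3 * K) ≤ u := by
    have h3 : ((z : ℝ) ^ (3 * K)) ^ 4 ≤ u ^ 4 := by
      rw [hu4, ← pow_mul]
      have h4 : (z : ℝ) ^ (3 * K * 4) ≤ (z : ℝ) ^ (12 * (K + 1)) :=
        pow_le_pow_right₀ hz1 (by omega)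
      refine h4.trans ?_
      exact_mod_cast hza
    exact le_of_pow_le_pow_left₀ (by norm_num) hu0.le h3
  have he : (z : ℝ) ^ K * R ≤ u * (3 * u ^ 2 * (3 + L) ^ 2) := by
    have e1 : (z : ℝ) ^ K * R = (z : ℝ) ^ (3 * K) * (3 * u ^ 2 * (3 + L) ^ 2) := by
      rw [hR, hu2]
      ring
    rw [e1]
    exact mul_le_mul_of_nonneg_right hz4 (by positivity)
  have he2 : u * (3 * u ^ 2 * (3 + L) ^ 2) ≤ (a : ℝ) / (G : ℝ) ^ 2 / (4 * (2 + L) ^ C) := by
    rw [div_div, le_div_iff₀ (by positivity), ← hu4]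
    have h5 : u * (3 * u ^ 2 * (3 + L) ^ 2) * ((G : ℝ) ^ 2 * (4 * (2 + L) ^ C)) =
        u ^ 3 * (12 * (G : ℝ) ^ 2 * (3 + L) ^ 2 * (2 + L) ^ C) := by ring
    rw [h5]
    have h6 : u ^ 4 = u ^ 3 * u := by ring
    rw [h6]
    exact mul_le_mul_of_nonneg_left hl4 (by positivity)
  have hfin : (a : ℝ) / L ^ (C + 1) ≤ (a : ℝ) / (G : ℝ) ^ 2 / (4 * (2 + L) ^ C) := by
    rw [div_div]
    apply div_le_div_of_nonneg_left (by linarith) (by positivity)
    have h7 : (2 + L) ^ C ≤ (2 * L) ^ C := pow_le_pow_left₀ (by linarith) (by linarith) C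
    calc (G : ℝ) ^ 2 * (4 * (2 + L) ^ C) ≤ (G : ℝ) ^ 2 * (4 * (2 * L) ^ C) := by
          apply mul_le_mul_of_nonneg_left _ (by positivity)
          linarith
      _ = 4 * (G : ℝ) ^ 2 * 2 ^ C * L ^ C := by
          rw [mul_pow]
          ring
      _ ≤ L * L ^ C := mul_le_mul_of_nonneg_right hl3 (by positivity)
      _ = L ^ (C + 1) := by ring
  have hsum : (a : ℝ) / (G : ℝ) ^ 2 / (2 * (2 + L) ^ C) =
      (a : ℝ) / (G : ℝ) ^ 2 / (4 * (2 + L) ^ C) + (a : ℝ) / (G : ℝ) ^ 2 / (4 * (2 + L) ^ C) := by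
    have : (2 + L) ^ C ≠ 0 := by positivity
    field_simp
    ring
  linarith

end Pool.Agent.Lib.MP_d57abb_nt.Ev
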