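import Mathlib
import Pool.Agent.Lib.MP_d57abb_nt.Ev.CouV
import Pool.Agent.Lib.MP_d57abb_nt.Ev.SftV
import Pool.Agent.Lib.MP_d57abb_nt.AP.Pri

/-!
# JOB FinV: the lower bound for almost primes

PROOF: adaptation of `AP/Fin.lean` (complete there) with `(X + 2)²` in place of `(X + 1)²` in the size, `SSV_le`, `sift_lowerV` and the factor `(2 (X + 1))²`.
-/

open Finset Filter

namespace Pool.Agent.Lib.MP_d57abb_nt.Ev

open Pool.Agent.Lib.MP_d57abb_nt Pool.Agent.Lib.MP_d57abb_nt.All Pool.Agent.Lib.MP_d57abb_nt.AP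

private theorem FinV_root (K : ℕ) (hK : 0 < K) (M : ℕ) (h3 : 3 ^ K ≤ M) :
    ∃ z : ℕ, 3 ≤ z ∧ z ^ K ≤ M ∧ Real.log M ≤ K * (Real.log z + Real.log 2) := by
  classical
  have h3M : 3 ≤ M := le_trans (Nat.le_self_pow hK.ne' 3) h3
  set z : ℕ := Nat.findGreatest (fun n => n ^ K ≤ M) M with hz
  have hz3 : 3 ≤ z := Nat.le_findGreatest h3M h3
  have hzK : z ^ K ≤ M := Nat.findGreatest_spec (P := fun n => n ^ K ≤ M) h3M h3
  have hlt : M < (z + 1) ^ K := by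
    by_contra hc
    push Not at hc
    have h4 : z + 1 ≤ M := le_trans (Nat.le_self_pow hK.ne' (z + 1)) hc
    have h5 : z + 1 ≤ z := Nat.le_findGreatest (P := fun n => n ^ K ≤ M) h4 hc
    omega
  refine ⟨z, hz3, hzK, ?_⟩
  have hzr : (3 : ℝ) ≤ z := by exact_mod_cast hz3
  have hMpos : (0 : ℝ) < M := by
    have : (3 : ℝ) ≤ M := by exact_mod_cast h3M
    linarith
  have h6 : (M : ℝ) ≤ ((z : ℝ) * 2) ^ K := by
    have h7 : (M : ℝ) ≤ ((z : ℝ) + 1) ^ K := by exact_mod_cast hlt.le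
    refine h7.trans (pow_le_pow_left₀ (by linarith) (by linarith) K)
  calc Real.log M ≤ Real.log (((z : ℝ) * 2) ^ K) := Real.log_le_log hMpos h6
    _ = K * (Real.log z + Real.log 2) := by
        rw [Real.log_pow, Real.log_mul (by linarith) (by norm_num)]

private theorem FinV_mono {m : ℕ} (h : ℕ → ZMod m) (c : ZMod m) (C : ℕ) {N N' : ℕ} (hN : N ≤ N') :
    (FC h c C N).card ≤ (FC h c C N').card := by
  classical
  apply Finset.card_le_card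
  intro k hk
  simp only [FC, mem_filter, mem_Icc] at hk ⊢
  exact ⟨⟨hk.1.1, hk.1.2.trans hN⟩, hk.2⟩

theorem fin_lowerV {m : ℕ} {h : ℕ → ZMod m} {X : ℕ} {δ₀ u₀ : ℤ × ℤ} {dl co : ℕ → ℤ × ℤ} {B w E : ℕ}
    (P : ParV h X δ₀ u₀ dl co B w E) : ∃ C N₀ : ℕ, ∀ cc : ZMod m, ∀ N : ℕ, N₀ ≤ N →
      (N : ℝ) / Real.log N ^ C ≤ ((FC h (2 * cc) C N).card : ℝ) := by
  set G : ℕ := w.factorial ^ E with hGdef
  have hG : 0 < G := by positivity
  have hGw : ∀ q : ℕ, q.Prime → q ∣ G → q ≤ w := by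
    intro q hq hd
    exact (hq.dvd_factorial).1 (hq.dvd_of_dvd_pow hd)
  obtain ⟨K', C₂, a₀, hK', hs⟩ := sift_lowerV X w G B P.hw hG hGw
  obtain ⟨A₀, hp⟩ := primes_lower G hG
  set C : ℕ := 2 * (w * E + 6 * K') + C₂ + 4 with hC
  set D : ℕ := 20 * 2 ^ (C + 1) * (X + 2) ^ 2 * (2 * (X + 1)) ^ 2 with hD
  obtain ⟨A₂, hA₂⟩ := Filter.eventually_atTop.1
    ((Real.tendsto_log_atTop.comp tendsto_natCast_atTop_atTop).eventually_ge_atTop (D : ℝ))
  set A₁ : ℕ := A₀ + A₂ + 2 * a₀ + 5 * (X + 2) ^ 2 + 9 * 4 ^ K' + 2 * 3 ^ K' + 2 * (X + 2) + 10 with hA₁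
  refine ⟨C, 5 * (X + 2) ^ 2 * (A₁ + 1) ^ 2, fun cc N hN => ?_⟩
  set c₅ : ℕ := 5 * (X + 2) ^ 2 with hc₅
  have hc₅pos : 0 < c₅ := by positivity
  set A : ℕ := Nat.sqrt (N / c₅) with hA
  have hle : c₅ * A ^ 2 ≤ N := by
    have h1 : A ^ 2 ≤ N / c₅ := Nat.sqrt_le' _
    calc c₅ * A ^ 2 ≤ c₅ * (N / c₅) := Nat.mul_le_mul_left _ h1
      _ ≤ N := Nat.mul_div_le _ _
  have hlt : N < c₅ * (A + 1) ^ 2 := by
    have h1 : N / c₅ < (A + 1) ^ 2 := Nat.lt_succ_sqrt' _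
    have h2 := (Nat.div_lt_iff_lt_mul hc₅pos).1 h1
    rwa [Nat.mul_comm] at h2
  have hAA : A₁ ≤ A := by
    by_contra hcon
    push Not at hcon
    have h1 : A + 1 ≤ A₁ + 1 := by omega
    have h2 : c₅ * (A + 1) ^ 2 ≤ c₅ * (A₁ + 1) ^ 2 :=
      Nat.mul_le_mul_left _ (Nat.pow_le_pow_left h1 2)
    omega
  have e1 : A₀ ≤ A := by omega
  have e2 : A₂ ≤ A := by omega
  have e3 : 2 * a₀ ≤ A := by omega
  have e4 : c₅ ≤ A := by omega
  have e5 : 9 * 4 ^ K' ≤ A := by omega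
  have e6 : 2 * 3 ^ K' ≤ A := by omega
  have e7 : 2 * (X + 2) ≤ A := by omega
  have e8 : 10 ≤ A := by omega
  have hlogD : (D : ℝ) ≤ Real.log A := hA₂ A e2
  have hAr : (10 : ℝ) ≤ A := by exact_mod_cast e8
  have hApos : (0 : ℝ) < A := by linarith
  have hD1 : (1 : ℝ) ≤ D := by
    have : 1 ≤ D := Nat.succ_le_of_lt (by positivity)
    exact_mod_cast this
  have hlogA1 : 1 ≤ Real.log A := hD1.trans hlogD
  have hlogApos : 0 < Real.log A := by linarith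
  obtain ⟨z, hz3, hzK, hzlog⟩ := FinV_root K' hK' (A / 2) (by omega)
  have hzr : (3 : ℝ) ≤ z := by exact_mod_cast hz3
  have hlogz : 0 < Real.log z := Real.log_pos (by linarith)
  have hKr : (0 : ℝ) < K' := by exact_mod_cast hK'
  -- the size of `A / 2`
  have hhalf : (A : ℝ) ≤ 3 * ((A / 2 : ℕ) : ℝ) := by
    have : A ≤ 3 * (A / 2) := by omega
    exact_mod_cast this
  have hhpos : (0 : ℝ) < ((A / 2 : ℕ) : ℝ) := by linarith
  have hl1 : Real.log A ≤ Real.log 3 + Real.log ((A / 2 : ℕ) : ℝ) := by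
    rw [← Real.log_mul (by norm_num) hhpos.ne']
    exact Real.log_le_log hApos hhalf
  have hl2 : 2 * Real.log 3 + 2 * (K' * Real.log 2) ≤ Real.log A := by
    have h1 : Real.log ((9 : ℝ) * 4 ^ K') ≤ Real.log A := by
      apply Real.log_le_log (by positivity)
      exact_mod_cast e5
    rw [Real.log_mul (by norm_num) (by positivity), Real.log_pow] at h1
    have h9 : Real.log (9 : ℝ) = 2 * Real.log 3 := by
      rw [show (9 : ℝ) = 3 ^ 2 by norm_num, Real.log_pow]; norm_num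
    have h4 : Real.log (4 : ℝ) = 2 * Real.log 2 := by
      rw [show (4 : ℝ) = 2 ^ 2 by norm_num, Real.log_pow]; norm_num
    rw [h9, h4] at h1
    linarith
  have hl3 : Real.log A ≤ 2 * (K' * Real.log z) := by
    have h1 : (K' : ℝ) * (Real.log z + Real.log 2) = K' * Real.log z + K' * Real.log 2 := by ring
    rw [h1] at hzlog
    linarith
  have hl4 : Real.log (5 * ((X : ℝ) + 2) ^ 2 * (A : ℝ) ^ 2) ≤ 3 * Real.log A := by
    have h1 : (5 * ((X : ℝ) + 2) ^ 2) ≤ A := by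
      have : ((5 * (X + 2) ^ 2 : ℕ) : ℝ) ≤ A := by exact_mod_cast e4
      push_cast at this
      exact this
    have h2 : (5 * ((X : ℝ) + 2) ^ 2 * (A : ℝ) ^ 2) ≤ (A : ℝ) ^ 3 := by
      calc (5 * ((X : ℝ) + 2) ^ 2 * (A : ℝ) ^ 2) ≤ A * (A : ℝ) ^ 2 :=
            mul_le_mul_of_nonneg_right h1 (by positivity)
        _ = (A : ℝ) ^ 3 := by ring
    calc Real.log (5 * ((X : ℝ) + 2) ^ 2 * (A : ℝ) ^ 2) ≤ Real.log ((A : ℝ) ^ 3) :=
          Real.log_le_log (by positivity) h2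
      _ = 3 * Real.log A := by rw [Real.log_pow]; norm_num
  have hCC : 2 * ((w : ℝ) * E + Real.log (5 * ((X : ℝ) + 2) ^ 2 * (A : ℝ) ^ 2) / Real.log z) ≤ C := by
    have h1 : Real.log (5 * ((X : ℝ) + 2) ^ 2 * (A : ℝ) ^ 2) / Real.log z ≤ 6 * K' := by
      rw [div_le_iff₀ hlogz]
      nlinarith
    have h2 : ((C : ℕ) : ℝ) = 2 * ((w : ℝ) * E + 6 * K') + C₂ + 4 := by
      rw [hC]; push_cast; ring
    rw [h2]
    have h3 : (0 : ℝ) ≤ C₂ := Nat.cast_nonneg _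
    linarith
  have hSS := SSV_le P cc A z C e7 (by omega) hCC
  rw [← hGdef] at hSS
  -- lower bound for `SS`
  have hlow : (A : ℝ) ^ 2 / (2 * Real.log A ^ (C₂ + 2)) ≤ ((SSV A G B X w z).card : ℝ) := by
    classical
    have h1 : (SSV A G B X w z).card =
        ∑ a ∈ (Ioc (A / 2) A).filter (fun a => a.Prime ∧ a ≡ 1 [MOD G]), (SiftV a G B X w z).card := by
      unfold SSV
      rw [Finset.card_sigma]
    rw [h1]
    push_cast
    have h2 : ∀ a ∈ (Ioc (A / 2) A).filter (fun a => a.Prime ∧ a ≡ 1 [MOD G]),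
        (A : ℝ) / 2 / Real.log A ^ C₂ ≤ ((SiftV a G B X w z).card : ℝ) := by
      intro a ha
      rw [mem_filter, mem_Ioc] at ha
      obtain ⟨⟨ha1, ha2⟩, ha3, ha4⟩ := ha
      have h3 := hs a z (by omega) ha3 hz3 (hzK.trans ha1.le)
      refine le_trans ?_ h3
      have h5 : (A : ℝ) ≤ 2 * a := by
        have : A ≤ 2 * a := by omega
        exact_mod_cast this
      have h6 : (a : ℝ) ≤ A := by exact_mod_cast ha2
      have h7 : (3 : ℝ) ≤ a := by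
        have h8 : 3 ≤ a := by
          have h9 : z ≤ z ^ K' := Nat.le_self_pow hK'.ne' z
          omega
        exact_mod_cast h8
      have h8 : 0 < Real.log a := Real.log_pos (by linarith)
      have h9 : Real.log a ≤ Real.log A := Real.log_le_log (by linarith) h6
      exact div_le_div₀ (by linarith) (by linarith) (pow_pos h8 _) (pow_le_pow_left₀ h8.le h9 _)
    have h3 := Finset.card_nsmul_le_sum _ _ _ h2
    rw [nsmul_eq_mul] at h3
    refine le_trans ?_ h3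
    have h4 := hp A e1
    have h5 : (A : ℝ) ^ 2 / (2 * Real.log A ^ (C₂ + 2)) =
        (A : ℝ) / Real.log A ^ 2 * ((A : ℝ) / 2 / Real.log A ^ C₂) := by
      rw [pow_add]
      field_simp
    rw [h5]
    exact mul_le_mul_of_nonneg_right h4 (by positivity)
  have hSSr : ((SSV A G B X w z).card : ℝ) ≤
      ((FC h (2 * cc) C N).card : ℝ) * (2 ^ C * (2 * ((X : ℝ) + 1)) ^ 2) := by
    have h1 : (SSV A G B X w z).card ≤ (FC h (2 * cc) C N).card * (2 ^ C * (2 * (X + 1)) ^ 2) :=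
      hSS.trans (Nat.mul_le_mul_right _ (FinV_mono h (2 * cc) C hle))
    exact_mod_cast h1
  have hXpos : (0 : ℝ) < 2 ^ C * (2 * ((X : ℝ) + 1)) ^ 2 := by positivity
  have hfin : (A : ℝ) ^ 2 / (2 * Real.log A ^ (C₂ + 2)) / (2 ^ C * (2 * ((X : ℝ) + 1)) ^ 2) ≤
      ((FC h (2 * cc) C N).card : ℝ) := by
    rw [div_le_iff₀ hXpos]
    exact hlow.trans hSSr
  refine le_trans ?_ hfin
  -- the comparison
  have hNA : A ≤ N := by
    have h1 : A ≤ A ^ 2 := Nat.le_self_pow (by norm_num) A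
    have h2 : A ^ 2 ≤ c₅ * A ^ 2 := Nat.le_mul_of_pos_left _ hc₅pos
    omega
  have hNAr : (A : ℝ) ≤ N := by exact_mod_cast hNA
  have hlogN : Real.log A ≤ Real.log N := Real.log_le_log hApos hNAr
  have hlogNpos : 0 < Real.log N := by linarith
  have hNle : (N : ℝ) ≤ 20 * ((X : ℝ) + 2) ^ 2 * (A : ℝ) ^ 2 := by
    have h1 : (N : ℝ) ≤ 5 * ((X : ℝ) + 2) ^ 2 * ((A : ℝ) + 1) ^ 2 := by
      have : ((N : ℕ) : ℝ) ≤ ((5 * (X + 2) ^ 2 * (A + 1) ^ 2 : ℕ) : ℝ) := by exact_mod_cast hlt.le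
      push_cast at this
      exact this
    have h2 : ((A : ℝ) + 1) ^ 2 ≤ 4 * (A : ℝ) ^ 2 := by nlinarith
    calc (N : ℝ) ≤ 5 * ((X : ℝ) + 2) ^ 2 * ((A : ℝ) + 1) ^ 2 := h1
      _ ≤ 5 * ((X : ℝ) + 2) ^ 2 * (4 * (A : ℝ) ^ 2) := mul_le_mul_of_nonneg_left h2 (by positivity)
      _ = 20 * ((X : ℝ) + 2) ^ 2 * (A : ℝ) ^ 2 := by ring
  rw [div_div, div_le_div_iff₀ (pow_pos hlogNpos _) (by positivity)]
  have hpow : (D : ℝ) * Real.log A ^ (C₂ + 2) ≤ Real.log N ^ C := by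
    have h1 : Real.log A ^ (C₂ + 3) ≤ Real.log A ^ C :=
      pow_le_pow_right₀ hlogA1 (by omega)
    have h2 : Real.log A ^ C ≤ Real.log N ^ C := pow_le_pow_left₀ hlogApos.le hlogN _
    calc (D : ℝ) * Real.log A ^ (C₂ + 2) ≤ Real.log A * Real.log A ^ (C₂ + 2) :=
          mul_le_mul_of_nonneg_right hlogD (by positivity)
      _ = Real.log A ^ (C₂ + 3) := by ring
      _ ≤ _ := h1.trans h2
  have hDr : (D : ℝ) = 20 * 2 ^ (C + 1) * ((X : ℝ) + 2) ^ 2 * (2 * ((X : ℝ) + 1)) ^ 2 := by rw [hD]; push_cast; ring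
  rw [hDr] at hpow
  calc (N : ℝ) * (2 * Real.log A ^ (C₂ + 2) * (2 ^ C * (2 * ((X : ℝ) + 1)) ^ 2))
      ≤ (20 * ((X : ℝ) + 2) ^ 2 * (A : ℝ) ^ 2) *
        (2 * Real.log A ^ (C₂ + 2) * (2 ^ C * (2 * ((X : ℝ) + 1)) ^ 2)) :=
        mul_le_mul_of_nonneg_right hNle (by positivity)
    _ = (A : ℝ) ^ 2 * (20 * 2 ^ (C + 1) * ((X : ℝ) + 2) ^ 2 * (2 * ((X : ℝ) + 1)) ^ 2 * Real.log A ^ (C₂ + 2)) := by
        rw [pow_succ 2 C]; ring
    _ ≤ (A : ℝ) ^ 2 * Real.log N ^ C := mul_le_mul_of_nonneg_left hpow (by positivity)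

end Pool.Agent.Lib.MP_d57abb_nt.Ev
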