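import Mathlib
import Pool.Agent.Lib.MP_d57abb_nt.Ev.Crt
import Pool.Agent.Lib.MP_d57abb_nt.Ev.Edge

/-!
# JOB Typ3: residue types for three groups

PROOF (model: `exists_types` in `All/Typ.lean`).  `I = (A × B) ⊕ ((A × C) ⊕ (B × C))`.  For `i : I` let `g i` be the corresponding value (`gAB a b` etc.), `κ i : ℕ` with `(κ i : ZMod m) * γ = g i - c - γ` (`γ` is a unit; `ZMod.val`).
`exists_fam I κ (5 * Q) (max P₀ (max w (5 * Q)))` gives `D`; `h (D i) = κ i * γ` (`h_squarefree`, the primes of `D i` are `> P₀` and `≡ 1 (mod 5 Q)`), so `c + (h (D i) + γ) = g i`.  `V = 5 Q w!`, `W = (∏ D)² V`, all `D i` are prime to `V`.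
Residues by `crt3`:
* `a ∈ A`: `r a` with `v₀ = 0`, `r₀ = 2`, `Z` = the pairs containing `a` (of the two kinds), `E = ∅`;
* `b ∈ B`: `s b` with `v₀ = 1`, `r₀ = 1`, `Z` = the pairs `(b, c)`, `E` = the pairs `(a, b)`;
* `c ∈ C`: `t c` with `v₀ = 1`, `r₀ = 1`, `Z = ∅`, `E` = the pairs `(a, c)` and `(b, c)`.
`ρA a = r a`, `σB b = 2 W + s b`, `ρC c = 2 W + t c`.  All primes `p` dividing some `D j` are `> 5`.  The edges by `edge_cn`:
* `(a, b)`, `Δ = 2 W + s b - 2 r a` (`> 0`): `D ∣ r a`, `D ∣ Δ`.  `p ∣ D`: `p² ∣ r a`, `p² ∣ W`, `p² ∤ s b`, so `p² ∤ Δ`.  For another pair `j` and a prime `p ∣ D j`: modulo `p` (`p ∣ W`), `r a ≡ 0` if `a ∈ j` and `≡ 2` if not; `s b ≡ 0` if `b ∈ j` and `≡ 1` if not; not both are in `j` (`j ≠ (a, b)`):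
 `Δ ≡ 1` (`a ∈ j`, `b ∉ j`), `-4` (`a ∉ j`, `b ∈ j`), `-3` (neither): not `0` modulo `p > 5`.  Modulo `V`: `Δ ≡ 1`.
* `(a, c)`, `Δ = 2 W + t c - r a`: `p ∣ D`: `p² ∣ r a`, `p² ∤ t c`.  Others: `Δ ≡ 1`, `-2`, `-1`.  Modulo `V`: `1 - 0`.
* `(b, c)`, `Δ = 2 (2 W + t c) - (2 W + s b) = 2 W + 2 t c - s b`: `D ∣ t c` (the `t` of `edge_cn` is `ρC c`, `D ∣ W`); `p ∣ D`: `p² ∣ s b`, `p² ∤ t c`, `p` odd, so `p² ∤ Δ`.  Others: (`b ∈ j`, `c ∉ j`) `2 - 0`, (`b ∉ j`, `c ∈ j`) `0 - 1`, (neither) `2 - 1`.  Modulo `V`: `2 - 1 = 1`.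
(It is convenient to prove `¬ p ∣ Δ` by casting to `ZMod p` or by `Int` congruences; write `x + 2 * r = y` instead of natural subtraction.)
-/

namespace Pool.Agent.Lib.MP_d57abb_nt.Ev

open Pool.Agent.Lib.MP_d57abb_nt Pool.Agent.Lib.MP_d57abb_nt.All

private theorem Typ3_ndvd {p x y Δ a b : ℕ} (hΔ : Δ + x = y) (hx : x ≡ a [MOD p])
    (hy : y ≡ b [MOD p]) (hab : a ≠ b) (ha : a < p) (hb : b < p) : ¬ p ∣ Δ := by
  intro hd
  have h1 : Δ + x ≡ 0 + x [MOD p] := Nat.ModEq.add_right _ ((Nat.modEq_zero_iff_dvd).2 hd)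
  rw [hΔ, zero_add] at h1
  exact hab (Nat.ModEq.eq_of_lt_of_lt ((hx.symm.trans h1.symm).trans hy) ha hb)

theorem types3 {m : ℕ} [NeZero m] {h : ℕ → ZMod m} (hh : Add h) (Q : ℕ) (hQ : 0 < Q)
    (γ : ZMod m) (hγ : IsUnit γ) (P₀ : ℕ) (hP : ∀ p : ℕ, p.Prime → P₀ ≤ p → p % Q = 1 % Q → h p = γ)
    (c : ZMod m) (w : ℕ) (A B C : Type) [Fintype A] [Fintype B] [Fintype C] [DecidableEq A]
    [DecidableEq B] [DecidableEq C] (gAB : A → B → ZMod m) (gAC : A → C → ZMod m) (gBC : B → C → ZMod m) :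
    ∃ (W : ℕ) (ρA : A → ℕ) (σB : B → ℕ) (ρC : C → ℕ), 0 < W ∧ (∀ a, ρA a < W) ∧
      (∀ b, 2 * W ≤ σB b ∧ σB b < 3 * W) ∧ (∀ k, 2 * W ≤ ρC k ∧ ρC k < 3 * W) ∧
      (∀ a b, ∃ D W₁ n : ℕ, Cn h Q w W γ c (ρA a) (σB b - 2 * ρA a) (gAB a b) D W₁ n) ∧
      (∀ a k, ∃ D W₁ n : ℕ, Cn h Q w W γ c (ρA a) (ρC k - ρA a) (gAC a k) D W₁ n) ∧
      (∀ b k, ∃ D W₁ n : ℕ, Cn h Q w W γ c (ρC k) (2 * ρC k - σB b) (gBC b k) D W₁ n) := by
  classical
  have hQ5 : 0 < 5 * Q := by omega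
  obtain ⟨u, hu⟩ := hγ
  have hu' : ((u⁻¹ : (ZMod m)ˣ) : ZMod m) * γ = 1 := by
    rw [← hu]
    exact u.inv_mul
  let I := (A × B) ⊕ ((A × C) ⊕ (B × C))
  let gI : I → ZMod m := Sum.elim (fun x => gAB x.1 x.2)
    (Sum.elim (fun x => gAC x.1 x.2) (fun x => gBC x.1 x.2))
  let κ : I → ℕ := fun i => ((gI i - c - γ) * ((u⁻¹ : (ZMod m)ˣ) : ZMod m)).val
  have hκv : ∀ i, c + ((κ i : ZMod m) * γ + γ) = gI i := by
    intro i
    simp only [κ, ZMod.natCast_zmod_val]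
    linear_combination (gI i - c - γ) * hu'
  obtain ⟨D, hs, hcop, hpr, hcard⟩ := exists_fam I κ (5 * Q) hQ5 (max P₀ (max w (5 * Q)))
  have hbig : ∀ i, ∀ p : ℕ, p.Prime → p ∣ D i → P₀ < p ∧ w < p ∧ 5 * Q < p := by
    intro i p hp hpi
    have h3 := (hpr i p hp hpi).1
    simp only [max_lt_iff] at h3
    exact ⟨h3.1, h3.2.1, h3.2.2⟩
  have h5 : ∀ i, ∀ p : ℕ, p.Prime → p ∣ D i → 5 < p := by
    intro i p hp hpi
    have h3 := (hbig i p hp hpi).2.2
    omega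
  have hmod : ∀ i, ∀ p : ℕ, p.Prime → p ∣ D i → p ≡ 1 [MOD 5 * Q] := fun i p hp hpi =>
    (hpr i p hp hpi).2
  have hγp : ∀ i, ∀ p : ℕ, p.Prime → p ∣ D i → h p = γ := fun i p hp hpi =>
    hP p hp (hbig i p hp hpi).1.le ((hmod i p hp hpi).of_dvd (Dvd.intro_left _ rfl))
  have hpr' : ∀ i, ∀ p : ℕ, p.Prime → p ∣ D i → w < p ∧ 5 * Q < p ∧ p % (5 * Q) = 1 % (5 * Q) :=
    fun i p hp hpi => ⟨(hbig i p hp hpi).2.1, (hbig i p hp hpi).2.2, hmod i p hp hpi⟩
  have hgD : ∀ i, c + (h (D i) + γ) = gI i := by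
    intro i
    rw [h_squarefree hh γ (D i) (hs i) (hγp i), hcard]
    exact hκv i
  obtain ⟨V, hVdef⟩ : ∃ V : ℕ, V = 5 * Q * w.factorial := ⟨_, rfl⟩
  have hV : 0 < V := by
    rw [hVdef]
    exact Nat.mul_pos hQ5 (Nat.factorial_pos w)
  have hVp : ∀ p : ℕ, p.Prime → p ∣ V → p ≤ w ∨ p ≤ 5 * Q := by
    intro p hp hpV
    rw [hVdef] at hpV
    rcases (hp.dvd_mul).1 hpV with h3 | h3
    · exact Or.inr (Nat.le_of_dvd hQ5 h3)
    · exact Or.inl ((hp.dvd_factorial).1 h3)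
  have hVc : ∀ i, Nat.Coprime V (D i) := by
    intro i
    by_contra hcon
    obtain ⟨p, hp, hpV, hpi⟩ := Nat.Prime.not_coprime_iff_dvd.1 hcon
    have h3 := hbig i p hp hpi
    rcases hVp p hp hpV with h4 | h4 <;> omega
  obtain ⟨W, hWdef⟩ : ∃ W : ℕ, W = (∏ i, D i) ^ 2 * V := ⟨_, rfl⟩
  have hW0 : 0 < W := by
    rw [hWdef]
    exact Nat.mul_pos (pow_pos (Finset.prod_pos fun i _ => Nat.pos_of_ne_zero (hs i).ne_zero) 2) hV
  have hDK : ∀ i, D i ∣ ∏ i, D i := fun i => Finset.dvd_prod_of_mem D (Finset.mem_univ i)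
  have hDW : ∀ i, D i ^ 2 ∣ W := by
    intro i
    rw [hWdef]
    exact (pow_dvd_pow_of_dvd (hDK i) 2).trans (Dvd.intro _ rfl)
  have hDW1 : ∀ i, D i ∣ W := fun i => (dvd_pow_self _ two_ne_zero).trans (hDW i)
  have hVW : V ∣ W := by
    rw [hWdef]
    exact Dvd.intro_left _ rfl
  -- the residues
  have hA : ∀ a : A, ∃ r : ℕ, r < W ∧ r ≡ 0 [MOD V] ∧ (∀ b, D (Sum.inl (a, b)) ^ 2 ∣ r) ∧
      (∀ k, D (Sum.inr (Sum.inl (a, k))) ^ 2 ∣ r) ∧
      (∀ a' b, a' ≠ a → r ≡ 2 [MOD D (Sum.inl (a', b))]) ∧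
      (∀ a' k, a' ≠ a → r ≡ 2 [MOD D (Sum.inr (Sum.inl (a', k)))]) ∧
      ∀ b k, r ≡ 2 [MOD D (Sum.inr (Sum.inr (b, k)))] := by
    intro a
    obtain ⟨r, r1, r2, r3, -, -, r6⟩ := crt3 hs hcop hV hVc 0 2
      ((Finset.univ : Finset I).filter fun i => Sum.elim (fun x : A × B => x.1 = a)
        (Sum.elim (fun x : A × C => x.1 = a) (fun _ => False)) i) ∅ (Finset.disjoint_empty_right _)
    rw [← hWdef] at r1
    refine ⟨r, r1, r2, fun b => r3 _ ?_, fun k => r3 _ ?_, fun a' b h1 => r6 _ ?_ ?_,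
      fun a' k h1 => r6 _ ?_ ?_, fun b k => r6 _ ?_ ?_⟩
    · simp
    · simp
    · simpa using h1
    · simp
    · simpa using h1
    · simp
    · simp
    · simp
  have hB : ∀ b : B, ∃ r : ℕ, r < W ∧ r ≡ 1 [MOD V] ∧ (∀ k, D (Sum.inr (Sum.inr (b, k))) ^ 2 ∣ r) ∧
      (∀ a, D (Sum.inl (a, b)) ∣ r) ∧
      (∀ a, ∀ p : ℕ, p.Prime → p ∣ D (Sum.inl (a, b)) → ¬ p ^ 2 ∣ r) ∧
      (∀ a b', b' ≠ b → r ≡ 1 [MOD D (Sum.inl (a, b'))]) ∧
      (∀ a k, r ≡ 1 [MOD D (Sum.inr (Sum.inl (a, k)))]) ∧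
      ∀ b' k, b' ≠ b → r ≡ 1 [MOD D (Sum.inr (Sum.inr (b', k)))] := by
    intro b
    obtain ⟨r, r1, r2, r3, r4, r5, r6⟩ := crt3 hs hcop hV hVc 1 1
      ((Finset.univ : Finset I).filter fun i => Sum.elim (fun _ => False)
        (Sum.elim (fun _ => False) (fun x : B × C => x.1 = b)) i)
      ((Finset.univ : Finset I).filter fun i => Sum.elim (fun x : A × B => x.2 = b)
        (Sum.elim (fun _ => False) (fun _ => False)) i) (by
        rw [Finset.disjoint_filter]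
        rintro (x | x | x) _ h1 h2
        · exact h1
        · exact h1
        · exact h2)
    rw [← hWdef] at r1
    refine ⟨r, r1, r2, fun k => r3 _ ?_, fun a => r4 _ ?_, fun a => r5 _ ?_,
      fun a b' h1 => r6 _ ?_ ?_, fun a k => r6 _ ?_ ?_, fun b' k h1 => r6 _ ?_ ?_⟩
    · simp
    · simp
    · simp
    · simp
    · simpa using h1
    · simp
    · simp
    · simpa using h1
    · simp
  have hC : ∀ k : C, ∃ r : ℕ, r < W ∧ r ≡ 1 [MOD V] ∧
      (∀ a, D (Sum.inr (Sum.inl (a, k))) ∣ r) ∧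
      (∀ a, ∀ p : ℕ, p.Prime → p ∣ D (Sum.inr (Sum.inl (a, k))) → ¬ p ^ 2 ∣ r) ∧
      (∀ b, D (Sum.inr (Sum.inr (b, k))) ∣ r) ∧
      (∀ b, ∀ p : ℕ, p.Prime → p ∣ D (Sum.inr (Sum.inr (b, k))) → ¬ p ^ 2 ∣ r) ∧
      (∀ a b, r ≡ 1 [MOD D (Sum.inl (a, b))]) ∧
      (∀ a k', k' ≠ k → r ≡ 1 [MOD D (Sum.inr (Sum.inl (a, k')))]) ∧
      ∀ b k', k' ≠ k → r ≡ 1 [MOD D (Sum.inr (Sum.inr (b, k')))] := by
    intro k
    obtain ⟨r, r1, r2, -, r4, r5, r6⟩ := crt3 hs hcop hV hVc 1 1 ∅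
      ((Finset.univ : Finset I).filter fun i => Sum.elim (fun _ => False)
        (Sum.elim (fun x : A × C => x.2 = k) (fun x : B × C => x.2 = k)) i)
      (Finset.disjoint_empty_left _)
    rw [← hWdef] at r1
    refine ⟨r, r1, r2, fun a => r4 _ ?_, fun a => r5 _ ?_, fun b => r4 _ ?_, fun b => r5 _ ?_,
      fun a b => r6 _ ?_ ?_, fun a k' h1 => r6 _ ?_ ?_, fun b k' h1 => r6 _ ?_ ?_⟩
    · simp
    · simp
    · simp
    · simp
    · simp
    · simp
    · simp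
    · simpa using h1
    · simp
    · simpa using h1
  choose ρ a1 a2 a3 a4 a5 a6 a7 using hA
  choose σ b1 b2 b3 b4 b5 b6 b7 b8 using hB
  choose τ c1 c2 c3 c4 c5 c6 c7 c8 c9 using hC
  have hW2 : ∀ j, ∀ p : ℕ, p ∣ D j → W ≡ 0 [MOD p] := fun j p hpj =>
    (Nat.modEq_zero_iff_dvd).2 (hpj.trans (hDW1 j))
  have hWV : W ≡ 0 [MOD V] := (Nat.modEq_zero_iff_dvd).2 hVW
  refine ⟨W, ρ, fun b => 2 * W + σ b, fun k => 2 * W + τ k, hW0, a1, fun b => ⟨?_, ?_⟩,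
    fun k => ⟨?_, ?_⟩, fun a b => ?_, fun a k => ?_, fun b k => ?_⟩
  · show 2 * W ≤ 2 * W + σ b
    omega
  · show 2 * W + σ b < 3 * W
    have := b1 b
    omega
  · show 2 * W ≤ 2 * W + τ k
    omega
  · show 2 * W + τ k < 3 * W
    have := c1 k
    omega
  · -- the pair `(a, b)`
    show ∃ D W₁ n : ℕ, Cn h Q w W γ c (ρ a) (2 * W + σ b - 2 * ρ a) (gAB a b) D W₁ n
    obtain ⟨Δ, hΔd⟩ : ∃ Δ : ℕ, Δ = 2 * W + σ b - 2 * ρ a := ⟨_, rfl⟩
    have hΔ : Δ + 2 * ρ a = 2 * W + σ b := by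
      have := a1 a
      omega
    rw [← hΔd]
    have e1 : D (Sum.inl (a, b)) ∣ ρ a := (dvd_pow_self _ two_ne_zero).trans (a3 a b)
    have e2 : D (Sum.inl (a, b)) ∣ Δ := by
      have h1 : D (Sum.inl (a, b)) ∣ Δ + 2 * ρ a := by
        rw [hΔ]
        exact ((hDW1 _).mul_left 2).add (b4 b a)
      exact (Nat.dvd_add_left (e1.mul_left 2)).1 h1
    have e3 : ∀ p : ℕ, p.Prime → p ∣ D (Sum.inl (a, b)) → ¬ p ^ 2 ∣ Δ := by
      intro p hp hpi hpΔ
      apply b5 b a p hp hpi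
      have h1 : p ^ 2 ∣ D (Sum.inl (a, b)) ^ 2 := pow_dvd_pow_of_dvd hpi 2
      have h2 : p ^ 2 ∣ 2 * W + σ b := by
        rw [← hΔ]
        exact hpΔ.add ((h1.trans (a3 a b)).mul_left 2)
      exact (Nat.dvd_add_right ((h1.trans (hDW _)).mul_left 2)).1 h2
    have e4 : ∀ j, j ≠ Sum.inl (a, b) → ∀ p : ℕ, p.Prime → p ∣ D j → ¬ p ∣ Δ := by
      intro j hj p hp hpj
      have h5p := h5 j p hp hpj
      have hWp := (hW2 j p hpj).mul_left 2
      rcases j with ⟨a', b'⟩ | ⟨a', k'⟩ | ⟨b', k'⟩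
      · by_cases ha : a' = a
        · subst ha
          have hb : b' ≠ b := by
            rintro rfl
            exact hj rfl
          refine Typ3_ndvd (a := 2 * 0) (b := 2 * 0 + 1) hΔ ?_ ?_ (by norm_num) (by omega) (by omega)
          · exact ((Nat.modEq_zero_iff_dvd).2
              ((hpj.trans (dvd_pow_self _ two_ne_zero)).trans (a3 a' b'))).mul_left 2
          · exact hWp.add ((b6 b a' b' hb).of_dvd hpj)
        · by_cases hb : b' = b
          · subst hb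
            refine Typ3_ndvd (a := 2 * 2) (b := 2 * 0 + 0) hΔ ?_ ?_ (by norm_num) (by omega)
              (by omega)
            · exact ((a5 a a' b' ha).of_dvd hpj).mul_left 2
            · exact hWp.add ((Nat.modEq_zero_iff_dvd).2 (hpj.trans (b4 b' a')))
          · refine Typ3_ndvd (a := 2 * 2) (b := 2 * 0 + 1) hΔ ?_ ?_ (by norm_num) (by omega)
              (by omega)
            · exact ((a5 a a' b' ha).of_dvd hpj).mul_left 2
            · exact hWp.add ((b6 b a' b' hb).of_dvd hpj)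
      · by_cases ha : a' = a
        · subst ha
          refine Typ3_ndvd (a := 2 * 0) (b := 2 * 0 + 1) hΔ ?_ ?_ (by norm_num) (by omega) (by omega)
          · exact ((Nat.modEq_zero_iff_dvd).2
              ((hpj.trans (dvd_pow_self _ two_ne_zero)).trans (a4 a' k'))).mul_left 2
          · exact hWp.add ((b7 b a' k').of_dvd hpj)
        · refine Typ3_ndvd (a := 2 * 2) (b := 2 * 0 + 1) hΔ ?_ ?_ (by norm_num) (by omega) (by omega)
          · exact ((a6 a a' k' ha).of_dvd hpj).mul_left 2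
          · exact hWp.add ((b7 b a' k').of_dvd hpj)
      · by_cases hb : b' = b
        · subst hb
          refine Typ3_ndvd (a := 2 * 2) (b := 2 * 0 + 0) hΔ ?_ ?_ (by norm_num) (by omega) (by omega)
          · exact ((a7 a b' k').of_dvd hpj).mul_left 2
          · exact hWp.add ((Nat.modEq_zero_iff_dvd).2
              ((hpj.trans (dvd_pow_self _ two_ne_zero)).trans (b3 b' k')))
        · refine Typ3_ndvd (a := 2 * 2) (b := 2 * 0 + 1) hΔ ?_ ?_ (by norm_num) (by omega) (by omega)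
          · exact ((a7 a b' k').of_dvd hpj).mul_left 2
          · exact hWp.add ((b8 b b' k' hb).of_dvd hpj)
    have e5 : Δ ≡ 1 [MOD 5 * Q * w.factorial] := by
      rw [← hVdef]
      have h1 : Δ + 2 * ρ a ≡ 1 + 2 * 0 [MOD V] := by
        rw [hΔ]
        have h2 : 2 * W + σ b ≡ 2 * 0 + 1 [MOD V] := (hWV.mul_left 2).add (b2 b)
        exact h2
      exact Nat.ModEq.add_right_cancel ((a2 a).mul_left 2) h1
    have e6 := edge_cn Q w hQ γ c (gAB a b) D hs hpr' (Sum.inl (a, b)) (ρ a) Δ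
      (hgD (Sum.inl (a, b))) e1 e2 e3 e4 e5
    rw [← hVdef, ← hWdef] at e6
    exact ⟨_, _, _, e6⟩
  · -- the pair `(a, k)`
    show ∃ D W₁ n : ℕ, Cn h Q w W γ c (ρ a) (2 * W + τ k - ρ a) (gAC a k) D W₁ n
    obtain ⟨Δ, hΔd⟩ : ∃ Δ : ℕ, Δ = 2 * W + τ k - ρ a := ⟨_, rfl⟩
    have hΔ : Δ + ρ a = 2 * W + τ k := by
      have := a1 a
      omega
    rw [← hΔd]
    have e1 : D (Sum.inr (Sum.inl (a, k))) ∣ ρ a := (dvd_pow_self _ two_ne_zero).trans (a4 a k)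
    have e2 : D (Sum.inr (Sum.inl (a, k))) ∣ Δ := by
      have h1 : D (Sum.inr (Sum.inl (a, k))) ∣ Δ + ρ a := by
        rw [hΔ]
        exact ((hDW1 _).mul_left 2).add (c3 k a)
      exact (Nat.dvd_add_left e1).1 h1
    have e3 : ∀ p : ℕ, p.Prime → p ∣ D (Sum.inr (Sum.inl (a, k))) → ¬ p ^ 2 ∣ Δ := by
      intro p hp hpi hpΔ
      apply c4 k a p hp hpi
      have h1 : p ^ 2 ∣ D (Sum.inr (Sum.inl (a, k))) ^ 2 := pow_dvd_pow_of_dvd hpi 2
      have h2 : p ^ 2 ∣ 2 * W + τ k := by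
        rw [← hΔ]
        exact hpΔ.add (h1.trans (a4 a k))
      exact (Nat.dvd_add_right ((h1.trans (hDW _)).mul_left 2)).1 h2
    have e4 : ∀ j, j ≠ Sum.inr (Sum.inl (a, k)) → ∀ p : ℕ, p.Prime → p ∣ D j → ¬ p ∣ Δ := by
      intro j hj p hp hpj
      have h5p := h5 j p hp hpj
      have hWp := (hW2 j p hpj).mul_left 2
      rcases j with ⟨a', b'⟩ | ⟨a', k'⟩ | ⟨b', k'⟩
      · by_cases ha : a' = a
        · subst ha
          refine Typ3_ndvd (a := 0) (b := 2 * 0 + 1) hΔ ?_ ?_ (by norm_num) (by omega) (by omega)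
          · exact (Nat.modEq_zero_iff_dvd).2
              ((hpj.trans (dvd_pow_self _ two_ne_zero)).trans (a3 a' b'))
          · exact hWp.add ((c7 k a' b').of_dvd hpj)
        · refine Typ3_ndvd (a := 2) (b := 2 * 0 + 1) hΔ ?_ ?_ (by norm_num) (by omega) (by omega)
          · exact (a5 a a' b' ha).of_dvd hpj
          · exact hWp.add ((c7 k a' b').of_dvd hpj)
      · by_cases ha : a' = a
        · subst ha
          have hk : k' ≠ k := by
            rintro rfl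
            exact hj rfl
          refine Typ3_ndvd (a := 0) (b := 2 * 0 + 1) hΔ ?_ ?_ (by norm_num) (by omega) (by omega)
          · exact (Nat.modEq_zero_iff_dvd).2
              ((hpj.trans (dvd_pow_self _ two_ne_zero)).trans (a4 a' k'))
          · exact hWp.add ((c8 k a' k' hk).of_dvd hpj)
        · by_cases hk : k' = k
          · subst hk
            refine Typ3_ndvd (a := 2) (b := 2 * 0 + 0) hΔ ?_ ?_ (by norm_num) (by omega) (by omega)
            · exact (a6 a a' k' ha).of_dvd hpj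
            · exact hWp.add ((Nat.modEq_zero_iff_dvd).2 (hpj.trans (c3 k' a')))
          · refine Typ3_ndvd (a := 2) (b := 2 * 0 + 1) hΔ ?_ ?_ (by norm_num) (by omega) (by omega)
            · exact (a6 a a' k' ha).of_dvd hpj
            · exact hWp.add ((c8 k a' k' hk).of_dvd hpj)
      · by_cases hk : k' = k
        · subst hk
          refine Typ3_ndvd (a := 2) (b := 2 * 0 + 0) hΔ ?_ ?_ (by norm_num) (by omega) (by omega)
          · exact (a7 a b' k').of_dvd hpj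
          · exact hWp.add ((Nat.modEq_zero_iff_dvd).2 (hpj.trans (c5 k' b')))
        · refine Typ3_ndvd (a := 2) (b := 2 * 0 + 1) hΔ ?_ ?_ (by norm_num) (by omega) (by omega)
          · exact (a7 a b' k').of_dvd hpj
          · exact hWp.add ((c9 k b' k' hk).of_dvd hpj)
    have e5 : Δ ≡ 1 [MOD 5 * Q * w.factorial] := by
      rw [← hVdef]
      have h1 : Δ + ρ a ≡ 1 + 0 [MOD V] := by
        rw [hΔ]
        have h2 : 2 * W + τ k ≡ 2 * 0 + 1 [MOD V] := (hWV.mul_left 2).add (c2 k)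
        exact h2
      exact Nat.ModEq.add_right_cancel (a2 a) h1
    have e6 := edge_cn Q w hQ γ c (gAC a k) D hs hpr' (Sum.inr (Sum.inl (a, k))) (ρ a) Δ
      (hgD (Sum.inr (Sum.inl (a, k)))) e1 e2 e3 e4 e5
    rw [← hVdef, ← hWdef] at e6
    exact ⟨_, _, _, e6⟩
  · -- the pair `(b, k)`
    show ∃ D W₁ n : ℕ, Cn h Q w W γ c (2 * W + τ k) (2 * (2 * W + τ k) - (2 * W + σ b)) (gBC b k) D
      W₁ n
    obtain ⟨Δ, hΔd⟩ : ∃ Δ : ℕ, Δ = 2 * (2 * W + τ k) - (2 * W + σ b) := ⟨_, rfl⟩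
    have hΔ : Δ + (2 * W + σ b) = 2 * (2 * W + τ k) := by
      have := b1 b
      omega
    rw [← hΔd]
    have f1 : D (Sum.inr (Sum.inr (b, k))) ∣ σ b := (dvd_pow_self _ two_ne_zero).trans (b3 b k)
    have e1 : D (Sum.inr (Sum.inr (b, k))) ∣ 2 * W + τ k := ((hDW1 _).mul_left 2).add (c5 k b)
    have e2 : D (Sum.inr (Sum.inr (b, k))) ∣ Δ := by
      have h1 : D (Sum.inr (Sum.inr (b, k))) ∣ Δ + (2 * W + σ b) := by
        rw [hΔ]
        exact e1.mul_left 2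
      exact (Nat.dvd_add_left (((hDW1 _).mul_left 2).add f1)).1 h1
    have e3 : ∀ p : ℕ, p.Prime → p ∣ D (Sum.inr (Sum.inr (b, k))) → ¬ p ^ 2 ∣ Δ := by
      intro p hp hpi hpΔ
      apply c6 k b p hp hpi
      have h1 : p ^ 2 ∣ D (Sum.inr (Sum.inr (b, k))) ^ 2 := pow_dvd_pow_of_dvd hpi 2
      have h2 : p ^ 2 ∣ 2 * (2 * W + τ k) := by
        rw [← hΔ]
        exact hpΔ.add (((h1.trans (hDW _)).mul_left 2).add (h1.trans (b3 b k)))
      have h3 : Nat.Coprime (p ^ 2) 2 := by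
        refine Nat.Coprime.pow_left 2 ?_
        rw [Nat.coprime_primes hp Nat.prime_two]
        have := h5 _ p hp hpi
        omega
      exact (Nat.dvd_add_right ((h1.trans (hDW _)).mul_left 2)).1 (h3.dvd_of_dvd_mul_left h2)
    have e4 : ∀ j, j ≠ Sum.inr (Sum.inr (b, k)) → ∀ p : ℕ, p.Prime → p ∣ D j → ¬ p ∣ Δ := by
      intro j hj p hp hpj
      have h5p := h5 j p hp hpj
      have hWp := (hW2 j p hpj).mul_left 2
      rcases j with ⟨a', b'⟩ | ⟨a', k'⟩ | ⟨b', k'⟩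
      · by_cases hb : b' = b
        · subst hb
          refine Typ3_ndvd (a := 2 * 0 + 0) (b := 2 * (2 * 0 + 1)) hΔ ?_ ?_ (by norm_num) (by omega)
            (by omega)
          · exact hWp.add ((Nat.modEq_zero_iff_dvd).2 (hpj.trans (b4 b' a')))
          · exact (hWp.add ((c7 k a' b').of_dvd hpj)).mul_left 2
        · refine Typ3_ndvd (a := 2 * 0 + 1) (b := 2 * (2 * 0 + 1)) hΔ ?_ ?_ (by norm_num) (by omega)
            (by omega)
          · exact hWp.add ((b6 b a' b' hb).of_dvd hpj)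
          · exact (hWp.add ((c7 k a' b').of_dvd hpj)).mul_left 2
      · by_cases hk : k' = k
        · subst hk
          refine Typ3_ndvd (a := 2 * 0 + 1) (b := 2 * (2 * 0 + 0)) hΔ ?_ ?_ (by norm_num) (by omega)
            (by omega)
          · exact hWp.add ((b7 b a' k').of_dvd hpj)
          · exact (hWp.add ((Nat.modEq_zero_iff_dvd).2 (hpj.trans (c3 k' a')))).mul_left 2
        · refine Typ3_ndvd (a := 2 * 0 + 1) (b := 2 * (2 * 0 + 1)) hΔ ?_ ?_ (by norm_num) (by omega)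
            (by omega)
          · exact hWp.add ((b7 b a' k').of_dvd hpj)
          · exact (hWp.add ((c8 k a' k' hk).of_dvd hpj)).mul_left 2
      · by_cases hb : b' = b
        · subst hb
          have hk : k' ≠ k := by
            rintro rfl
            exact hj rfl
          refine Typ3_ndvd (a := 2 * 0 + 0) (b := 2 * (2 * 0 + 1)) hΔ ?_ ?_ (by norm_num) (by omega)
            (by omega)
          · exact hWp.add ((Nat.modEq_zero_iff_dvd).2
              ((hpj.trans (dvd_pow_self _ two_ne_zero)).trans (b3 b' k')))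
          · exact (hWp.add ((c9 k b' k' hk).of_dvd hpj)).mul_left 2
        · by_cases hk : k' = k
          · subst hk
            refine Typ3_ndvd (a := 2 * 0 + 1) (b := 2 * (2 * 0 + 0)) hΔ ?_ ?_ (by norm_num)
              (by omega) (by omega)
            · exact hWp.add ((b8 b b' k' hb).of_dvd hpj)
            · exact (hWp.add ((Nat.modEq_zero_iff_dvd).2 (hpj.trans (c5 k' b')))).mul_left 2
          · refine Typ3_ndvd (a := 2 * 0 + 1) (b := 2 * (2 * 0 + 1)) hΔ ?_ ?_ (by norm_num)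
              (by omega) (by omega)
            · exact hWp.add ((b8 b b' k' hb).of_dvd hpj)
            · exact (hWp.add ((c9 k b' k' hk).of_dvd hpj)).mul_left 2
    have e5 : Δ ≡ 1 [MOD 5 * Q * w.factorial] := by
      rw [← hVdef]
      have h1 : Δ + (2 * W + σ b) ≡ 1 + (2 * 0 + 1) [MOD V] := by
        rw [hΔ]
        have h2 : 2 * (2 * W + τ k) ≡ 2 * (2 * 0 + 1) [MOD V] :=
          ((hWV.mul_left 2).add (c2 k)).mul_left 2
        exact h2
      exact Nat.ModEq.add_right_cancel ((hWV.mul_left 2).add (b2 b)) h1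
    have e6 := edge_cn Q w hQ γ c (gBC b k) D hs hpr' (Sum.inr (Sum.inr (b, k))) (2 * W + τ k) Δ
      (hgD (Sum.inr (Sum.inr (b, k)))) e1 e2 e3 e4 e5
    rw [← hVdef, ← hWdef] at e6
    exact ⟨_, _, _, e6⟩

end Pool.Agent.Lib.MP_d57abb_nt.Ev
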