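import Mathlib
import Pool.Agent.Lib.MP_d57abb_nt.All.FU
import Pool.Agent.Lib.MP_d57abb_nt.All.Toe

/-!
# JOB PairG: many pairs at prime distance

PROOF: adaptation of `All/Pair.lean` (complete there; `Pair_count`, `Pair_lp`, `Pair_sum`, `pairs`).  `d = dens W₁ ≥ 1`.  `toeplitz (5 ℓ) (fun k => (lp (W₁ k + n₀) - d : ℝ)) ((μ/2) d ℓ)` (hypothesis `hfu` with `u = 5 ℓ`): for `A, B` as below
`|∑∑ (lp .. - d)| ≤ (μ/2) d ℓ √(|A||B|) ≤ (d/2) |A||B|` as `√(|A||B|) ≥ μ ℓ`.  So `∑∑ lp (W₁ (j' - j) + n₀) ≥ (d/2) |A||B| ≥ (μ ℓ)²/2`.  For `k = j' - j < 5 ℓ`: `W₁ k + n₀ ≤ 5 W ℓ + n₀ ≤ 6 W ℓ ≤ ℓ²` for `ℓ ≥ n₀, 6 W`, so `lp ≤ 2 log ℓ`, and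
the number of the pairs `(j, j')` with `W₁ (j' - j) + n₀` prime is `≥ (μ ℓ)² / (4 log ℓ)`.  For the prime `p = W₁ (j' - j) + n₀` (`ℓ < p` since `j' - j ≥ ℓ`, `W₁ ≥ 1` and `n₀ ≥ 1`; here `n₀ ≥ 1` because `n₀` is prime to `W₁`... if `n₀ = 0` the hypothesis `hn0` excludes it)
the pair is determined by `j` and `p`, and also by `j'` and `p`.  Hence both sums are `≥ (1/(6 W ℓ)) (μ ℓ)²/(4 log ℓ) = μ² ℓ / (24 W log ℓ)`.
-/

open Finset Filter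

namespace Pool.Agent.Lib.MP_d57abb_nt.Ev

open Pool.Agent.Lib.MP_d57abb_nt.All
open Pool.Agent.Lib.MP_2a816b_nt (e)

/-- the pairs are counted by the primes and the first element -/
private theorem PairG_countA (W W₁ n₀ ℓ : ℕ) (hW : 0 < W₁) (hWW : W₁ ≤ W) (hn0 : 0 < n₀) (hn : n₀ ≤ ℓ) (A B : Finset ℕ)
    (hB : B ⊆ range (5 * ℓ)) (hAB : ∀ j ∈ A, ∀ j' ∈ B, j + ℓ ≤ j') :
    ∑ j ∈ A, (B.filter (fun j' => (W₁ * (j' - j) + n₀).Prime)).card ≤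
      ∑ p ∈ (Ioc ℓ (6 * W * ℓ)).filter Nat.Prime,
        (A.filter (fun j => ∃ j' ∈ B, W₁ * (j' - j) + n₀ = p)).card := by
  have h1 := Finset.sum_card_bipartiteAbove_eq_sum_card_bipartiteBelow
    (s := A) (t := (Ioc ℓ (6 * W * ℓ)).filter Nat.Prime)
    (fun j p : ℕ => ∃ j' ∈ B, W₁ * (j' - j) + n₀ = p)
  unfold Finset.bipartiteAbove Finset.bipartiteBelow at h1
  rw [← h1]
  refine Finset.sum_le_sum fun j hj => ?_
  refine Finset.card_le_card_of_injOn (fun j' => W₁ * (j' - j) + n₀) ?_ ?_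
  · intro j' hj'
    rw [Finset.mem_coe, Finset.mem_filter] at hj'
    have h2 := Finset.mem_range.1 (hB hj'.1)
    have h2' := hAB j hj j' hj'.1
    rw [Finset.mem_coe, Finset.mem_filter, Finset.mem_filter, Finset.mem_Ioc]
    refine ⟨⟨⟨?_, ?_⟩, hj'.2⟩, j', hj'.1, rfl⟩
    · have h3 : 1 * (j' - j) ≤ W₁ * (j' - j) := Nat.mul_le_mul_right _ hW
      change ℓ < W₁ * (j' - j) + n₀
      omega
    · have h3 : W₁ * (j' - j) ≤ W * (5 * ℓ) := Nat.mul_le_mul hWW (by omega)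
      have h4 : 1 * ℓ ≤ W * ℓ := Nat.mul_le_mul_right _ (by omega)
      have h5 : 6 * W * ℓ = W * (5 * ℓ) + W * ℓ := by ring
      change W₁ * (j' - j) + n₀ ≤ 6 * W * ℓ
      omega
  · intro x hx y hy hxy
    rw [Finset.mem_coe, Finset.mem_filter] at hx hy
    have h2 := hAB j hj x hx.1
    have h3 := hAB j hj y hy.1
    have h4 : W₁ * (x - j) = W₁ * (y - j) := Nat.add_right_cancel hxy
    have h5 := Nat.eq_of_mul_eq_mul_left hW h4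
    omega

/-- the pairs are counted by the primes and the second element -/
private theorem PairG_countB (W W₁ n₀ ℓ : ℕ) (hW : 0 < W₁) (hWW : W₁ ≤ W) (hn0 : 0 < n₀) (hn : n₀ ≤ ℓ) (A B : Finset ℕ)
    (hB : B ⊆ range (5 * ℓ)) (hAB : ∀ j ∈ A, ∀ j' ∈ B, j + ℓ ≤ j') :
    ∑ j' ∈ B, (A.filter (fun j => (W₁ * (j' - j) + n₀).Prime)).card ≤
      ∑ p ∈ (Ioc ℓ (6 * W * ℓ)).filter Nat.Prime,
        (B.filter (fun j' => ∃ j ∈ A, W₁ * (j' - j) + n₀ = p)).card := by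
  have h1 := Finset.sum_card_bipartiteAbove_eq_sum_card_bipartiteBelow
    (s := B) (t := (Ioc ℓ (6 * W * ℓ)).filter Nat.Prime)
    (fun j' p : ℕ => ∃ j ∈ A, W₁ * (j' - j) + n₀ = p)
  unfold Finset.bipartiteAbove Finset.bipartiteBelow at h1
  rw [← h1]
  refine Finset.sum_le_sum fun j' hj' => ?_
  refine Finset.card_le_card_of_injOn (fun j => W₁ * (j' - j) + n₀) ?_ ?_
  · intro j hj
    rw [Finset.mem_coe, Finset.mem_filter] at hj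
    have h2 := Finset.mem_range.1 (hB hj')
    have h2' := hAB j hj.1 j' hj'
    rw [Finset.mem_coe, Finset.mem_filter, Finset.mem_filter, Finset.mem_Ioc]
    refine ⟨⟨⟨?_, ?_⟩, hj.2⟩, j, hj.1, rfl⟩
    · have h3 : 1 * (j' - j) ≤ W₁ * (j' - j) := Nat.mul_le_mul_right _ hW
      change ℓ < W₁ * (j' - j) + n₀
      omega
    · have h3 : W₁ * (j' - j) ≤ W * (5 * ℓ) := Nat.mul_le_mul hWW (by omega)
      have h4 : 1 * ℓ ≤ W * ℓ := Nat.mul_le_mul_right _ (by omega)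
      have h5 : 6 * W * ℓ = W * (5 * ℓ) + W * ℓ := by ring
      change W₁ * (j' - j) + n₀ ≤ 6 * W * ℓ
      omega
  · intro x hx y hy hxy
    rw [Finset.mem_coe, Finset.mem_filter] at hx hy
    have h2 := hAB x hx.1 j' hj'
    have h3 := hAB y hy.1 j' hj'
    have h4 : W₁ * (j' - x) = W₁ * (j' - y) := Nat.add_right_cancel hxy
    have h5 := Nat.eq_of_mul_eq_mul_left hW h4
    omega

/-- the bound of `lp` -/
private theorem PairG_lp (W W₁ n₀ ℓ k : ℕ) (hWW : W₁ ≤ W) (hn : n₀ ≤ ℓ) (hℓ : 6 * W ≤ ℓ) (hW : 0 < W₁)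
    (hk : k ≤ 5 * ℓ) :
    lp (W₁ * k + n₀) ≤ 2 * Real.log ℓ * (if (W₁ * k + n₀).Prime then 1 else 0) := by
  unfold Pool.Agent.Lib.MP_d57abb_nt.All.lp
  split_ifs with h
  · have h1 : W₁ * k + n₀ ≤ ℓ * ℓ := by
      have h2 : W₁ * k ≤ W * (5 * ℓ) := Nat.mul_le_mul hWW hk
      have h3 : 1 * ℓ ≤ W * ℓ := Nat.mul_le_mul_right _ (by omega)
      have h4 : 6 * W * ℓ ≤ ℓ * ℓ := Nat.mul_le_mul_right _ hℓ
      have h5 : 6 * W * ℓ = W * (5 * ℓ) + W * ℓ := by ring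
      omega
    have h6 : (0 : ℝ) < ((W₁ * k + n₀ : ℕ) : ℝ) := by exact_mod_cast h.pos
    have hℓ0 : (0 : ℝ) < ℓ := by
      have : 0 < ℓ := by omega
      exact_mod_cast this
    have h7 : ((W₁ * k + n₀ : ℕ) : ℝ) ≤ (ℓ : ℝ) * ℓ := by exact_mod_cast h1
    have h8 := Real.log_le_log h6 h7
    rw [Real.log_mul hℓ0.ne' hℓ0.ne'] at h8
    linarith
  · rw [mul_zero]

private theorem PairG_sum (μ : ℝ) (hμ : 0 < μ) (W₁ n₀ ℓ : ℕ) (hW : 0 < W₁) (hℓ : 0 < ℓ)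
    (hfu : ∀ θ : ℝ, ‖∑ k ∈ range (5 * ℓ), ((lp (W₁ * k + n₀) - dens W₁ : ℝ) : ℂ) * e (k * θ)‖ ≤
      (μ / 2) * dens W₁ * ℓ) (A B : Finset ℕ)
    (hB : B ⊆ range (5 * ℓ)) (hAB : ∀ j ∈ A, ∀ j' ∈ B, j + ℓ ≤ j')
    (hAc : μ * ℓ ≤ A.card) (hBc : μ * ℓ ≤ B.card) :
    (μ * ℓ) ^ 2 / 2 ≤ ∑ j ∈ A, ∑ j' ∈ B, lp (W₁ * (j' - j) + n₀) := by
  have ht := toeplitz (5 * ℓ) (fun k => ((lp (W₁ * k + n₀) - dens W₁ : ℝ) : ℂ))
    ((μ / 2) * dens W₁ * ℓ) hfu A B (by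
      intro j hj j' hj'
      have h1 := hAB j hj j' hj'
      have h2 := Finset.mem_range.1 (hB hj')
      omega)
  have hd := one_le_dens W₁ hW
  set d := dens W₁ with hdd
  have e1 : ∑ j ∈ A, ∑ j' ∈ B, ((lp (W₁ * (j' - j) + n₀) - d : ℝ) : ℂ) =
      ((∑ j ∈ A, ∑ j' ∈ B, (lp (W₁ * (j' - j) + n₀) - d) : ℝ) : ℂ) := by
    push_cast
    rfl
  have e2 : ∑ j ∈ A, ∑ j' ∈ B, (lp (W₁ * (j' - j) + n₀) - d) =
      ∑ j ∈ A, ∑ j' ∈ B, lp (W₁ * (j' - j) + n₀) - d * ((A.card : ℝ) * B.card) := by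
    simp only [Finset.sum_sub_distrib, Finset.sum_const, nsmul_eq_mul]
    ring
  change ‖∑ j ∈ A, ∑ j' ∈ B, ((lp (W₁ * (j' - j) + n₀) - d : ℝ) : ℂ)‖ ≤ _ at ht
  rw [e1, e2, Complex.norm_real, Real.norm_eq_abs] at ht
  have hL : (0 : ℝ) < μ * ℓ := by positivity
  set L := μ * (ℓ : ℝ) with hLL
  have hab : L * L ≤ (A.card : ℝ) * B.card := mul_le_mul hAc hBc hL.le (hL.le.trans hAc)
  have hs : L ≤ √((A.card : ℝ) * B.card) := Real.le_sqrt_of_sq_le (by rw [pow_two]; exact hab)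
  have hs2 : √((A.card : ℝ) * B.card) * √((A.card : ℝ) * B.card) = (A.card : ℝ) * B.card :=
    Real.mul_self_sqrt (by positivity)
  have h3 : μ / 2 * d * ℓ * √((A.card : ℝ) * B.card) ≤ d / 2 * ((A.card : ℝ) * B.card) := by
    have h4 : μ / 2 * d * ℓ * √((A.card : ℝ) * B.card)
        = d / 2 * (L * √((A.card : ℝ) * B.card)) := by
      rw [hLL]
      ring
    rw [h4]
    refine mul_le_mul_of_nonneg_left ?_ (by positivity)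
    calc L * √((A.card : ℝ) * B.card) ≤ √((A.card : ℝ) * B.card) * √((A.card : ℝ) * B.card) :=
          mul_le_mul_of_nonneg_right hs (Real.sqrt_nonneg _)
      _ = _ := hs2
  have h5 := (abs_le.1 (ht.trans h3)).1
  have h6 : 1 / 2 * (L * L) ≤ d / 2 * ((A.card : ℝ) * B.card) :=
    mul_le_mul (by linarith) hab (by positivity) (by positivity)
  rw [pow_two]
  linarith

private theorem PairG_fin (μ : ℝ) (W ℓ S : ℕ) (hW : 0 < W) (hℓ : 2 ≤ ℓ) (R : ℕ → ℕ)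
    (hS : S ≤ ∑ p ∈ (Ioc ℓ (6 * W * ℓ)).filter Nat.Prime, R p)
    (h : (μ * ℓ) ^ 2 / 2 ≤ 2 * Real.log ℓ * (S : ℝ)) :
    μ ^ 2 / (24 * W) * ℓ / Real.log ℓ ≤ ∑ p ∈ (Ioc ℓ (6 * W * ℓ)).filter Nat.Prime, (R p : ℝ) / p := by
  have hℓ2 : (2 : ℝ) ≤ ℓ := by exact_mod_cast hℓ
  have hℓ0 : (0 : ℝ) < ℓ := by linarith
  have hlog : 0 < Real.log ℓ := Real.log_pos (by linarith)
  have hW0 : (0 : ℝ) < W := by exact_mod_cast hW
  have s3 : (S : ℝ) ≤ ((∑ p ∈ (Ioc ℓ (6 * W * ℓ)).filter Nat.Prime, R p : ℕ) : ℝ) := by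
    exact_mod_cast hS
  have s4 : ((∑ p ∈ (Ioc ℓ (6 * W * ℓ)).filter Nat.Prime, R p : ℕ) : ℝ) / (6 * W * ℓ) ≤
      ∑ p ∈ (Ioc ℓ (6 * W * ℓ)).filter Nat.Prime, (R p : ℝ) / p := by
    rw [Nat.cast_sum, Finset.sum_div]
    refine Finset.sum_le_sum fun p hp => ?_
    rw [Finset.mem_filter, Finset.mem_Ioc] at hp
    have hp0 : (0 : ℝ) < p := by exact_mod_cast hp.2.pos
    have hp1 : (p : ℝ) ≤ 6 * W * ℓ := by exact_mod_cast hp.1.2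
    exact div_le_div_of_nonneg_left (Nat.cast_nonneg _) hp0 hp1
  refine le_trans ?_ s4
  rw [le_div_iff₀ (by positivity)]
  have s5 := h.trans (mul_le_mul_of_nonneg_left s3 (by positivity))
  have s6 : μ ^ 2 / (24 * W) * ℓ / Real.log ℓ * (6 * W * ℓ) =
      ((μ * ℓ) ^ 2 / 2) / (2 * Real.log ℓ) := by
    field_simp
    ring
  rw [s6, div_le_iff₀ (by positivity)]
  linarith

theorem pairsG (μ : ℝ) (hμ : 0 < μ) (W W₁ n₀ : ℕ) (hW : 0 < W₁) (hWW : W₁ ≤ W) (hn0 : 0 < n₀)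
    (hfu : ∃ ℓ₀ : ℕ, ∀ ℓ : ℕ, ℓ₀ ≤ ℓ → ∀ θ : ℝ, ∀ u : ℕ, u ≤ 5 * ℓ →
      ‖∑ k ∈ range u, ((lp (W₁ * k + n₀) - dens W₁ : ℝ) : ℂ) * e (k * θ)‖ ≤ (μ / 2) * dens W₁ * ℓ) :
    ∃ ℓ₀ : ℕ, ∀ ℓ : ℕ, ℓ₀ ≤ ℓ → ∀ A B : Finset ℕ, A ⊆ range (5 * ℓ) → B ⊆ range (5 * ℓ) →
      (∀ j ∈ A, ∀ j' ∈ B, j + ℓ ≤ j') → μ * ℓ ≤ A.card → μ * ℓ ≤ B.card →
      μ ^ 2 / (24 * W) * ℓ / Real.log ℓ ≤ (∑ p ∈ (Ioc ℓ (6 * W * ℓ)).filter Nat.Prime,
        ((A.filter (fun j => ∃ j' ∈ B, W₁ * (j' - j) + n₀ = p)).card : ℝ) / p) ∧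
      μ ^ 2 / (24 * W) * ℓ / Real.log ℓ ≤ (∑ p ∈ (Ioc ℓ (6 * W * ℓ)).filter Nat.Prime,
        ((B.filter (fun j' => ∃ j ∈ A, W₁ * (j' - j) + n₀ = p)).card : ℝ) / p) := by
  obtain ⟨ℓ₀, hfu⟩ := hfu
  refine ⟨max (max ℓ₀ n₀) (max (6 * W) 2), ?_⟩
  intro ℓ hℓ A B hA hB hAB hAc hBc
  have g1 : ℓ₀ ≤ ℓ := ((le_max_left _ _).trans (le_max_left _ _)).trans hℓ
  have g2 : n₀ ≤ ℓ := ((le_max_right _ _).trans (le_max_left _ _)).trans hℓ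
  have g3 : 6 * W ≤ ℓ := ((le_max_left _ _).trans (le_max_right _ _)).trans hℓ
  have g4 : 2 ≤ ℓ := ((le_max_right _ _).trans (le_max_right _ _)).trans hℓ
  have s1 := PairG_sum μ hμ W₁ n₀ ℓ hW (by omega) (fun θ => hfu ℓ g1 θ (5 * ℓ) le_rfl) A B hB hAB hAc hBc
  have s2 : ∀ j ∈ A, ∀ j' ∈ B, lp (W₁ * (j' - j) + n₀) ≤
      2 * Real.log ℓ * (if (W₁ * (j' - j) + n₀).Prime then 1 else 0) := by
    intro j hj j' hj'
    have h1 := Finset.mem_range.1 (hB hj')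
    exact PairG_lp W W₁ n₀ ℓ (j' - j) hWW g2 g3 hW (by omega)
  have sA : ∑ j ∈ A, ∑ j' ∈ B, lp (W₁ * (j' - j) + n₀) ≤
      2 * Real.log ℓ * ((∑ j ∈ A, (B.filter (fun j' => (W₁ * (j' - j) + n₀).Prime)).card : ℕ) : ℝ) := by
    rw [Nat.cast_sum, Finset.mul_sum]
    refine Finset.sum_le_sum fun j hj => ?_
    rw [Finset.card_filter, Nat.cast_sum, Finset.mul_sum]
    refine Finset.sum_le_sum fun j' hj' => ?_
    refine (s2 j hj j' hj').trans (le_of_eq ?_)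
    push_cast
    rfl
  have sB : ∑ j ∈ A, ∑ j' ∈ B, lp (W₁ * (j' - j) + n₀) ≤
      2 * Real.log ℓ * ((∑ j' ∈ B, (A.filter (fun j => (W₁ * (j' - j) + n₀).Prime)).card : ℕ) : ℝ) := by
    rw [Finset.sum_comm, Nat.cast_sum, Finset.mul_sum]
    refine Finset.sum_le_sum fun j' hj' => ?_
    rw [Finset.card_filter, Nat.cast_sum, Finset.mul_sum]
    refine Finset.sum_le_sum fun j hj => ?_
    refine (s2 j hj j' hj').trans (le_of_eq ?_)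
    push_cast
    rfl
  exact ⟨PairG_fin μ W ℓ _ (by omega) g4 _ (PairG_countA W W₁ n₀ ℓ hW hWW hn0 g2 A B hB hAB) (s1.trans sA),
    PairG_fin μ W ℓ _ (by omega) g4 _ (PairG_countB W W₁ n₀ ℓ hW hWW hn0 g2 A B hB hAB) (s1.trans sB)⟩

end Pool.Agent.Lib.MP_d57abb_nt.Ev
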