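import Mathlib
import Pool.Agent.Lib.MP_d57abb_nt.Ev.Defs
import Pool.Agent.Lib.MP_d57abb_nt.Ev.PairG

/-!
# JOB WinAC: windows, edges between two types on the first line

PROOF (model: the last part of `window` in `All/Win.lean`).  `Cn` gives `W = D W₁`, so `W₁ > 0`, `W₁ ≤ W`, `n ≥ 1` (`n % (5 Q) = 1`).  `ℓ₀` = the maximum of the `ℓ₀` of `pairsG μ W W₁ n`, of `P₀` and `16`.
`A = {j < ℓ/4 : x₁ (W j + ρ) = α}`, `B = {j' ∈ [2ℓ, 2ℓ + ℓ/4) : x₁ (W j' + ρ') = ζ}`; `j + ℓ ≤ j'`.  `R p = {j ∈ A : ∃ j' ∈ B, W₁ (j' - j) + n = p}`, `s = 0`.  With `t = W j + ρ`: `t + D p = W j' + ρ'` because `W (j' - j) + (ρ' - ρ) = D (W₁ (j' - j) + n)`, and `W j' + ρ' < W (2ℓ + ℓ/4) + 3 W ≤ 5 W ℓ`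
(first alternative of `WOut`).  The sum is the first conclusion of `pairsG`.  For `p` not a prime in `(ℓ, 6 W ℓ]` put `R p = ∅`.  `p ≡ n ≡ 1 (mod 5 Q)` (`5 Q ∣ W₁`), so `p % 5 = 1`, `p % Q = 1 % Q`, `h p = γ` (`p > ℓ ≥ P₀`), and `h (D p) = h D + γ`, so `2 c + 2 h (D p) = 2 g = α + ζ`.
-/

open Finset Filter

namespace Pool.Agent.Lib.MP_d57abb_nt.Ev

open Pool.Agent.Lib.MP_d57abb_nt Pool.Agent.Lib.MP_d57abb_nt.All
open Pool.Agent.Lib.MP_2a816b_nt (e)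

theorem edge_ac {m : ℕ} [NeZero m] {h : ℕ → ZMod m} (hh : Add h) (Q : ℕ) (hQ : 0 < Q) (γ : ZMod m)
    (P₀ : ℕ) (hP : ∀ p : ℕ, p.Prime → P₀ ≤ p → p % Q = 1 % Q → h p = γ) (c g : ZMod m)
    (w W ρ ρ' D W₁ n : ℕ) (hW : 0 < W) (hρ : ρ < W) (hρ' : ρ' < 3 * W) (hle : ρ ≤ ρ')
    (hcn : Cn h Q w W γ c ρ (ρ' - ρ) g D W₁ n) (μ : ℝ) (hμ : 0 < μ)
    (hfu : ∃ ℓ₀ : ℕ, ∀ ℓ : ℕ, ℓ₀ ≤ ℓ → ∀ θ : ℝ, ∀ u : ℕ, u ≤ 5 * ℓ →
      ‖∑ k ∈ range u, ((lp (W₁ * k + n) - dens W₁ : ℝ) : ℂ) * e (k * θ)‖ ≤ (μ / 2) * dens W₁ * ℓ) :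
    ∃ ℓ₀ : ℕ, ∀ ℓ : ℕ, ℓ₀ ≤ ℓ → ∀ x₁ x₂ : ℕ → ZMod m, ∀ α ζ : ZMod m, α + ζ = 2 * g →
      μ * ℓ ≤ ((range (ℓ / 4)).filter (fun j => x₁ (W * j + ρ) = α)).card →
      μ * ℓ ≤ ((Ico (2 * ℓ) (2 * ℓ + ℓ / 4)).filter (fun j => x₁ (W * j + ρ') = ζ)).card →
      WOut h c W ℓ (μ ^ 2 / (24 * W)) x₁ x₂ := by
  classical
  obtain ⟨h1, -, h3, h4, h5, -, h7, h8, h9⟩ := hcn
  have hpos : 0 < W₁ := by
    rcases Nat.eq_zero_or_pos W₁ with h0 | h0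
    · rw [h0, mul_zero] at h1
      omega
    · exact h0
  have hWW : W₁ ≤ W := Nat.le_of_dvd hW ⟨D, by rw [mul_comm]; exact h1⟩
  have hn0 : 0 < n := by
    rcases Nat.eq_zero_or_pos n with h0 | h0
    · rw [h0, Nat.zero_mod] at h8
      omega
    · exact h0
  obtain ⟨L, hL⟩ := pairsG μ hμ W W₁ n hpos hWW hn0 hfu
  refine ⟨max L (max P₀ 16), fun ℓ hℓ x₁ x₂ α ζ hαζ hcA hcB => ?_⟩
  have hℓL : L ≤ ℓ := (le_max_left _ _).trans hℓ
  have hℓP : P₀ ≤ ℓ := ((le_max_left _ _).trans (le_max_right _ _)).trans hℓ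
  have hℓ2 : 16 ≤ ℓ := ((le_max_right _ _).trans (le_max_right _ _)).trans hℓ
  set A := (range (ℓ / 4)).filter (fun j => x₁ (W * j + ρ) = α) with hA
  set B := (Ico (2 * ℓ) (2 * ℓ + ℓ / 4)).filter (fun j => x₁ (W * j + ρ') = ζ) with hB
  have hAs : A ⊆ range (5 * ℓ) := by
    intro j hj
    rw [hA, mem_filter, mem_range] at hj
    rw [mem_range]
    omega
  have hBs : B ⊆ range (5 * ℓ) := by
    intro j hj
    rw [hB, mem_filter, mem_Ico] at hj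
    rw [mem_range]
    omega
  have hAB : ∀ j ∈ A, ∀ j' ∈ B, j + ℓ ≤ j' := by
    intro j hj j' hj'
    rw [hA, mem_filter, mem_range] at hj
    rw [hB, mem_filter, mem_Ico] at hj'
    omega
  have hfin := (hL ℓ hℓL A B hAs hBs hAB hcA hcB).1
  refine ⟨D, ρ, 0, fun p => if p.Prime ∧ ℓ < p ∧ p ≤ 6 * W * ℓ then
    A.filter (fun j => ∃ j' ∈ B, W₁ * (j' - j) + n = p) else ∅, ⟨W₁, h1⟩, h4, h3, ?_, ?_, ?_⟩
  · intro p
    dsimp only
    split_ifs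
    · intro j hj
      have hj1 := (mem_filter.1 hj).1
      rw [hA, mem_filter, mem_range] at hj1
      rw [mem_Ico]
      omega
    · exact Finset.empty_subset _
  · intro p j hj
    dsimp only at hj
    split_ifs at hj with hc
    · obtain ⟨hp, hp1, hp2⟩ := hc
      rw [mem_filter, hA, mem_filter, mem_range] at hj
      obtain ⟨⟨hj1, hj2⟩, j', hj', hpe⟩ := hj
      rw [hB, mem_filter, mem_Ico] at hj'
      obtain ⟨⟨hj3, hj4⟩, hj5⟩ := hj'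
      have hQ5 : 5 * Q ∣ W₁ * (j' - j) := h7.mul_right _
      obtain ⟨q, hq⟩ := hQ5
      have hpQ : p % (5 * Q) = 1 := by
        rw [← hpe, hq, Nat.mul_add_mod, h8]
      have hp5 : p % 5 = 1 := by
        have h10 : p % (5 * Q) % 5 = p % 5 := Nat.mod_mod_of_dvd p ⟨Q, rfl⟩
        rw [hpQ] at h10
        omega
      have hpQ' : p % Q = 1 % Q := by
        have h10 : p % (5 * Q) % Q = p % Q := Nat.mod_mod_of_dvd p ⟨5, mul_comm _ _⟩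
        rw [hpQ] at h10
        exact h10.symm
      have hsum : W * j + ρ + D * p = W * j' + ρ' := by
        have e1 : D * p = W * (j' - j) + D * n := by
          rw [← hpe, mul_add, ← mul_assoc, ← h1]
        have e2 : W * j + W * (j' - j) = W * j' := by
          rw [← mul_add]
          congr 1
          omega
        rw [e1, ← h5]
        omega
      have h14 : 5 * W * ℓ = W * (5 * ℓ) := by ring
      refine ⟨hp, hp5, hp1, hp2, ?_, Or.inl ⟨?_, ?_⟩⟩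
      · have h12 : W * (j + 1) ≤ W * (5 * ℓ) := Nat.mul_le_mul_left _ (by omega)
        rw [h14]
        rw [mul_add, mul_one] at h12
        omega
      · rw [hsum, h14]
        have h12 : W * (j' + 3) ≤ W * (5 * ℓ) := Nat.mul_le_mul_left _ (by omega)
        rw [mul_add] at h12
        omega
      · rw [hsum, hj2, hj5]
        have hhp : h p = γ := hP p hp (hℓP.trans hp1.le) hpQ'
        rw [hh D p h3.1 hp.pos, hhp, hαζ, ← h9]
        ring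
    · simp at hj
  · refine hfin.trans (le_of_eq (Finset.sum_congr rfl fun p hp => ?_))
    rw [mem_filter, mem_Ioc] at hp
    dsimp only
    rw [if_pos ⟨hp.2, hp.1.1, hp.1.2⟩]

end Pool.Agent.Lib.MP_d57abb_nt.Ev
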