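import Mathlib
import Pool.Agent.Lib.MP_d57abb_nt.Ev.Defs
import Pool.Agent.Lib.MP_d57abb_nt.Ev.PairG

/-!
# JOB WinBC: windows, edges between the second and the first line

PROOF (model: the last part of `window` in `All/Win.lean`).  `Cn` gives `W = D W₁`, so `W₁ > 0`, `W₁ ≤ W`, `n ≥ 1` (`n % (5 Q) = 1`).  `ℓ₀` = the maximum of the `ℓ₀` of `pairsG μ W W₁ n`, of `P₀` and `16`.
`A = {j' ∈ [2ℓ, 2ℓ + ℓ/4) : x₂ (W j' + σ) = α}`, `C = {j ∈ [2ℓ, 2ℓ + ℓ/4) : x₁ (W j + ρ) = ζ}`; apply `pairsG` to `A` and `B' = {2 j : j ∈ C}` (in `[4ℓ, 5ℓ)`, the same cardinality as `C`): `j' + ℓ ≤ 2 j`.  `R p = {j ∈ C : ∃ j' ∈ A, W₁ (2 j - j') + n = p}`, `s = 2 ℓ`,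
`|R p| = |{i ∈ B' : ∃ j' ∈ A, ...}|`.  With `t = W j + ρ < W (2ℓ + ℓ/4) + 3 W ≤ 5 W ℓ`: `2 t - (W j' + σ) = W (2 j - j') + (2 ρ - σ) = D p`, so `D p ≤ 2 t` and `2 t - D p = W j' + σ` (third alternative of `WOut`).  The sum is the second conclusion of `pairsG`.  For `p` not a prime in `(ℓ, 6 W ℓ]` put `R p = ∅`.  `p ≡ n ≡ 1 (mod 5 Q)` (`5 Q ∣ W₁`), so `p % 5 = 1`, `p % Q = 1 % Q`, `h p = γ` (`p > ℓ ≥ P₀`), and `h (D p) = h D + γ`, so `2 c + 2 h (D p) = 2 g = α + ζ`.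
-/

open Finset Filter

namespace Pool.Agent.Lib.MP_d57abb_nt.Ev

open Pool.Agent.Lib.MP_d57abb_nt Pool.Agent.Lib.MP_d57abb_nt.All
open Pool.Agent.Lib.MP_2a816b_nt (e)

theorem edge_bc {m : ℕ} [NeZero m] {h : ℕ → ZMod m} (hh : Add h) (Q : ℕ) (hQ : 0 < Q) (γ : ZMod m)
    (P₀ : ℕ) (hP : ∀ p : ℕ, p.Prime → P₀ ≤ p → p % Q = 1 % Q → h p = γ) (c g : ZMod m)
    (w W ρ σ D W₁ n : ℕ) (hW : 0 < W) (hρ : ρ < 3 * W) (hσ : σ < 3 * W) (hle : σ ≤ 2 * ρ)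
    (hcn : Cn h Q w W γ c ρ (2 * ρ - σ) g D W₁ n) (μ : ℝ) (hμ : 0 < μ)
    (hfu : ∃ ℓ₀ : ℕ, ∀ ℓ : ℕ, ℓ₀ ≤ ℓ → ∀ θ : ℝ, ∀ u : ℕ, u ≤ 5 * ℓ →
      ‖∑ k ∈ range u, ((lp (W₁ * k + n) - dens W₁ : ℝ) : ℂ) * e (k * θ)‖ ≤ (μ / 2) * dens W₁ * ℓ) :
    ∃ ℓ₀ : ℕ, ∀ ℓ : ℕ, ℓ₀ ≤ ℓ → ∀ x₁ x₂ : ℕ → ZMod m, ∀ α ζ : ZMod m, α + ζ = 2 * g →
      μ * ℓ ≤ ((Ico (2 * ℓ) (2 * ℓ + ℓ / 4)).filter (fun j => x₂ (W * j + σ) = α)).card →
      μ * ℓ ≤ ((Ico (2 * ℓ) (2 * ℓ + ℓ / 4)).filter (fun j => x₁ (W * j + ρ) = ζ)).card →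
      WOut h c W ℓ (μ ^ 2 / (24 * W)) x₁ x₂ := by
  classical
  obtain ⟨h1, h2, h3, h4, h5, h6, h7, h8, h9⟩ := hcn
  have hD0 : 0 < W₁ := by
    rcases Nat.eq_zero_or_pos W₁ with h0 | h0
    · rw [h0, mul_zero] at h1
      omega
    · exact h0
  have hWle : W₁ ≤ W := Nat.le_of_dvd hW ⟨D, by rw [mul_comm]; exact h1⟩
  have hn0 : 0 < n := by
    rcases Nat.eq_zero_or_pos n with h0 | h0
    · rw [h0, Nat.zero_mod] at h8
      omega
    · exact h0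
  obtain ⟨L, hL⟩ := pairsG μ hμ W W₁ n hD0 hWle hn0 hfu
  refine ⟨max L (max P₀ 16), ?_⟩
  intro ℓ hℓ x₁ x₂ α ζ hαζ hA0 hC0
  have hℓL : L ≤ ℓ := (le_max_left _ _).trans hℓ
  have hℓP : P₀ ≤ ℓ := ((le_max_left _ _).trans (le_max_right _ _)).trans hℓ
  have hℓ16 : 16 ≤ ℓ := ((le_max_right _ _).trans (le_max_right _ _)).trans hℓ
  set A := (Ico (2 * ℓ) (2 * ℓ + ℓ / 4)).filter (fun j => x₂ (W * j + σ) = α) with hA
  set C := (Ico (2 * ℓ) (2 * ℓ + ℓ / 4)).filter (fun j => x₁ (W * j + ρ) = ζ) with hC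
  have hinj : Function.Injective (fun j : ℕ => 2 * j) := by
    intro a b hab
    simp only at hab
    omega
  have hAm : ∀ j ∈ A, 2 * ℓ ≤ j ∧ j < 2 * ℓ + ℓ / 4 ∧ x₂ (W * j + σ) = α := by
    intro j hj
    rw [hA, mem_filter, mem_Ico] at hj
    exact ⟨hj.1.1, hj.1.2, hj.2⟩
  have hCm : ∀ j ∈ C, 2 * ℓ ≤ j ∧ j < 2 * ℓ + ℓ / 4 ∧ x₁ (W * j + ρ) = ζ := by
    intro j hj
    rw [hC, mem_filter, mem_Ico] at hj
    exact ⟨hj.1.1, hj.1.2, hj.2⟩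
  obtain ⟨_, hmain⟩ := hL ℓ hℓL A (C.image (fun j => 2 * j)) (by
      intro j hj
      obtain ⟨_, hj2, _⟩ := hAm j hj
      rw [mem_range]
      omega) (by
      intro j hj
      rw [mem_image] at hj
      obtain ⟨i, hi, rfl⟩ := hj
      obtain ⟨_, hj2, _⟩ := hCm i hi
      rw [mem_range]
      omega) (by
      intro j hj j' hj'
      rw [mem_image] at hj'
      obtain ⟨i, hi, rfl⟩ := hj'
      obtain ⟨_, hj2, _⟩ := hAm j hj
      obtain ⟨hi1, _, _⟩ := hCm i hi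
      omega) hA0 (by
      rw [card_image_of_injective _ hinj]
      exact hC0)
  refine ⟨D, ρ, 2 * ℓ, fun p => if p.Prime ∧ ℓ < p ∧ p ≤ 6 * W * ℓ then
    C.filter (fun j => ∃ j' ∈ A, W₁ * (2 * j - j') + n = p) else ∅, ⟨W₁, h1⟩, h4, h3, ?_, ?_, ?_⟩
  · intro p
    dsimp only
    split_ifs
    · intro j hj
      rw [mem_filter] at hj
      obtain ⟨hj1, hj2, _⟩ := hCm j hj.1
      rw [mem_Ico]
      omega
    · exact Finset.empty_subset _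
  · intro p j hj
    dsimp only at hj
    split_ifs at hj with hc
    · obtain ⟨hp, hp1, hp2⟩ := hc
      rw [mem_filter] at hj
      obtain ⟨hjC, j', hj'A, hpe⟩ := hj
      obtain ⟨hj1, hj2, hj3⟩ := hCm j hjC
      obtain ⟨hj4, hj5, hj6⟩ := hAm j' hj'A
      obtain ⟨q, hq⟩ : 5 * Q ∣ W₁ * (2 * j - j') := h7.mul_right _
      have hpQ : p % (5 * Q) = 1 := by
        rw [← hpe, hq, Nat.mul_add_mod, h8]
      have hp5 : p % 5 = 1 := by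
        have h10 : p % (5 * Q) % 5 = p % 5 := Nat.mod_mod_of_dvd p ⟨Q, rfl⟩
        rw [hpQ] at h10
        omega
      have hpQ' : p % Q = 1 % Q := by
        have h10 : p % (5 * Q) % Q = p % Q := Nat.mod_mod_of_dvd p ⟨5, mul_comm _ _⟩
        rw [hpQ] at h10
        exact h10.symm
      have hsum : 2 * (W * j + ρ) = W * j' + σ + D * p := by
        have e1 : D * p = W * (2 * j - j') + D * n := by
          rw [← hpe, mul_add, ← mul_assoc, ← h1]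
        have e2 : W * j' + W * (2 * j - j') = W * (2 * j) := by
          rw [← mul_add]
          congr 1
          omega
        have e3 : W * (2 * j) = 2 * (W * j) := by ring
        rw [e3] at e2
        rw [e1, ← h5]
        omega
      have h14 : 5 * W * ℓ = 5 * (W * ℓ) := by ring
      have hlt : W * j + ρ < 5 * W * ℓ := by
        have h12 : W * j + W * 3 ≤ W * (5 * ℓ) := by
          rw [← mul_add]
          exact Nat.mul_le_mul_left _ (by omega)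
        have h13 : W * (5 * ℓ) = 5 * (W * ℓ) := by ring
        rw [h14]
        omega
      refine ⟨hp, hp5, hp1, hp2, hlt, Or.inr (Or.inr ⟨by omega, ?_⟩)⟩
      have hsub : 2 * (W * j + ρ) - D * p = W * j' + σ := by omega
      have hhp : h p = γ := hP p hp (hℓP.trans hp1.le) hpQ'
      rw [hsub, hj3, hj6, hh D p h3.1 hp.pos, hhp, add_comm ζ α, hαζ, ← h9]
      ring
    · simp at hj
  · have hfin : μ ^ 2 / (24 * W) * ℓ / Real.log ℓ ≤ ∑ p ∈ (Ioc ℓ (6 * W * ℓ)).filter Nat.Prime,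
        (((C.image (fun j => 2 * j)).filter (fun j' => ∃ j ∈ A, W₁ * (j' - j) + n = p)).card : ℝ) / p :=
      hmain
    refine hfin.trans (le_of_eq (Finset.sum_congr rfl fun p hp => ?_))
    rw [mem_filter, mem_Ioc] at hp
    dsimp only
    rw [if_pos ⟨hp.2, hp.1.1, hp.1.2⟩]
    have hcard : ((C.image (fun j => 2 * j)).filter (fun j' => ∃ j ∈ A, W₁ * (j' - j) + n = p)).card
        = (C.filter (fun j => ∃ j' ∈ A, W₁ * (2 * j - j') + n = p)).card := by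
      rw [filter_image, card_image_of_injective _ hinj]
    rw [hcard]

end Pool.Agent.Lib.MP_d57abb_nt.Ev
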