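import Mathlib
import Pool.Agent.Lib.MP_d57abb_nt.Ev.Comb
import Pool.Agent.Lib.MP_d57abb_nt.Ev.Typ3
import Pool.Agent.Lib.MP_d57abb_nt.Ev.WinAB
import Pool.Agent.Lib.MP_d57abb_nt.Ev.WinAC
import Pool.Agent.Lib.MP_d57abb_nt.Ev.WinBC

/-!
# JOB Win3: the window theorem

PROOF.  `μ = 1 / (8 m)`; `w` from `fu (μ / 2)`; types from `types3` for `A = TA m`, `B = TB m`, `C = TC m`, `gAB a b = b a`, `gAC a k = k.1 a`, `gBC b k = k.2 b` (finite types, `classical` for decidability); choose `D, W₁, n` for every edge;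
`fu` applies to every edge (`Cn`: primes `≤ w` divide `W₁`, `n` prime to `W₁`, `W₁ > 0`).  `ℓ₀` is the maximum over the finitely many edges of the `ℓ₀` of `edge_ab`, `edge_ac`, `edge_bc`, and of `W`, `4`; `c₁ = μ² / (24 W)`.
Let `ℓ ≥ ℓ₀` and `x₁, x₂`.  `ℓ / 4 ≥ ℓ / 8` (natural division on the left, real on the right, `ℓ ≥ 4`).  By the pigeonhole principle (see `Win_pig` in `All/Win.lean`) every `a` has a colour `α a` taken by `x₁ (W j + ρA a)` for at least `(ℓ/4)/m ≥ μ ℓ` of the `j < ℓ/4`; every `b` a colour `β b` of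
`x₂ (W j + σB b)` on `[2ℓ, 2ℓ + ℓ/4)`; every `k : TC m` a colour `ζ k` of `x₁ (W j + ρC k)` on `[2ℓ, 2ℓ + ℓ/4)`.  `comb m α β ζ` gives an edge with the sum of the colours `2 * g`; conclude by `edge_ab` (`α a + β b = 2 * b a`), `edge_ac`, or `edge_bc` (`ρ = ρC k`, `σ = σB b`, `2 * ρ ≥ 4 W > σ`).
-/

open Finset Filter

namespace Pool.Agent.Lib.MP_d57abb_nt.Ev

open Pool.Agent.Lib.MP_d57abb_nt Pool.Agent.Lib.MP_d57abb_nt.All

private theorem Win3_pig {m : ℕ} [NeZero m] (s : Finset ℕ) (f : ℕ → ZMod m) (ℓ : ℕ)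
    (hℓ : 4 ≤ ℓ) (hs : s.card = ℓ / 4) :
    ∃ α : ZMod m, 1 / (8 * (m : ℝ)) * ℓ ≤ ((s.filter (fun j => f j = α)).card : ℝ) := by
  have hm0 : (0 : ℝ) < m := by exact_mod_cast Nat.pos_of_ne_zero (NeZero.ne m)
  obtain ⟨y, _, hy⟩ := Finset.exists_le_card_fiber_of_nsmul_le_card_of_maps_to
    (s := s) (t := (Finset.univ : Finset (ZMod m))) (f := f) (b := ((ℓ / 4 : ℕ) : ℝ) / m)
    (fun _ _ => Finset.mem_univ _) Finset.univ_nonempty (by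
      rw [Finset.card_univ, ZMod.card, nsmul_eq_mul, hs, mul_div_cancel₀ _ hm0.ne'])
  refine ⟨y, le_trans ?_ hy⟩
  have h1 : (ℓ : ℝ) ≤ 8 * ((ℓ / 4 : ℕ) : ℝ) := by
    have : ℓ ≤ 8 * (ℓ / 4) := by omega
    exact_mod_cast this
  rw [div_mul_eq_mul_div, one_mul, div_le_div_iff₀ (by positivity) hm0]
  nlinarith

theorem window3 {m : ℕ} [NeZero m] {h : ℕ → ZMod m} (hh : Add h) (Q : ℕ) (hQ : 0 < Q)
    (γ : ZMod m) (hγ : IsUnit γ) (P₀ : ℕ) (hP : ∀ p : ℕ, p.Prime → P₀ ≤ p → p % Q = 1 % Q → h p = γ)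
    (c : ZMod m) :
    ∃ (W : ℕ) (c₁ : ℝ) (ℓ₀ : ℕ), 0 < W ∧ 0 < c₁ ∧ 2 ≤ ℓ₀ ∧ W ≤ ℓ₀ ∧ ∀ ℓ : ℕ, ℓ₀ ≤ ℓ →
      ∀ x₁ x₂ : ℕ → ZMod m, WOut h c W ℓ c₁ x₁ x₂ := by
  classical
  have hm0 : 0 < m := Nat.pos_of_ne_zero (NeZero.ne m)
  have hm0' : (0 : ℝ) < m := by exact_mod_cast hm0
  have hμ : (0 : ℝ) < 1 / (8 * (m : ℝ)) := by positivity
  obtain ⟨w, hw0, hw⟩ := fu (1 / (8 * (m : ℝ)) / 2) (by positivity)
  obtain ⟨W, ρA, σB, ρC, hW, hρA, hσB, hρC, hab, hac, hbc⟩ :=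
    types3 hh Q hQ γ hγ P₀ hP c w (TA m) (TB m) (TC m) (fun a b => b a) (fun a k => k.1 a)
      (fun b k => k.2 b)
  have hcf : ∀ (t Δ : ℕ) (g : ZMod m) (D W₁ n : ℕ), Cn h Q w W γ c t Δ g D W₁ n →
      ∃ ℓ₀ : ℕ, ∀ ℓ : ℕ, ℓ₀ ≤ ℓ → ∀ θ : ℝ, ∀ u : ℕ, u ≤ 5 * ℓ →
      ‖∑ k ∈ range u, ((lp (W₁ * k + n) - dens W₁ : ℝ) : ℂ) *
        Pool.Agent.Lib.MP_2a816b_nt.e (k * θ)‖ ≤ (1 / (8 * (m : ℝ)) / 2) * dens W₁ * ℓ := by
    intro t Δ g D W₁ n hcn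
    obtain ⟨h1, h2, h3, h4, h5, h6, h7, h8, h9⟩ := hcn
    have hpos : 0 < W₁ := by
      rcases Nat.eq_zero_or_pos W₁ with h0 | h0
      · rw [h0, mul_zero] at h1
        omega
      · exact h0
    exact hw W₁ n hpos h2 h6
  choose Dab Wab nab hab using hab
  choose Dac Wac nac hac using hac
  choose Dbc Wbc nbc hbc using hbc
  have eab := fun (a : TA m) (b : TB m) =>
    edge_ab hh Q hQ γ P₀ hP c (b a) w W (ρA a) (σB b) (Dab a b) (Wab a b) (nab a b) hW (hρA a)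
      (hσB b).2 (by have h1 := hρA a; have h2 := (hσB b).1; omega) (hab a b) (1 / (8 * (m : ℝ))) hμ
      (hcf _ _ _ _ _ _ (hab a b))
  have eac := fun (a : TA m) (k : TC m) =>
    edge_ac hh Q hQ γ P₀ hP c (k.1 a) w W (ρA a) (ρC k) (Dac a k) (Wac a k) (nac a k) hW (hρA a)
      (hρC k).2 (by have h1 := hρA a; have h2 := (hρC k).1; omega) (hac a k) (1 / (8 * (m : ℝ))) hμ
      (hcf _ _ _ _ _ _ (hac a k))
  have ebc := fun (b : TB m) (k : TC m) =>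
    edge_bc hh Q hQ γ P₀ hP c (k.2 b) w W (ρC k) (σB b) (Dbc b k) (Wbc b k) (nbc b k) hW
      (hρC k).2 (hσB b).2 (by have h1 := (hσB b).2; have h2 := (hρC k).1; omega) (hbc b k)
      (1 / (8 * (m : ℝ))) hμ (hcf _ _ _ _ _ _ (hbc b k))
  choose Lab hLab using eab
  choose Lac hLac using eac
  choose Lbc hLbc using ebc
  refine ⟨W, (1 / (8 * (m : ℝ))) ^ 2 / (24 * W),
    max (max (Finset.univ.sup fun q : TA m × TB m => Lab q.1 q.2)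
      (Finset.univ.sup fun q : TA m × TC m => Lac q.1 q.2))
      (max (Finset.univ.sup fun q : TB m × TC m => Lbc q.1 q.2) (max W 4)), hW, ?_, ?_, ?_, ?_⟩
  · have hW' : (0 : ℝ) < W := by exact_mod_cast hW
    positivity
  · have h1 : 4 ≤ max W 4 := le_max_right _ _
    exact (le_trans (by norm_num) h1).trans ((le_max_right _ _).trans (le_max_right _ _))
  · exact (le_max_left _ _).trans ((le_max_right _ _).trans (le_max_right _ _))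
  intro ℓ hℓ x₁ x₂
  have hℓab : (Finset.univ.sup fun q : TA m × TB m => Lab q.1 q.2) ≤ ℓ :=
    ((le_max_left _ _).trans (le_max_left _ _)).trans hℓ
  have hℓac : (Finset.univ.sup fun q : TA m × TC m => Lac q.1 q.2) ≤ ℓ :=
    ((le_max_right _ _).trans (le_max_left _ _)).trans hℓ
  have hℓbc : (Finset.univ.sup fun q : TB m × TC m => Lbc q.1 q.2) ≤ ℓ :=
    ((le_max_left _ _).trans (le_max_right _ _)).trans hℓ
  have hℓ4 : 4 ≤ ℓ :=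
    (((le_max_right _ _).trans (le_max_right _ _)).trans (le_max_right _ _)).trans hℓ
  have hα : ∀ a : TA m, ∃ α : ZMod m, 1 / (8 * (m : ℝ)) * ℓ ≤
      (((range (ℓ / 4)).filter (fun j => x₁ (W * j + ρA a) = α)).card : ℝ) := fun a =>
    Win3_pig (range (ℓ / 4)) (fun j => x₁ (W * j + ρA a)) ℓ hℓ4 (card_range _)
  have hβ : ∀ b : TB m, ∃ β : ZMod m, 1 / (8 * (m : ℝ)) * ℓ ≤
      (((Ico (2 * ℓ) (2 * ℓ + ℓ / 4)).filter (fun j => x₂ (W * j + σB b) = β)).card : ℝ) := fun b =>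
    Win3_pig (Ico (2 * ℓ) (2 * ℓ + ℓ / 4)) (fun j => x₂ (W * j + σB b)) ℓ hℓ4
      (by rw [Nat.card_Ico]; omega)
  have hζ : ∀ k : TC m, ∃ ζ : ZMod m, 1 / (8 * (m : ℝ)) * ℓ ≤
      (((Ico (2 * ℓ) (2 * ℓ + ℓ / 4)).filter (fun j => x₁ (W * j + ρC k) = ζ)).card : ℝ) := fun k =>
    Win3_pig (Ico (2 * ℓ) (2 * ℓ + ℓ / 4)) (fun j => x₁ (W * j + ρC k)) ℓ hℓ4
      (by rw [Nat.card_Ico]; omega)
  choose α hα using hα
  choose β hβ using hβ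
  choose ζ hζ using hζ
  rcases comb m α β ζ with ⟨a, b, hab'⟩ | ⟨a, k, hak⟩ | ⟨b, k, hbk⟩
  · exact hLab a b ℓ ((Finset.le_sup (f := fun q : TA m × TB m => Lab q.1 q.2)
      (Finset.mem_univ (a, b))).trans hℓab) x₁ x₂ (α a) (β b) hab' (hα a) (hβ b)
  · exact hLac a k ℓ ((Finset.le_sup (f := fun q : TA m × TC m => Lac q.1 q.2)
      (Finset.mem_univ (a, k))).trans hℓac) x₁ x₂ (α a) (ζ k) hak (hα a) (hζ k)
  · exact hLbc b k ℓ ((Finset.le_sup (f := fun q : TB m × TC m => Lbc q.1 q.2)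
      (Finset.mem_univ (b, k))).trans hℓbc) x₁ x₂ (β b) (ζ k) hbk (hβ b) (hζ k)

end Pool.Agent.Lib.MP_d57abb_nt.Ev
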