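import Mathlib
import Pool.Agent.Lib.MP_d57abb_nt.Ev.Win3
import Pool.Agent.Lib.MP_d57abb_nt.All.Decr

/-!
# JOB PB3: the Ramsey property on two lines

PROOF (adaptation of `All/PB.lean`, complete there: `PB_x`, `PB_x_congr`, `PB_card`, `propB`).  `W, c₁, ℓ₀` from `window3`.  `K = (Fin W → ZMod m) × (Fin (2 * W) → ZMod m)`, `W' = 6 W`.  For `x : ℕ → K` and `ℓ` let
`x₁ i = if i < 5 W ℓ then (x (i / W)).1 ⟨i % W, _⟩ else 0` and `x₂ i = if i < 10 W ℓ then (x (i / (2 W))).2 ⟨i % (2 W), _⟩ else 0`; choose `D, ρ, s, R` for `ℓ ≥ ℓ₀` and `x₁, x₂` from `WOut` (`choose`).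
`F ℓ x p = {r < p : ∃ j ∈ R p, p ∣ W (r + j) + ρ}` if `ℓ₀ ≤ ℓ` and `∅` otherwise.  `Forb (6 W) c₁ ℓ₀ F`:
* `dep`: `x₁, x₂` depend only on `x i`, `i < 5 ℓ` (`i < 5 W ℓ → i / W < 5 ℓ`, `i < 10 W ℓ → i / (2 W) < 5 ℓ`).
* `sum`: `|R p| ≤ |F ℓ x p|` for every prime `p > ℓ ≥ ℓ₀ ≥ W`: as in `PB_card`; `j` is determined by `r` modulo `p`, and two elements of `R p ⊆ [s, s + ℓ)` congruent modulo `p > ℓ` are equal.
`decr` gives `N₁`; `X = 12 W N₁`.  Given `b` let `β n = (fun i => b 1 (W n + i), fun i => b 2 (2 W n + i))`; `n, ℓ, p` from `decr`, `n < N₁`, `ℓ ≤ N₁`.  For `x = fun i => β (n + i)`: `x₁ i = b 1 (W n + i)` for `i < 5 W ℓ`, `x₂ i = b 2 (2 W n + i)` for `i < 10 W ℓ`.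
`n % p ∈ F ℓ x p` gives `j ∈ R p` with `p ∣ t := W (n + j) + ρ`.  Let `t' = W j + ρ`, `t = W n + t'`, `d = D p`: `D ∣ W`, `D ∣ ρ`, `D` is prime to `p` (`p ∤ W`), so `d ∣ t`; `Spl d`.  The three alternatives of `WOut`:
* `b 1 t + b 1 (t + d) = 2 c + 2 h d`: `x = x' = 1`, `y = t`, `y' = t + d`.
* `b 1 t + b 2 (2 t + d) = ..` (`2 W n + (2 t' + d) = 2 t + d`): `x = 1, y = t, x' = 2, y' = 2 t + d`: `x y' = 2 t + d = x' y + d`.
* `b 1 t + b 2 (2 t - d) = ..`: `x = 2, y = 2 t - d, x' = 1, y' = t`: `x y' = 2 t = x' y + d`; the sum commutes.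
All are at most `W N₁ + ... ≤ 12 W N₁` (`t < W n + 5 W ℓ`, `y' < 2 W n + 10 W ℓ`; in the third case `y ≤ 2 t`).
-/

open Finset

namespace Pool.Agent.Lib.MP_d57abb_nt.Ev

open Pool.Agent.Lib.MP_d57abb_nt Pool.Agent.Lib.MP_d57abb_nt.All

/-- the word of length `5 V ℓ` of a sequence of blocks -/
private def PB3_x {m : ℕ} (V : ℕ) (hV : 0 < V) (ℓ : ℕ) (x : ℕ → Fin V → ZMod m) : ℕ → ZMod m :=
  fun i => if i < V * (5 * ℓ) then x (i / V) ⟨i % V, Nat.mod_lt _ hV⟩ else 0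

private theorem PB3_x_congr {m : ℕ} (V : ℕ) (hV : 0 < V) (ℓ : ℕ) (x y : ℕ → Fin V → ZMod m)
    (h : ∀ i < 5 * ℓ, x i = y i) : PB3_x V hV ℓ x = PB3_x V hV ℓ y := by
  funext i
  unfold PB3_x
  by_cases hi : i < V * (5 * ℓ)
  · rw [if_pos hi, if_pos hi, h (i / V) (Nat.div_lt_of_lt_mul hi)]
  · rw [if_neg hi, if_neg hi]

private theorem PB3_x_eq {m : ℕ} (V : ℕ) (hV : 0 < V) (ℓ : ℕ) (b : ℕ → ZMod m) (n i : ℕ)
    (hi : i < V * (5 * ℓ)) :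
    PB3_x V hV ℓ (fun k (e : Fin V) => b (V * (n + k) + e)) i = b (V * n + i) := by
  unfold PB3_x
  rw [if_pos hi]
  show b (V * (n + i / V) + i % V) = b (V * n + i)
  congr 1
  have := Nat.div_add_mod i V
  rw [Nat.mul_add]
  omega

private theorem PB3_card {p W ρ s ℓ : ℕ} (hp : p.Prime) (hW : ¬ p ∣ W) (hℓ : ℓ < p) {R : Finset ℕ}
    (hR : R ⊆ Ico s (s + ℓ)) :
    R.card ≤ ((range p).filter (fun r => ∃ j ∈ R, p ∣ W * (r + j) + ρ)).card := by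
  have : Fact p.Prime := ⟨hp⟩
  have hW0 : (W : ZMod p) ≠ 0 := by
    intro h0
    exact hW ((ZMod.natCast_eq_zero_iff W p).1 h0)
  refine card_le_card_of_injOn (fun j => (-(ρ : ZMod p) * (W : ZMod p)⁻¹ - (j : ZMod p)).val) ?_ ?_
  · intro j hj
    rw [mem_coe] at hj
    rw [mem_coe, mem_filter, mem_range]
    refine ⟨ZMod.val_lt _, j, hj, ?_⟩
    rw [← ZMod.natCast_eq_zero_iff]
    push_cast
    rw [ZMod.natCast_val, ZMod.cast_id]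
    field_simp
    ring
  · intro j hj j' hj' he
    have hj1 := mem_Ico.1 (hR hj)
    have hj2 := mem_Ico.1 (hR hj')
    have h1 := ZMod.val_injective p he
    have h2 : (j : ZMod p) = (j' : ZMod p) := by linear_combination -h1
    obtain ⟨i, rfl⟩ := Nat.exists_eq_add_of_le hj1.1
    obtain ⟨i', rfl⟩ := Nat.exists_eq_add_of_le hj2.1
    have h3 : (i : ZMod p) = (i' : ZMod p) := by
      push_cast at h2
      linear_combination h2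
    rw [ZMod.natCast_eq_natCast_iff'] at h3
    rw [Nat.mod_eq_of_lt (by omega), Nat.mod_eq_of_lt (by omega)] at h3
    rw [h3]

theorem propV {m : ℕ} [NeZero m] {h : ℕ → ZMod m} (hh : Add h) (Q : ℕ) (hQ : 0 < Q)
    (γ : ZMod m) (hγ : IsUnit γ) (P₀ : ℕ) (hP : ∀ p : ℕ, p.Prime → P₀ ≤ p → p % Q = 1 % Q → h p = γ)
    (c : ZMod m) : ∃ X : ℕ, PropV h (2 * c) X := by
  classical
  obtain ⟨W, c₁, ℓ₀, hW, hc₁, hℓ2, hWℓ, hw⟩ := window3 hh Q hQ γ hγ P₀ hP c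
  have hW2 : 0 < 2 * W := by omega
  unfold WOut at hw
  choose D ρ s R hD1 hD2 hD3 hR1 hR2 hR3 using hw
  let X₁ : ℕ → (ℕ → (Fin W → ZMod m) × (Fin (2 * W) → ZMod m)) → ℕ → ZMod m := fun ℓ x =>
    PB3_x W hW ℓ (fun i => (x i).1)
  let X₂ : ℕ → (ℕ → (Fin W → ZMod m) × (Fin (2 * W) → ZMod m)) → ℕ → ZMod m := fun ℓ x =>
    PB3_x (2 * W) hW2 ℓ (fun i => (x i).2)
  let F : ℕ → (ℕ → (Fin W → ZMod m) × (Fin (2 * W) → ZMod m)) → ℕ → Finset ℕ := fun ℓ x p =>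
    if hℓ : ℓ₀ ≤ ℓ then
      (range p).filter (fun r => ∃ j ∈ R ℓ hℓ (X₁ ℓ x) (X₂ ℓ x) p,
        p ∣ W * (r + j) + ρ ℓ hℓ (X₁ ℓ x) (X₂ ℓ x))
    else ∅
  have hF : Forb (6 * W) c₁ ℓ₀ F := by
    refine ⟨by omega, hc₁, hℓ2, ?_, ?_, ?_⟩
    · intro ℓ hℓ x y hxy
      have h1 : X₁ ℓ x = X₁ ℓ y := PB3_x_congr W hW ℓ _ _ (fun i hi => by
        show (x i).1 = (y i).1
        rw [hxy i hi])
      have h2 : X₂ ℓ x = X₂ ℓ y := PB3_x_congr (2 * W) hW2 ℓ _ _ (fun i hi => by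
        show (x i).2 = (y i).2
        rw [hxy i hi])
      show (fun p => if hℓ : ℓ₀ ≤ ℓ then
        (range p).filter (fun r => ∃ j ∈ R ℓ hℓ (X₁ ℓ x) (X₂ ℓ x) p,
          p ∣ W * (r + j) + ρ ℓ hℓ (X₁ ℓ x) (X₂ ℓ x))
        else ∅) = _
      rw [h1, h2]
    · intro ℓ x p
      show (if hℓ : ℓ₀ ≤ ℓ then
        (range p).filter (fun r => ∃ j ∈ R ℓ hℓ (X₁ ℓ x) (X₂ ℓ x) p,
          p ∣ W * (r + j) + ρ ℓ hℓ (X₁ ℓ x) (X₂ ℓ x))
        else ∅) ⊆ range p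
      by_cases hℓ : ℓ₀ ≤ ℓ
      · rw [dif_pos hℓ]
        exact filter_subset _ _
      · rw [dif_neg hℓ]
        exact empty_subset _
    · intro ℓ hℓ x
      refine (hR3 ℓ hℓ (X₁ ℓ x) (X₂ ℓ x)).trans ?_
      refine sum_le_sum fun p hp => ?_
      rw [mem_filter, mem_Ioc] at hp
      have hpW : ¬ p ∣ W := by
        intro h1
        have h2 := Nat.le_of_dvd hW h1
        omega
      have h1 : (R ℓ hℓ (X₁ ℓ x) (X₂ ℓ x) p).card ≤ (F ℓ x p).card := by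
        have h2 := PB3_card (ρ := ρ ℓ hℓ (X₁ ℓ x) (X₂ ℓ x)) hp.2 hpW hp.1.1
          (hR1 ℓ hℓ (X₁ ℓ x) (X₂ ℓ x) p)
        have h3 : F ℓ x p = (range p).filter
            (fun r => ∃ j ∈ R ℓ hℓ (X₁ ℓ x) (X₂ ℓ x) p,
              p ∣ W * (r + j) + ρ ℓ hℓ (X₁ ℓ x) (X₂ ℓ x)) :=
          dif_pos hℓ
        rw [h3]
        exact h2
      have hp0 : (0 : ℝ) ≤ p := Nat.cast_nonneg p
      exact div_le_div_of_nonneg_right (by exact_mod_cast h1) hp0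
  obtain ⟨N₁, hN₁⟩ := decr hF
  refine ⟨12 * W * N₁, fun b => ?_⟩
  obtain ⟨n, ℓ, p, hn, hℓ0, hℓN, hpS, hmem⟩ := hN₁
    (fun n => ((fun i : Fin W => b 1 (W * n + i)), (fun i : Fin (2 * W) => b 2 (2 * W * n + i))))
  have hmem' : n % p ∈ F ℓ (fun k => ((fun i : Fin W => b 1 (W * (n + k) + i)),
      (fun i : Fin (2 * W) => b 2 (2 * W * (n + k) + i)))) p := hmem
  clear hmem
  have hx1 : ∀ i < 5 * W * ℓ, X₁ ℓ (fun k => ((fun i : Fin W => b 1 (W * (n + k) + i)),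
      (fun i : Fin (2 * W) => b 2 (2 * W * (n + k) + i)))) i = b 1 (W * n + i) := by
    intro i hi
    exact PB3_x_eq W hW ℓ (b 1) n i (by
      have e : W * (5 * ℓ) = 5 * W * ℓ := by ring
      omega)
  have hx2 : ∀ i < 10 * W * ℓ, X₂ ℓ (fun k => ((fun i : Fin W => b 1 (W * (n + k) + i)),
      (fun i : Fin (2 * W) => b 2 (2 * W * (n + k) + i)))) i = b 2 (2 * W * n + i) := by
    intro i hi
    exact PB3_x_eq (2 * W) hW2 ℓ (b 2) n i (by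
      have e : 2 * W * (5 * ℓ) = 10 * W * ℓ := by ring
      omega)
  generalize (fun k => ((fun i : Fin W => b 1 (W * (n + k) + i)),
      (fun i : Fin (2 * W) => b 2 (2 * W * (n + k) + i)))) = z at hmem' hx1 hx2
  have h3 : F ℓ z p = (range p).filter
      (fun r => ∃ j ∈ R ℓ hℓ0 (X₁ ℓ z) (X₂ ℓ z) p, p ∣ W * (r + j) + ρ ℓ hℓ0 (X₁ ℓ z) (X₂ ℓ z)) :=
    dif_pos hℓ0
  rw [h3, mem_filter] at hmem'
  obtain ⟨-, j, hj, hdvd⟩ := hmem'
  clear h3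
  clear_value F
  generalize X₁ ℓ z = y₁ at hj hdvd hx1
  generalize X₂ ℓ z = y₂ at hj hdvd hx2
  obtain ⟨hp, hp5, hℓp, hp6W, hlt, halt⟩ := hR2 ℓ hℓ0 y₁ y₂ p j hj
  have hd1 := hD1 ℓ hℓ0 y₁ y₂
  have hd2 := hD2 ℓ hℓ0 y₁ y₂
  have hd3 := hD3 ℓ hℓ0 y₁ y₂
  generalize D ℓ hℓ0 y₁ y₂ = D' at hd1 hd2 hd3 halt
  generalize ρ ℓ hℓ0 y₁ y₂ = ρ' at hd2 halt hlt hdvd
  clear hF hN₁ F hR1 hR2 hR3 hD1 hD2 hD3 hj R D ρ s X₁ X₂
  have hpW : ¬ p ∣ W := by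
    intro h1
    have h2 := Nat.le_of_dvd hW h1
    omega
  have hpt : p ∣ W * (n + j) + ρ' := by
    have h1 : W * (n + j) + ρ' = (W * (n % p + j) + ρ') + p * (W * (n / p)) := by
      have h2 := Nat.div_add_mod n p
      calc W * (n + j) + ρ' = W * ((p * (n / p) + n % p) + j) + ρ' := by rw [h2]
        _ = (W * (n % p + j) + ρ') + p * (W * (n / p)) := by ring
    rw [h1]
    exact dvd_add hdvd (dvd_mul_right _ _)
  have hDt : D' ∣ W * (n + j) + ρ' := dvd_add (hd1.mul_right _) hd2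
  have hcop : Nat.Coprime D' p := by
    rw [Nat.coprime_comm, Nat.Prime.coprime_iff_not_dvd hp]
    exact fun h1 => hpW (h1.trans hd1)
  have hdt : D' * p ∣ W * (n + j) + ρ' := Nat.Coprime.mul_dvd_of_dvd_of_dvd hcop hDt hpt
  have hspl : Spl (D' * p) := by
    refine ⟨Nat.mul_pos hd3.1 hp.pos, ?_⟩
    intro q hq hqd
    rcases (hq.dvd_mul).1 hqd with h1 | h1
    · exact hd3.2 q hq h1
    · rw [(Nat.prime_dvd_prime_iff_eq hq hp).1 h1]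
      exact Or.inl hp5
  have e0 : W * (n + j) + ρ' = W * n + (W * j + ρ') := by ring
  have b1 : W * n ≤ W * N₁ := Nat.mul_le_mul_left _ hn.le
  have b2 : 5 * W * ℓ ≤ 5 * W * N₁ := Nat.mul_le_mul_left _ hℓN
  have b3 : 12 * W * N₁ = 12 * (W * N₁) := by ring
  have b4 : 5 * W * N₁ = 5 * (W * N₁) := by ring
  have b5 : 5 * W * ℓ = 5 * (W * ℓ) := by ring
  have b6 : 10 * W * ℓ = 10 * (W * ℓ) := by ring
  have b7 : 2 * W * n = 2 * (W * n) := by ring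
  rw [e0] at hdt
  generalize D' * p = d at hdt hspl halt
  generalize W * j + ρ' = t at hdt hlt halt
  rw [b3]
  rw [b4, b5] at b2
  rw [b5] at hlt hx1 halt
  rw [b6] at hx2 halt
  rw [b7] at hx2
  generalize W * n = A at b1 hdt hx1 hx2
  generalize W * ℓ = B at b2 hlt halt hx1 hx2
  generalize W * N₁ = C at b1 b2 ⊢
  rcases halt with ⟨ha, hs⟩ | ⟨ha, hs⟩ | ⟨ha, hs⟩
  · refine ⟨1, A + t, 1, A + t + d, d, Or.inl rfl, Or.inl rfl, hspl, hdt,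
      dvd_add hdt (dvd_refl d), by omega, by omega, by ring, ?_⟩
    have h1 := hx1 t hlt
    have h2 := hx1 (t + d) ha
    rw [← Nat.add_assoc] at h2
    rw [← h1, ← h2]
    exact hs
  · refine ⟨1, A + t, 2, 2 * (A + t) + d, d, Or.inl rfl, Or.inr rfl, hspl, hdt,
      dvd_add (hdt.mul_left _) (dvd_refl d), by omega, by omega, by ring, ?_⟩
    have h1 := hx1 t hlt
    have h2 := hx2 (2 * t + d) ha
    have e1 : 2 * A + (2 * t + d) = 2 * (A + t) + d := by ring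
    rw [e1] at h2
    rw [← h1, ← h2]
    exact hs
  · have h1 := hx1 t hlt
    have h2 := hx2 (2 * t - d) (by omega)
    have e1 : 2 * A + (2 * t - d) = 2 * (A + t) - d := by omega
    rw [e1] at h2
    refine ⟨2, 2 * (A + t) - d, 1, A + t, d, Or.inr rfl, Or.inl rfl, hspl,
      Nat.dvd_sub (hdt.mul_left _) (dvd_refl d), hdt, by omega, by omega, by omega, ?_⟩
    rw [← h1, ← h2, add_comm]
    exact hs

end Pool.Agent.Lib.MP_d57abb_nt.Ev
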