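import Mathlib
import Pool.Agent.Lib.MP_d57abb_nt.Ev.PB3
import Pool.Agent.Lib.MP_d57abb_nt.Ev.FinE
import Pool.Agent.Lib.MP_d57abb_nt.Ev.FinV

/-!
# The main theorems
-/

open Finset

namespace Pool.Agent.Lib.MP_d57abb_nt.Ev

open Pool.Agent.Lib.MP_d57abb_nt Pool.Agent.Lib.MP_d57abb_nt.All Pool.Agent.Lib.MP_d57abb_nt.AP

theorem exists_parV {m : ℕ} [NeZero m] {h : ℕ → ZMod m} (hh : Add h) (hB : ∀ c, ∃ X, PropV h (2 * c) X) :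
    ∃ (X : ℕ) (δ₀ u₀ : ℤ × ℤ) (dl co : ℕ → ℤ × ℤ) (B w E : ℕ), ParV h X δ₀ u₀ dl co B w E := by
  obtain ⟨X, hX⟩ := exists_propXV hB
  obtain ⟨δ₀, dl, co, tp, hc, hS⟩ := exists_sys' X
  obtain ⟨B, u₀, hu⟩ := base_of_prim δ₀ tp hc
  have hn := tp.nm_pos
  set w : ℕ := 8 * (X + 1) + (nm δ₀).natAbs with hw
  set n : ℤ := nm (2, ((2 * B + X : ℕ) : ℤ)) with hnn
  refine ⟨X, δ₀, u₀, dl, co, B, w, n.toNat + 1, ?_⟩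
  refine ⟨hh, hX, tp, hS, hu, by omega, ?_, by omega, ?_⟩
  · have h1 : (nm δ₀).natAbs ∣ w.factorial :=
      Nat.dvd_factorial (Int.natAbs_pos.mpr hn.ne') (by omega)
    exact Int.natAbs_dvd.mp (by exact_mod_cast h1)
  · have h1 : (n.toNat + 1 : ℕ) < 2 ^ (n.toNat + 1) := Nat.lt_two_pow_self
    have h2 : n ≤ (n.toNat : ℤ) := Int.self_le_toNat n
    have h3 : ((n.toNat + 1 : ℕ) : ℤ) < 2 ^ (n.toNat + 1) := by exact_mod_cast h1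
    push_cast at h3
    rw [← hnn]
    linarith

/-- every class `2 c` -/
theorem main_e {m : ℕ} [NeZero m] (h : ℕ → ZMod m)
    (hh : ∀ a b : ℕ, 0 < a → 0 < b → h (a * b) = h a + h b) (Q : ℕ) (hQ : 0 < Q) (γ : ZMod m)
    (hγ : IsUnit γ) (hP : ∃ P₀ : ℕ, ∀ p : ℕ, p.Prime → P₀ ≤ p → p ≡ 1 [MOD Q] → h p = γ) :
    ∃ (κ : ℝ) (N₀ : ℕ), 0 < κ ∧ ∀ c : ZMod m, ∀ N : ℕ, N₀ ≤ N →
      κ * N / Real.log N ^ 2 ≤ ((Icc 1 N).filter (fun k => h (k ^ 2 + 3 * k + 1) = 2 * c)).card := by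
  obtain ⟨P₀, hP⟩ := hP
  obtain ⟨X, δ₀, u₀, dl, co, B, w, E, P⟩ := exists_parV (h := h) hh
    (fun c => propV hh Q hQ γ hγ P₀ (fun p h2 h3 h4 => hP p h2 h3 h4) c)
  exact fin_e P

/-- almost primes in every class `2 c` -/
theorem main_v {m : ℕ} [NeZero m] (h : ℕ → ZMod m)
    (hh : ∀ a b : ℕ, 0 < a → 0 < b → h (a * b) = h a + h b) (Q : ℕ) (hQ : 0 < Q) (γ : ZMod m)
    (hγ : IsUnit γ) (hP : ∃ P₀ : ℕ, ∀ p : ℕ, p.Prime → P₀ ≤ p → p ≡ 1 [MOD Q] → h p = γ) :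
    ∃ C N₀ : ℕ, ∀ c : ZMod m, ∀ N : ℕ, N₀ ≤ N → (N : ℝ) / Real.log N ^ C ≤
      ((Icc 1 N).filter (fun k => h (k ^ 2 + 3 * k + 1) = 2 * c ∧
        ArithmeticFunction.cardFactors (k ^ 2 + 3 * k + 1) ≤ C)).card := by
  obtain ⟨P₀, hP⟩ := hP
  obtain ⟨X, δ₀, u₀, dl, co, B, w, E, P⟩ := exists_parV (h := h) hh
    (fun c => propV hh Q hQ γ hγ P₀ (fun p h2 h3 h4 => hP p h2 h3 h4) c)
  exact fin_lowerV P

end Pool.Agent.Lib.MP_d57abb_nt.Ev
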